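import Mathlib

set_option autoImplicit false

/-!
If conjugation maps a subgroup `A` of a finite abelian `p`-group `S` into `S` and stabilises no
nontrivial subgroup of `A`, then the index of `A` in `S` is at least the exponent of `S`.
-/

namespace Pool.Agent.Lib.MP_b6945b_al

variable {G : Type} [Group G]

/-- Pairwise commuting elements. -/
def IsAb (S : Subgroup G) : Prop := ∀ x ∈ S, ∀ y ∈ S, x * y = y * x

lemma IsAb.mono {S A : Subgroup G} (h : IsAb S) (hA : A ≤ S) : IsAb A :=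
  fun x hx y hy => h x (hA hx) y (hA hy)

/-- The `p`-th powers in a commutative subgroup. -/
def mho (p : ℕ) (S : Subgroup G) (h : IsAb S) : Subgroup G where
  carrier := {x | ∃ y ∈ S, y ^ p = x}
  one_mem' := ⟨1, S.one_mem, one_pow _⟩
  mul_mem' := by
    rintro _ _ ⟨x, hx, rfl⟩ ⟨y, hy, rfl⟩
    exact ⟨x * y, S.mul_mem hx hy, Commute.mul_pow (h x hx y hy) p⟩
  inv_mem' := by
    rintro _ ⟨x, hx, rfl⟩
    exact ⟨x⁻¹, S.inv_mem hx, inv_pow _ _⟩

/-- The elements killed by `p` in a commutative subgroup. -/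
def omg (p : ℕ) (S : Subgroup G) (h : IsAb S) : Subgroup G where
  carrier := {x | x ∈ S ∧ x ^ p = 1}
  one_mem' := ⟨S.one_mem, one_pow _⟩
  mul_mem' := by
    rintro x y ⟨hx, hx'⟩ ⟨hy, hy'⟩
    exact ⟨S.mul_mem hx hy, by rw [Commute.mul_pow (h x hx y hy) p, hx', hy', one_mul]⟩
  inv_mem' := by
    rintro x ⟨hx, hx'⟩
    exact ⟨S.inv_mem hx, by rw [inv_pow, hx', inv_one]⟩

lemma mho_le (p : ℕ) (S : Subgroup G) (h : IsAb S) : mho p S h ≤ S := by
  rintro _ ⟨y, hy, rfl⟩; exact S.pow_mem hy p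

lemma card_eq_mho_mul_omg (p : ℕ) (S : Subgroup G) (h : IsAb S) :
    Nat.card S = Nat.card (mho p S h) * Nat.card (omg p S h) := by
  let f : S →* G :=
    { toFun := fun y => (y : G) ^ p
      map_one' := by simp
      map_mul' := fun x y => by
        simpa using Commute.mul_pow (h x x.2 y y.2) p }
  have h1 : f.range = mho p S h := by
    ext x
    constructor
    · rintro ⟨y, rfl⟩; exact ⟨y, y.2, rfl⟩
    · rintro ⟨y, hy, rfl⟩; exact ⟨⟨y, hy⟩, rfl⟩
  have h2 : Nat.card f.ker = Nat.card (omg p S h) := by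
    refine Nat.card_congr (Equiv.ofBijective (fun y => ⟨y.1.1, y.1.2, y.2⟩) ⟨?_, ?_⟩)
    · intro x y e
      have e' := congrArg Subtype.val e
      exact Subtype.ext (Subtype.ext e')
    · rintro ⟨x, hx, hx'⟩
      exact ⟨⟨⟨x, hx⟩, hx'⟩, rfl⟩
  rw [Subgroup.card_eq_card_quotient_mul_card_subgroup f.ker, h2, ← h1,
    Nat.card_congr (QuotientGroup.quotientKerEquivRange f).toEquiv]

lemma prime_mul_card_dvd [Finite G] {p : ℕ} [Fact p.Prime] {A S : Subgroup G} (hS : IsPGroup p S)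
    (hle : A ≤ S) (hne : A ≠ S) : p * Nat.card A ∣ Nat.card S := by
  obtain ⟨n, hn⟩ := (IsPGroup.iff_card).1 hS
  obtain ⟨m, hm⟩ := (IsPGroup.iff_card).1 (hS.to_le hle)
  have hlt : Nat.card A < Nat.card S := by
    refine lt_of_le_of_ne (Subgroup.card_le_of_le hle) ?_
    intro e
    exact hne (Subgroup.eq_of_le_of_card_ge hle e.ge)
  rw [hn, hm] at hlt ⊢
  rw [← pow_succ']
  exact pow_dvd_pow p ((Nat.pow_lt_pow_iff_right (Fact.out : p.Prime).one_lt).1 hlt)

theorem ab_lemma [Finite G] {p : ℕ} [Fact p.Prime] (b : G) (e : ℕ) :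
    ∀ (S A : Subgroup G) (_ : IsPGroup p S) (_ : IsAb S) (_ : A ≤ S)
      (_ : ∀ q ∈ A, b⁻¹ * q * b ∈ S)
      (_ : ∀ T : Subgroup G, T ≤ A → b ∈ Subgroup.normalizer (T : Set G) → T = ⊥)
      (t : G) (_ : t ∈ S) (_ : orderOf t = p ^ e), p ^ e * Nat.card A ∣ Nat.card S := by
  induction e with
  | zero =>
    intro S A _ _ hle _ _ _ _ _
    rw [pow_zero, one_mul]
    exact Subgroup.card_dvd_of_le hle
  | succ e ih =>
    intro S A hS hab hle hb hT t ht hot
    have hp : p.Prime := Fact.out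
    have hA : IsAb A := hab.mono hle
    have h1 := ih (mho p S hab) (mho p A hA) (hS.to_le (mho_le _ _ _)) (hab.mono (mho_le _ _ _))
      (by rintro _ ⟨y, hy, rfl⟩; exact ⟨y, hle hy, rfl⟩)
      (by
        rintro _ ⟨y, hy, rfl⟩
        refine ⟨b⁻¹ * y * b, hb y hy, ?_⟩
        have := conj_pow (a := b⁻¹) (b := y) (i := p)
        rwa [inv_inv] at this)
      (fun T hTle hn => hT T (hTle.trans (mho_le _ _ _)) hn)
      (t ^ p) ⟨t, ht, rfl⟩ (by
        rw [orderOf_pow' _ hp.ne_zero, hot, Nat.gcd_eq_right (dvd_pow_self p (Nat.succ_ne_zero e)),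
          pow_succ, Nat.mul_div_cancel _ hp.pos])
    have hle2 : omg p A hA ≤ omg p S hab := fun x hx => ⟨hle hx.1, hx.2⟩
    have hne : omg p A hA ≠ omg p S hab := by
      intro heq
      have hbot : omg p A hA = ⊥ := by
        refine hT _ (fun x hx => hx.1) ?_
        rw [← Subgroup.inv_mem_iff]
        refine Subgroup.mem_normalizer_fintype ?_
        intro x hx
        have hx' : x ∈ omg p A hA := hx
        change b⁻¹ * x * b⁻¹⁻¹ ∈ omg p A hA
        rw [heq, inv_inv]
        refine ⟨hb x hx'.1, ?_⟩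
        have := conj_pow (a := b⁻¹) (b := x) (i := p)
        rw [inv_inv] at this
        rw [this, hx'.2]; simp
      have hmem : t ^ (p ^ e) ∈ omg p S hab := by
        refine ⟨S.pow_mem ht _, ?_⟩
        rw [← pow_mul, ← pow_succ, ← hot, pow_orderOf_eq_one]
      rw [← heq, hbot, Subgroup.mem_bot] at hmem
      have := orderOf_dvd_of_pow_eq_one hmem
      rw [hot] at this
      have := Nat.le_of_dvd (pow_pos hp.pos e) this
      have h3 : p ^ e < p ^ (e + 1) := (Nat.pow_lt_pow_iff_right hp.one_lt).2 (Nat.lt_succ_self e)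
      omega
    have h2 := prime_mul_card_dvd (hS.to_le (fun x (hx : x ∈ omg p S hab) => hx.1)) hle2 hne
    rw [card_eq_mho_mul_omg p S hab, card_eq_mho_mul_omg p A hA]
    have := mul_dvd_mul h1 h2
    refine dvd_trans (dvd_of_eq ?_) this
    ring

end Pool.Agent.Lib.MP_b6945b_al
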