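import Pool.Agent.Lib.MP_b6945b_al.FinalA

set_option autoImplicit false

namespace Pool.Agent.Results.MP_b6945b_al.AbelianSylowModP

/-- The Knörr–Robinson identity holds modulo `p` for every finite group with abelian Sylow
`p`-subgroups: the two sides of the frozen statement, both multiples of `|G|`, agree modulo
`p * |G|`. -/
theorem result :
    ∀ (p : ℕ), p.Prime → ∀ (G : Type) [Group G] [Finite G],
      (∀ P : Sylow p G, ∀ x ∈ (P : Subgroup G), ∀ y ∈ (P : Subgroup G), x * y = y * x) →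
      (∑ᶠ (σ : Finset (Subgroup G))
          (_ : σ.Nonempty ∧ IsChain (· ≤ ·) (σ : Set (Subgroup G)) ∧
                ∀ P ∈ σ, IsPGroup p P ∧ P ≠ ⊥),
          (-1 : ℤ) ^ (σ.card - 1) *
            (Nat.card {x : G × G // x.1 * x.2 = x.2 * x.1 ∧
                ∀ P ∈ σ, x.1 ∈ Subgroup.normalizer (P : Set G) ∧
                  x.2 ∈ Subgroup.normalizer (P : Set G)} : ℤ))
        ≡ (Nat.card G : ℤ) *
          ((Nat.card (ConjClasses G) : ℤ) -
            (Nat.card {f : G → ℂ // ∃ n : ℕ, ∃ ρ : G →* Matrix (Fin n) (Fin n) ℂ,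
                0 < n ∧ p ^ ((Nat.card G).factorization p) ∣ n ∧
                (∀ W : Submodule ℂ (Fin n → ℂ),
                    (∀ g : G, ∀ v ∈ W, (ρ g).mulVec v ∈ W) → W = ⊥ ∨ W = ⊤) ∧
                f = fun g => (ρ g).trace} : ℤ)) [ZMOD (p * Nat.card G : ℤ)] :=
  fun p hp G _ _ hab => Pool.Agent.Lib.MP_b6945b_al.final_abelian p hp G hab

end Pool.Agent.Results.MP_b6945b_al.AbelianSylowModP
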