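import Pool.Agent.Lib.MP_b6945b_al.Assemble

set_option autoImplicit false

/-!
Translation to the form of the frozen statement.
-/

namespace Pool.Agent.Lib.MP_b6945b_al

open Finset

open Classical in
lemma finsum_chains {G : Type} [Group G] [Fintype (Finset (Subgroup G))] (p : ℕ)
    (c : Finset (Subgroup G) → ℤ) :
    (∑ᶠ (σ : Finset (Subgroup G))
      (_ : σ.Nonempty ∧ IsChain (· ≤ ·) (σ : Set (Subgroup G)) ∧ ∀ P ∈ σ, IsPGroup p P ∧ P ≠ ⊥),
      (-1 : ℤ) ^ (σ.card - 1) * c σ) =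
      c ∅ - ∑ σ : Finset (Subgroup G), if IsPChain p σ then sgn σ * c σ else 0 := by
  rw [finsum_eq_sum_of_fintype]
  have : c ∅ = ∑ σ : Finset (Subgroup G), if σ = ∅ then c σ else 0 := by simp
  rw [this, ← Finset.sum_sub_distrib]
  refine Finset.sum_congr rfl (fun σ _ => ?_)
  rw [finsum_eq_if]
  rcases σ.eq_empty_or_nonempty with rfl | hne
  · have : IsPChain p (∅ : Finset (Subgroup G)) := ⟨by simp, by simp⟩
    simp [this, sgn]
  · rw [if_neg hne.ne_empty]
    by_cases h : IsPChain p σ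
    · rw [if_pos h, if_pos ⟨hne, h⟩, sgn]
      obtain ⟨k, hk⟩ := Nat.exists_eq_add_one_of_ne_zero hne.card_pos.ne'
      rw [hk, Nat.add_sub_cancel, pow_succ]
      ring
    · rw [if_neg h, if_neg (fun h' => h h'.2), sub_zero]

theorem final_abelian (p : ℕ) (hp : p.Prime) (G : Type) [Group G] [Finite G]
    (hab : ∀ P : Sylow p G, ∀ x ∈ (P : Subgroup G), ∀ y ∈ (P : Subgroup G), x * y = y * x) :
    (∑ᶠ (σ : Finset (Subgroup G))
        (_ : σ.Nonempty ∧ IsChain (· ≤ ·) (σ : Set (Subgroup G)) ∧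
              ∀ P ∈ σ, IsPGroup p P ∧ P ≠ ⊥),
        (-1 : ℤ) ^ (σ.card - 1) *
          (Nat.card {x : G × G // x.1 * x.2 = x.2 * x.1 ∧
              ∀ P ∈ σ, x.1 ∈ Subgroup.normalizer (P : Set G) ∧
                x.2 ∈ Subgroup.normalizer (P : Set G)} : ℤ))
      ≡ (Nat.card G : ℤ) *
        ((Nat.card (ConjClasses G) : ℤ) -
          (Nat.card {f : G → ℂ // ∃ n : ℕ, ∃ ρ : G →* Matrix (Fin n) (Fin n) ℂ,
              0 < n ∧ p ^ ((Nat.card G).factorization p) ∣ n ∧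
              (∀ W : Submodule ℂ (Fin n → ℂ),
                  (∀ g : G, ∀ v ∈ W, (ρ g).mulVec v ∈ W) → W = ⊥ ∨ W = ⊤) ∧
              f = fun g => (ρ g).trace} : ℤ)) [ZMOD (p * Nat.card G : ℤ)] := by
  classical
  have : Fact p.Prime := ⟨hp⟩
  let _ : Fintype G := Fintype.ofFinite G
  let _ : Fintype (Finset (Subgroup G)) := Fintype.ofFinite _
  obtain ⟨I⟩ := exists_irrData G
  have h1 := nn_one_congr hab I
  have h2 := I.card_irr (fun n _ => p ^ (Nat.card G).factorization p ∣ n)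
  have h3 : ∀ σ : Finset (Subgroup G), Nat.card {x : G × G // x.1 * x.2 = x.2 * x.1 ∧
      ∀ P ∈ σ, x.1 ∈ Subgroup.normalizer (P : Set G) ∧ x.2 ∈ Subgroup.normalizer (P : Set G)} =
      Nat.card {x : G × G // x.1 * x.2 = x.2 * x.1 ∧ x.1 ∈ stab σ ∧ x.2 ∈ stab σ} := by
    intro σ
    refine Nat.card_congr (Equiv.subtypeEquivRight (fun x => and_congr_right (fun _ => ?_)))
    simp only [mem_stab]
    exact ⟨fun h => ⟨fun P hP => (h P hP).1, fun P hP => (h P hP).2⟩,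
      fun h P hP => ⟨h.1 P hP, h.2 P hP⟩⟩
  have h4 : Nat.card {x : G × G // x.1 * x.2 = x.2 * x.1 ∧ x.1 ∈ stab (∅ : Finset (Subgroup G)) ∧
      x.2 ∈ stab (∅ : Finset (Subgroup G))} = Nat.card (ConjClasses G) * Nat.card G := by
    rw [← card_comm_eq_card_conjClasses_mul_card]
    refine Nat.card_congr (Equiv.subtypeEquivRight (fun x => ?_))
    simp [stab_empty, commute_iff_eq]
  simp only [h3]
  rw [finsum_chains, ← nn_one_eq, h4]
  unfold MatIrr at h2
  rw [h2, Int.modEq_iff_dvd]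
  refine dvd_trans h1 (dvd_of_eq ?_)
  push_cast
  ring

end Pool.Agent.Lib.MP_b6945b_al
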