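import Pool.Agent.Lib.MP_b6945b_al.Cusp

set_option autoImplicit false

/-!
The divisibility theorem for the chain-weighted number of pairs with a given commutator.
-/

namespace Pool.Agent.Lib.MP_b6945b_al

open Finset Pointwise MulAction

variable {G : Type} [Group G]

/-- The type of a triple, in terms of the subgroup of `Q` fixing the first element and the chain. -/
def tyD (Q : Subgroup G) (t b : G) (D : Subgroup G) : Set (Q × ℕ) :=
  {z | (z.1 : G) ∈ D ∧ b * t ^ z.2 = z.1 * b * (z.1 : G)⁻¹}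

lemma tyD_mul {Q : Subgroup G} {t b q s : G} {D : Subgroup G}
    (hq : ∀ x ∈ D, x * q = q * x) (hs : ∀ x ∈ D, x * s = s * x) (hst : s * t = t * s) :
    tyD Q t (q * b * s⁻¹) D = tyD Q t b D := by
  ext ⟨r, i⟩
  simp only [tyD, Set.mem_ofPred_eq]
  refine and_congr_right (fun hr => ?_)
  have h1 : s⁻¹ * t ^ i = t ^ i * s⁻¹ := ((show Commute s t from hst).inv_left.pow_right i).eq
  have h2 : s⁻¹ * (r : G)⁻¹ = (r : G)⁻¹ * s⁻¹ :=
    ((show Commute (r : G) s from hs r hr).inv_inv).eq.symm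
  have e1 : q * b * s⁻¹ * t ^ i = q * (b * t ^ i) * s⁻¹ := by
    rw [mul_assoc, h1]; group
  have e2 : (r : G) * (q * b * s⁻¹) * (r : G)⁻¹ = q * (r * b * (r : G)⁻¹) * s⁻¹ := by
    calc (r : G) * (q * b * s⁻¹) * (r : G)⁻¹ = ((r : G) * q) * b * (s⁻¹ * (r : G)⁻¹) := by group
      _ = _ := by rw [hq r hr, h2]; group
  rw [e1, e2, mul_left_inj, mul_right_inj]

lemma tyD_conj {Q : Subgroup G} {t b g : G} {D : Subgroup G}
    (hg : ∀ x ∈ D, x * g = g * x) :
    tyD Q (g * t * g⁻¹) (g * b * g⁻¹) D = tyD Q t b D := by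
  ext ⟨r, i⟩
  simp only [tyD, Set.mem_ofPred_eq]
  refine and_congr_right (fun hr => ?_)
  have h2 : g⁻¹ * (r : G)⁻¹ = (r : G)⁻¹ * g⁻¹ :=
    ((show Commute (r : G) g from hg r hr).inv_inv).eq.symm
  have e1 : g * b * g⁻¹ * (g * t * g⁻¹) ^ i = g * (b * t ^ i) * g⁻¹ := by
    rw [conj_pow]; group
  have e2 : (r : G) * (g * b * g⁻¹) * (r : G)⁻¹ = g * (r * b * (r : G)⁻¹) * g⁻¹ := by
    calc (r : G) * (g * b * g⁻¹) * (r : G)⁻¹ = ((r : G) * g) * b * (g⁻¹ * (r : G)⁻¹) := by group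
      _ = _ := by rw [hg r hr, h2]; group
  rw [e1, e2, mul_left_inj, mul_right_inj]

open Classical in
/-- The signed number of triples of a given type is divisible by `|Q|` times the period. -/
lemma type_dvd [Finite G] {p : ℕ} [Fact p.Prime] (v : G) (Q : Subgroup G) (hQ : IsPGroup p Q)
    (hab : IsAb Q) (hv : ∀ q ∈ Q, q * v = v * q) (m : ℕ) (Δ : Set (Q × ℕ)) (e : ℕ)
    (hΔ : ∀ i, ((1 : Q), i) ∈ Δ ↔ p ^ e ∣ i) :
    (Nat.card Q : ℤ) * (p ^ e : ℕ) ∣ ∑ x : Tri G,
      if W p v x ∧ tyD Q (x.a ^ m) x.b (DD Q x.a x.σ) = Δ then sgn x.σ else 0 := by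
  have hsplit : ∀ x : Tri G,
      (if W p v x ∧ tyD Q (x.a ^ m) x.b (DD Q x.a x.σ) = Δ then sgn x.σ else 0) =
      (if W p v x ∧ (tyD Q (x.a ^ m) x.b (DD Q x.a x.σ) = Δ ∧ NT x.b (DD Q x.a x.σ))
        then sgn x.σ else 0) +
      (if W p v x ∧ (tyD Q (x.a ^ m) x.b (DD Q x.a x.σ) = Δ ∧ ¬ NT x.b (DD Q x.a x.σ))
        then sgn x.σ else 0) := by
    intro x
    by_cases h1 : W p v x <;> by_cases h2 : tyD Q (x.a ^ m) x.b (DD Q x.a x.σ) = Δ <;>
      by_cases h3 : NT x.b (DD Q x.a x.σ) <;> simp [h1, h2, h3]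
  have h0 : ∑ x : Tri G,
      (if W p v x ∧ (tyD Q (x.a ^ m) x.b (DD Q x.a x.σ) = Δ ∧ ¬ NT x.b (DD Q x.a x.σ))
        then sgn x.σ else 0) = 0 := by
    have h1 := vanish_tri (p := p) v Q hQ hab
      (fun x => tyD Q (x.a ^ m) x.b (DD Q x.a x.σ) = Δ ∧ ¬ NT x.b (DD Q x.a x.σ))
      (fun a b D => tyD Q (a ^ m) b D = Δ ∧ ¬ NT b D) (fun _ _ => Iff.rfl) (by
        intro a b D _ h
        have := h.2
        unfold NT at this
        push Not at this
        obtain ⟨T, h1, h2, h3⟩ := this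
        exact ⟨T, h3, h1, h2⟩)
    refine Eq.trans ?_ h1
    refine Finset.sum_congr rfl (fun x _ => ?_)
    split_ifs <;> rfl
  rw [Finset.sum_congr rfl (fun x _ => hsplit x), Finset.sum_add_distrib, h0, add_zero,
    sum_tri_pr]
  refine dvd_sum_of_stabilizer (Γ := Q) _ ?_ _ ?_
  · intro g y
    have hgD : ∀ x ∈ DD Q y.a y.σ, x * g = g * x := fun x hx => hab x (DD_le _ _ _ hx) g g.2
    rw [← Equiv.sum_comp (MulAction.toPerm (((g : G), (g : G)) : G × G) : Equiv.Perm (Bi G))]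
    refine Finset.sum_congr rfl (fun b _ => ?_)
    simp only [MulAction.toPerm_apply, Bi.smul_def, Subgroup.smul_def, Pr.smul_def, sgn_cj]
    refine if_congr ?_ rfl rfl
    rw [DD_smul hab g.2, conj_pow, tyD_conj hgD, NT_mul hgD hgD]
    exact and_congr_left' (W_smul (hv g g.2) ⟨y.a, b.v, y.σ⟩)
  · intro y
    by_cases hy : ∃ b : Bi G, W p v ⟨y.a, b.v, y.σ⟩ ∧
        tyD Q (y.a ^ m) b.v (DD Q y.a y.σ) = Δ
    swap
    · rw [Finset.sum_eq_zero]
      · exact dvd_zero _
      · intro b _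
        refine if_neg (fun h => hy ⟨b, h.1, h.2.1⟩)
    obtain ⟨b₀, hW₀, hty₀⟩ := hy
    set R := DD Q y.a y.σ with hR
    set t := y.a ^ m with ht
    have hchain : IsPChain p y.σ := hW₀.1
    have ha : y.a ∈ stab y.σ := hW₀.2.1
    have hord : orderOf t = p ^ e := by
      have : ∀ i, t ^ i = 1 ↔ p ^ e ∣ i := by
        intro i
        rw [← hΔ i, ← hty₀]
        simp [tyD]
      apply Nat.dvd_antisymm
      · exact orderOf_dvd_of_pow_eq_one ((this _).2 dvd_rfl)
      · exact (this _).1 (pow_orderOf_eq_one t)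
    have hRab : IsAb R := hab.mono (DD_le _ _ _)
    have hRa : ∀ x ∈ R, x * y.a = y.a * x := fun x hx => (mem_DD.1 hx).2.2
    have hRt : ∀ x ∈ R, x * t = t * x := fun x hx =>
      ((show Commute x y.a from hRa x hx).pow_right m).eq
    set S := R ⊔ Subgroup.zpowers t with hS
    have hSab : IsAb S := isAb_sup hRab hRt
    have hRS : R ≤ S := le_sup_left
    have htS : t ∈ S := (le_sup_right : Subgroup.zpowers t ≤ S) (Subgroup.mem_zpowers t)
    have hSp : IsPGroup p S := by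
      refine IsPGroup.to_sup_of_normal_left' (hQ.to_le (DD_le _ _ _)) ?_ ?_
      · exact IsPGroup.of_card (by rw [Nat.card_zpowers, hord])
      · rw [Subgroup.zpowers_le]; exact mem_normalizer_of_comm hRt
    have hSa : ∀ s ∈ S, s * y.a = y.a * s := by
      have : S ≤ Subgroup.centralizer {y.a} := by
        refine sup_le (fun x hx => Subgroup.mem_centralizer_singleton_iff.2 (hRa x hx)) ?_
        rw [Subgroup.zpowers_le, Subgroup.mem_centralizer_singleton_iff]
        exact ((Commute.refl y.a).pow_left m).eq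
      exact fun s hs => Subgroup.mem_centralizer_singleton_iff.1 (this hs)
    have hSσ : S ≤ stab y.σ := by
      refine sup_le (fun x hx => (mem_DD.1 hx).1) ?_
      rw [Subgroup.zpowers_le]; exact Subgroup.pow_mem _ ha m
    have hcard : Nat.card (stabilizer Q y) = Nat.card R := by
      refine Nat.card_congr (Equiv.ofBijective (fun z => ⟨z.1.1, ?_⟩) ⟨?_, ?_⟩)
      · have hz : (z.1 : G) • y = y := z.2
        rw [Pr.smul_def] at hz
        have h1 : (z.1 : G) * y.a * (z.1 : G)⁻¹ = y.a := congrArg Pr.a hz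
        have h2 : cj (z.1 : G) y.σ = y.σ := congrArg Pr.σ hz
        exact mem_DD.2 ⟨(cj_eq_iff hchain.1).1 h2, z.1.2, mul_inv_eq_iff_eq_mul.1 h1⟩
      · intro z z' e
        have e' := congrArg Subtype.val e
        exact Subtype.ext (Subtype.ext e')
      · rintro ⟨q, hq⟩
        have hq' := mem_DD.1 hq
        refine ⟨⟨⟨q, hq'.2.1⟩, ?_⟩, rfl⟩
        change q • y = y
        rw [Pr.smul_def]
        ext1
        · exact mul_inv_eq_iff_eq_mul.2 hq'.2.2
        · exact cj_eq_of_mem_stab hq'.1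
    rw [hcard]
    refine dvd_sum_of_orbit (Γ := R.prod S) _ ?_ _ ?_
    · rintro ⟨⟨q, s⟩, hq, hs⟩ b
      have hq' : q ∈ R := hq
      have hs' : s ∈ S := hs
      simp only [Subgroup.smul_def, Bi.smul_def]
      refine if_congr ?_ rfl rfl
      have hqR : ∀ x ∈ R, x * q = q * x := fun x hx => hRab x hx q hq'
      have hsR : ∀ x ∈ R, x * s = s * x := fun x hx => hSab x (hRS hx) s hs'
      rw [← hR, ← ht, tyD_mul hqR hsR (hSab s hs' t htS), NT_mul hqR hsR]
      refine and_congr_left' ?_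
      simp only [W]
      refine and_congr_right (fun _ => and_congr_right (fun _ => and_congr ?_ ?_))
      · rw [Subgroup.mul_mem_cancel_right _ (Subgroup.inv_mem _ (hSσ hs')),
          Subgroup.mul_mem_cancel_left _ (hSσ (hRS hq'))]
      · have e1 : y.a * (q * b.v * s⁻¹) * y.a⁻¹ * (q * b.v * s⁻¹)⁻¹ =
            q * (y.a * b.v * y.a⁻¹ * b.v⁻¹) * q⁻¹ := by
          have h2 : s⁻¹ * y.a⁻¹ = y.a⁻¹ * s⁻¹ :=
            ((show Commute s y.a from hSa s hs').inv_inv).eq
          calc y.a * (q * b.v * s⁻¹) * y.a⁻¹ * (q * b.v * s⁻¹)⁻¹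
              = (y.a * q) * b.v * (s⁻¹ * y.a⁻¹) * (q * b.v * s⁻¹)⁻¹ := by group
            _ = _ := by rw [← hRa q hq', h2]; group
        have e2 : q * v * q⁻¹ = v := by
          rw [hv q (DD_le _ _ _ hq'), mul_inv_cancel_right]
        rw [e1]
        conv_lhs => rw [← e2]
        rw [mul_left_inj, mul_right_inj]
    · intro b
      split_ifs with h
      · refine Dvd.dvd.mul_right ?_ _
        have := dvd_card_orbit hSp hSab hRS htS hord b h.2.2
        exact_mod_cast this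
      · simp

open scoped IsMulCommutative in
open Classical in
/-- **Divisibility theorem.** -/
theorem nn_dvd [Finite G] {p : ℕ} [Fact p.Prime] (v : G) (Q : Subgroup G) (hQ : IsPGroup p Q)
    (hab : IsAb Q) (hv : ∀ q ∈ Q, q * v = v * q) (m : ℕ)
    (hm : ∀ g : G, ∃ e, orderOf (g ^ m) = p ^ e) (hvm : v ^ m ∈ Q) :
    (Nat.card Q : ℤ) * orderOf (v ^ m) ∣ nn p v := by
  have : IsMulCommutative Q := ⟨⟨fun x y => Subtype.ext (hab x x.2 y y.2)⟩⟩
  let _ : Fintype (orbitRel.Quotient Q (Tri G)) := Fintype.ofFinite _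
  let f : Tri G → ℤ := fun x => if W p v x ∧ Free Q x then sgn x.σ else 0
  have hfW : ∀ x, f x ≠ 0 → W p v x ∧ Free Q x := by
    intro x hx
    by_contra h
    exact hx (if_neg h)
  have hgood : Good Q f := by
    refine ⟨fun q x => ?_, fun x hx => (hfW x hx).2⟩
    have h1 : W p v (q • x) ↔ W p v x := W_smul (hv q q.2) x
    have h2 : Free Q (q • x) ↔ Free Q x := by
      refine ⟨fun h => ?_, fun h => h.smul q⟩
      have := h.smul q⁻¹
      rwa [inv_smul_smul] at this
    have h3 : sgn (q • x).σ = sgn x.σ := sgn_cj _ _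
    simp only [f, h1, h2, h3]
  have hsum : ∑ x, f x = nn p v := by
    have h0 := vanish_tri (p := p) v Q hQ hab (fun x => ¬ Free Q x)
      (fun _ b D => ∃ q ∈ D, q ≠ 1 ∧ q * b = b * q) (by
        intro x hx
        unfold Free
        push Not
        constructor
        · rintro ⟨q, h1, h2⟩
          have := (smul_eq_iff Q x hx.1 q).1 h1
          exact ⟨q, this.1, fun e => h2 (Subtype.ext e), this.2⟩
        · rintro ⟨q, h1, h2, h3⟩
          exact ⟨⟨q, DD_le _ _ _ h1⟩, (smul_eq_iff Q x hx.1 _).2 ⟨h1, h3⟩,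
            fun e => h2 (congrArg Subtype.val e)⟩) (by
        rintro a b D _ ⟨q, h1, h2, h3⟩
        refine ⟨Subgroup.zpowers q, ?_, Subgroup.zpowers_le.2 h1, mem_normalizer_of_comm ?_⟩
        · rwa [Ne, Subgroup.zpowers_eq_bot]
        · rintro _ ⟨k, rfl⟩
          exact ((show Commute q b from h3).zpow_left k).eq)
    unfold nn
    refine Eq.trans (add_zero _).symm ?_
    conv_lhs => rw [← h0]
    rw [← Finset.sum_add_distrib]
    refine Finset.sum_congr rfl (fun x _ => ?_)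
    by_cases h1 : W p v x <;> by_cases h2 : Free Q x <;> simp [f, h1, h2]
  have hc1 : Comm Q (al1 : Equiv.Perm (Tri G)) := fun q x => al1_smul (q : G) x
  have hc2 : Comm Q (al2 : Equiv.Perm (Tri G)) := fun q x => al2_smul (q : G) x
  have hfree : ∀ {α : Equiv.Perm (Tri G)}, Comm Q α → ∀ x, Free Q (α x) ↔ Free Q x := by
    intro α hα x
    refine ⟨fun h q hq => h q ?_, hα.free⟩
    rw [← hα, hq]
  have hf1 : ∀ x, f (al1 x) = f x := by
    intro x; simp only [f, W_al1, hfree hc1]; rfl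
  have hf2 : ∀ x, f (al2 x) = f x := by
    intro x; simp only [f, W_al2, hfree hc2]; rfl
  have hfmul : ∀ {α β : Equiv.Perm (Tri G)}, (∀ x, f (α x) = f x) → (∀ x, f (β x) = f x) →
      ∀ x, f ((α * β) x) = f x := by
    intro α β h1 h2 x; rw [Equiv.Perm.mul_apply, h1, h2]
  have hfpow : ∀ {α : Equiv.Perm (Tri G)}, (∀ x, f (α x) = f x) → ∀ n,
      ∀ x, f ((α ^ n) x) = f x := by
    intro α h n
    induction n with
    | zero => intro x; simp
    | succ n ih => rw [pow_succ]; exact hfmul ih h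
  have hV12 : V Q f al2 = V Q f al1 := by
    have := congrArg (V Q f) (braid (G := G))
    rw [V_mul hgood (hc1.mul hc2) hc1 hf1, V_mul hgood hc1 hc2 hf2,
      V_mul hgood (hc2.mul hc1) hc2 hf2, V_mul hgood hc2 hc1 hf1, mul_comm (V Q f al2)] at this
    exact (mul_left_cancel this).symm
  have hVx : V Q f (al1 * al2 * al1) = V Q f al1 ^ 3 := by
    rw [V_mul hgood (hc1.mul hc2) hc1 hf1, V_mul hgood hc1 hc2 hf2, hV12, pow_three']
  have hcx : Comm Q (al1 * al2 * al1 : Equiv.Perm (Tri G)) := (hc1.mul hc2).mul hc1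
  have hfx : ∀ x, f ((al1 * al2 * al1 : Equiv.Perm (Tri G)) x) = f x := hfmul (hfmul hf1 hf2) hf1
  have hVτ : V Q f (al1 ^ m) = 1 := by
    refine V_eq_one hgood (hc1.pow m) (hfpow hf1 m) ?_
    intro x₀ hx₀
    obtain ⟨hW₀, hfree₀⟩ := hfW x₀ hx₀
    obtain ⟨e, he⟩ := hm x₀.a
    have hty : ∀ x : Tri G, IsPChain p x.σ →
        ty Q (al1 ^ m) x = tyD Q (x.a ^ m) x.b (DD Q x.a x.σ) := by
      intro x hx
      ext ⟨q, i⟩
      exact tau_eq_iff Q m i x hx q
    refine ⟨p ^ e, pow_pos (Fact.out : p.Prime).pos e, ?_, ?_⟩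
    · rw [← pow_mul, al1_pow, pow_mul, ← he, pow_orderOf_eq_one, mul_one]
    · have := type_dvd v Q hQ hab hv m (ty Q (al1 ^ m) x₀) e (by
        intro i
        rw [hty x₀ hW₀.1, ← he, orderOf_dvd_iff_pow_eq_one]
        simp [tyD])
      rw [Finset.sum_filter]
      refine dvd_trans this (dvd_of_eq (Finset.sum_congr rfl (fun x _ => ?_)))
      by_cases h1 : W p v x
      · rw [← hty x h1.1]
        by_cases h2 : ty Q (al1 ^ m) x = ty Q (al1 ^ m) x₀
        · have h3 : Free Q x := by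
            intro q hq
            apply hfree₀ q
            have : (q, 0) ∈ ty Q (al1 ^ m) x := by simp [ty, hq]
            rw [h2] at this
            simpa [ty, eq_comm] using this
          simp [f, h1, h2, h3]
        · simp [h2]
      · simp [f, h1]
  have hu := V_of_eq_smul hgood (u := (⟨v ^ m, hvm⟩ : Q)⁻¹)
    (α := ((al1 * al2 * al1 : Equiv.Perm (Tri G)) ^ 4) ^ m)
    (fun x hx => braid_pow m x (hfW x hx).1)
  rw [V_pow hgood (hcx.pow 4) (hfpow hfx 4), V_pow hgood hcx hfx, hVx, ← pow_mul, ← pow_mul,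
    mul_comm, pow_mul, mul_comm 4 m, pow_mul, ← V_pow hgood hc1 hf1, hVτ, one_pow, one_pow] at hu
  rw [← hsum, ← card_mul_sum_out hgood]
  refine mul_dvd_mul_left _ ?_
  have h1 := orderOf_dvd_iff_zpow_eq_one.2 hu.symm
  rwa [orderOf_inv, ← Subgroup.orderOf_coe] at h1

end Pool.Agent.Lib.MP_b6945b_al
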