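import Pool.Agent.Lib.MP_b6945b_al.Local
import Pool.Agent.Lib.MP_b6945b_al.Braid

set_option autoImplicit false

/-!
The alternating sum over chains, modulo `p`, for groups with abelian Sylow `p`-subgroups.
-/

namespace Pool.Agent.Lib.MP_b6945b_al

open Finset MulAction

variable {G : Type} [Group G]

/-- Chains, acted on by conjugation. -/
@[ext] structure Ch (G : Type) [Group G] where
  /-- the chain -/
  σ : Finset (Subgroup G)

instance : MulAction G (Ch G) where
  smul g x := ⟨cj g x.σ⟩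
  one_smul x := by
    change Ch.mk _ = _
    ext1; exact cj_one _
  mul_smul g h x := by
    change Ch.mk _ = Ch.mk (cj g (cj h x.σ))
    ext1; exact cj_mul _ _ _

/-- The underlying chain. -/
def Ch.equiv : Ch G ≃ Finset (Subgroup G) where
  toFun x := x.σ
  invFun y := ⟨y⟩
  left_inv _ := rfl
  right_inv _ := rfl

open Classical in
lemma chain_sum_mem [Finite G] [Fintype (Finset (Subgroup G))] {M : Type} [AddCommGroup M] {p : ℕ}
    (J : AddSubgroup M) (ψ : Finset (Subgroup G) → M) (hψ : ∀ g σ, ψ (cj g σ) = ψ σ)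
    (h : ∀ σ, IsPChain p σ → ∀ k : ℕ, k * Nat.card (stab σ) = Nat.card G → k • ψ σ ∈ J) :
    ∑ σ, (if IsPChain p σ then ψ σ else 0) ∈ J := by
  let _ : Fintype (Ch G) := Fintype.ofEquiv _ Ch.equiv.symm
  rw [← Equiv.sum_comp Ch.equiv]
  refine sum_mem_of_orbit (Γ := G) _ ?_ J ?_
  · intro g x
    change (if IsPChain p (cj g x.σ) then ψ (cj g x.σ) else 0) = if IsPChain p x.σ then ψ x.σ else 0
    simp only [isPChain_cj, hψ]
  · intro x
    change _ • (if IsPChain p x.σ then ψ x.σ else 0) ∈ J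
    split_ifs with hx
    · refine h _ hx _ ?_
      have : stab x.σ = stabilizer G x := by
        ext g
        rw [mem_stabilizer_iff, ← cj_eq_iff hx.1]
        exact ⟨fun e => Ch.ext e, fun e => congrArg Ch.σ e⟩
      rw [this, card_orbit_mul_card_stabilizer]
    · rw [smul_zero]; exact J.zero_mem

open Classical in
/-- Sum of a function over the commutators of pairs in a subgroup. -/
noncomputable def cntW [Fintype G] (H : Subgroup G) (z : G → ℂ) : ℂ :=
  ∑ a, ∑ b, if a ∈ H ∧ b ∈ H then z (a * b * a⁻¹ * b⁻¹) else 0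

lemma cntW_eq [Fintype G] (H : Subgroup G) [Fintype H] (z : G → ℂ) :
    cntW H z = ∑ a : H, ∑ b : H, z ((a * b * a⁻¹ * b⁻¹ : H) : G) := by
  classical
  unfold cntW
  have h1 : ∀ f : G → ℂ, ∑ a, (if a ∈ H then f a else 0) = ∑ a : H, f a := by
    intro f
    rw [← Finset.sum_filter]
    exact Finset.sum_subtype _ (by simp) f
  simp only [Subgroup.coe_mul, Subgroup.coe_inv]
  rw [← h1 (fun a => ∑ b : H, z (a * b * a⁻¹ * (b : G)⁻¹))]
  · refine Finset.sum_congr rfl (fun a _ => ?_)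
    split_ifs with ha
    · rw [← h1 (fun b => z (a * b * a⁻¹ * b⁻¹))]
      simp only [ha, true_and]
    · simp only [ha, false_and, if_false, Finset.sum_const_zero]

lemma cntW_top [Fintype G] (z : G → ℂ) :
    cntW ⊤ z = ∑ a : G, ∑ b : G, z (a * b * a⁻¹ * b⁻¹) := by
  simp [cntW]

lemma cntW_cj [Fintype G] (z : G → ℂ) (hz : ∀ g x, z (g * x * g⁻¹) = z x) (g : G)
    (σ : Finset (Subgroup G)) : cntW (stab (cj g σ)) z = cntW (stab σ) z := by
  classical
  unfold cntW
  rw [← Equiv.sum_comp (MulAut.conj g).toEquiv]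
  refine Finset.sum_congr rfl (fun a _ => ?_)
  rw [← Equiv.sum_comp (MulAut.conj g).toEquiv]
  refine Finset.sum_congr rfl (fun b _ => ?_)
  change (if g * a * g⁻¹ ∈ _ ∧ g * b * g⁻¹ ∈ _ then
    z (g * a * g⁻¹ * (g * b * g⁻¹) * (g * a * g⁻¹)⁻¹ * (g * b * g⁻¹)⁻¹) else 0) = _
  have : g * a * g⁻¹ * (g * b * g⁻¹) * (g * a * g⁻¹)⁻¹ * (g * b * g⁻¹)⁻¹ =
      g * (a * b * a⁻¹ * b⁻¹) * g⁻¹ := by group
  simp only [conj_mem_stab_cj_iff, this, hz]

open Classical in
lemma sum_nn [Fintype G] [Fintype (Finset (Subgroup G))] (p : ℕ) (z : G → ℂ) :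
    ∑ v, z v * nn p v = ∑ σ, if IsPChain p σ then (sgn σ : ℂ) * cntW (stab σ) z else 0 := by
  have h1 : ∀ v, z v * nn p v = ∑ a, ∑ b, ∑ σ : Finset (Subgroup G),
      if W p v ⟨a, b, σ⟩ then z v * sgn σ else 0 := by
    intro v
    unfold nn
    rw [sum_tri]
    push_cast
    simp only [Finset.mul_sum, mul_ite, mul_zero]
  simp only [h1]
  rw [Finset.sum_comm]
  have h2 : ∀ a : G, ∑ v, ∑ b, ∑ σ : Finset (Subgroup G),
      (if W p v ⟨a, b, σ⟩ then z v * sgn σ else 0) = ∑ σ : Finset (Subgroup G), ∑ b,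
      if IsPChain p σ then (sgn σ : ℂ) *
        (if a ∈ stab σ ∧ b ∈ stab σ then z (a * b * a⁻¹ * b⁻¹) else 0) else 0 := by
    intro a
    rw [Finset.sum_comm]
    conv_rhs => rw [Finset.sum_comm]
    refine Finset.sum_congr rfl (fun b _ => ?_)
    rw [Finset.sum_comm]
    refine Finset.sum_congr rfl (fun σ _ => ?_)
    rw [Finset.sum_eq_single (a * b * a⁻¹ * b⁻¹)]
    · by_cases e1 : IsPChain p σ <;> by_cases e2 : a ∈ stab σ <;> by_cases e3 : b ∈ stab σ <;>
        simp [W, e1, e2, e3, mul_comm]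
    · intro v _ hv
      exact if_neg (fun h => hv h.2.2.2.symm)
    · simp
  simp only [h2]
  rw [Finset.sum_comm]
  refine Finset.sum_congr rfl (fun σ _ => ?_)
  unfold cntW
  split_ifs
  · simp only [Finset.mul_sum]
  · simp

/-- A nonempty chain has a nontrivial normal `p`-subgroup in its stabiliser. -/
lemma exists_normal_of_nonempty [Finite G] {p : ℕ} {σ : Finset (Subgroup G)} (hσ : IsPChain p σ)
    (hne : σ.Nonempty) : ∃ R : Subgroup (stab σ), R.Normal ∧ IsPGroup p R ∧ R ≠ ⊥ := by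
  obtain ⟨P, hP⟩ := σ.exists_minimal hne
  have hPσ : P ∈ σ := hP.prop
  have hle : P ≤ stab σ := by
    intro x hx
    rw [mem_stab]
    intro P' hP'
    refine Subgroup.le_normalizer ?_
    rcases hσ.1.total (Finset.mem_coe.2 hPσ) (Finset.mem_coe.2 hP') with h | h
    · exact h hx
    · exact hP.le_of_le hP' h hx
  refine ⟨P.subgroupOf (stab σ), ?_, (hσ.2 P hPσ).1.comap_subtype, ?_⟩
  · exact (Subgroup.normal_subgroupOf_iff_le_normalizer hle).2
      (fun g hg => mem_stab.1 hg P hPσ)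
  · rw [Ne, Subgroup.subgroupOf_eq_bot]
    intro hd
    exact (hσ.2 P hPσ).2 (hd.eq_bot_of_le hle)

/-- Multiples of `n` by nonunits. -/
def JJ (V : ValuationSubring ℂ) (n : ℂ) : AddSubgroup ℂ where
  carrier := {x | ∃ δ ∈ V.nonunits, x = n * δ}
  zero_mem' := ⟨0, V.nonunits.zero_mem, by simp⟩
  add_mem' := by
    rintro _ _ ⟨α, h1, rfl⟩ ⟨β, h2, rfl⟩
    exact ⟨α + β, V.nonunits.add_mem h1 h2, by ring⟩
  neg_mem' := by
    rintro _ ⟨α, h1, rfl⟩
    exact ⟨-α, V.nonunits.neg_mem h1, by ring⟩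

lemma exists_pow_pelt [Finite G] (p : ℕ) [Fact p.Prime] (g : G) :
    ∃ e, orderOf (g ^ (Nat.card G / p ^ (Nat.card G).factorization p)) = p ^ e := by
  have h1 : (g ^ (Nat.card G / p ^ (Nat.card G).factorization p)) ^
      (p ^ (Nat.card G).factorization p) = 1 := by
    rw [← pow_mul, mul_comm, Nat.ordProj_mul_ordCompl_eq_self, pow_card_eq_one']
  obtain ⟨e, _, he⟩ := (Nat.dvd_prime_pow (Fact.out : p.Prime)).1 (orderOf_dvd_of_pow_eq_one h1)
  exact ⟨e, he⟩

/-- For abelian Sylow subgroups the weighted count at a nontrivial `p`-element is divisible by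
`p` times the `p`-part of the group order. -/
lemma nn_dvd_of_abelian [Finite G] {p : ℕ} [Fact p.Prime]
    (hab : ∀ P : Sylow p G, IsAb (P : Subgroup G)) {v : G} (hv : IsPElt p v) (hv1 : v ≠ 1) :
    ((p ^ (Nat.card G).factorization p * p : ℕ) : ℤ) ∣ nn p v := by
  have hp : p.Prime := Fact.out
  obtain ⟨P, hP⟩ := hv.isPGroup.exists_le_sylow
  have hvP : v ∈ (P : Subgroup G) := hP (Subgroup.mem_zpowers v)
  have h1 := nn_dvd v P P.isPGroup' (hab P) (fun q hq => hab P q hq v hvP) _ (exists_pow_pelt p)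
    (Subgroup.pow_mem _ hvP _)
  rw [P.card_eq_multiplicity] at h1
  refine dvd_trans ?_ h1
  rw [Nat.cast_mul]
  refine mul_dvd_mul_left _ (Int.natCast_dvd_natCast.2 ?_)
  obtain ⟨e, he⟩ := exists_pow_pelt p v
  rw [he]
  refine dvd_pow_self p ?_
  rintro rfl
  rw [pow_zero, orderOf_eq_one_iff] at he
  obtain ⟨k, hk⟩ := hv
  have h2 : orderOf v ∣ 1 := by
    have h3 := (Nat.coprime_ordCompl hp (Nat.card_pos (α := G)).ne').pow_left k
    rw [← h3.gcd_eq_one]
    exact Nat.dvd_gcd (orderOf_dvd_of_pow_eq_one hk) (orderOf_dvd_of_pow_eq_one he)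
  exact hv1 (orderOf_eq_one_iff.1 (Nat.dvd_one.1 h2))

open Classical in
lemma nn_one_eq [Finite G] [Fintype (Finset (Subgroup G))] (p : ℕ) :
    nn p (1 : G) = ∑ σ : Finset (Subgroup G), if IsPChain p σ then sgn σ *
      (Nat.card {x : G × G // x.1 * x.2 = x.2 * x.1 ∧ x.1 ∈ stab σ ∧ x.2 ∈ stab σ} : ℤ) else 0 := by
  let _ : Fintype G := Fintype.ofFinite G
  unfold nn
  rw [sum_tri, ← Fintype.sum_prod_type', Finset.sum_comm]
  refine Finset.sum_congr rfl (fun σ _ => ?_)
  split_ifs with h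
  · rw [Nat.card_eq_fintype_card, Fintype.card_subtype, Finset.card_filter]
    push_cast
    rw [Finset.mul_sum]
    refine Finset.sum_congr rfl (fun x _ => ?_)
    have : W p 1 ⟨x.1, x.2, σ⟩ ↔ x.1 * x.2 = x.2 * x.1 ∧ x.1 ∈ stab σ ∧ x.2 ∈ stab σ := by
      simp only [W, h, true_and, one_mul, mul_inv_eq_iff_eq_mul]
      tauto
    simp only [this, mul_ite, mul_one, mul_zero]
  · exact Finset.sum_eq_zero (fun x _ => if_neg (fun h' => h h'.1))

lemma card_comm_sub (H : Subgroup G) :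
    Nat.card {x : G × G // x.1 * x.2 = x.2 * x.1 ∧ x.1 ∈ H ∧ x.2 ∈ H} =
      Nat.card (ConjClasses H) * Nat.card H := by
  rw [← card_comm_eq_card_conjClasses_mul_card]
  refine Nat.card_congr (Equiv.ofBijective
    (fun x => ⟨(⟨x.1.1, x.2.2.1⟩, ⟨x.1.2, x.2.2.2⟩), Subtype.ext x.2.1⟩) ⟨?_, ?_⟩)
  · intro x y e
    have e' := congrArg Subtype.val e
    exact Subtype.ext (Prod.ext (congrArg (fun z => (z.1 : G)) e')
      (congrArg (fun z => (z.2 : G)) e'))
  · rintro ⟨⟨a, b⟩, h⟩
    exact ⟨⟨(a, b), congrArg Subtype.val h, a.2, b.2⟩, rfl⟩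

lemma card_dvd_nn_one [Finite G] (p : ℕ) : (Nat.card G : ℤ) ∣ nn p (1 : G) := by
  classical
  let _ : Fintype (Finset (Subgroup G)) := Fintype.ofFinite _
  rw [nn_one_eq, ← Int.mem_zmultiples_iff]
  refine chain_sum_mem _ _ ?_ ?_
  · intro g σ
    rw [sgn_cj]
    congr 2
    symm
    refine Nat.card_congr (Equiv.subtypeEquiv
      ((MulAut.conj g).toEquiv.prodCongr (MulAut.conj g).toEquiv) ?_)
    rintro ⟨a, b⟩
    change _ ↔ (g * a * g⁻¹) * (g * b * g⁻¹) = (g * b * g⁻¹) * (g * a * g⁻¹) ∧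
      g * a * g⁻¹ ∈ _ ∧ g * b * g⁻¹ ∈ _
    simp only [conj_mem_stab_cj_iff, conj_mul, mul_left_inj, mul_right_inj]
  · intro σ _ k hk
    rw [card_comm_sub, Int.mem_zmultiples_iff, ← hk, nsmul_eq_mul]
    push_cast
    exact ⟨sgn σ * Nat.card (ConjClasses (stab σ)), by ring⟩

open Classical in
theorem nn_one_congr [Fintype G] {p : ℕ} [Fact p.Prime]
    (hab : ∀ P : Sylow p G, IsAb (P : Subgroup G)) (I : IrrData G) :
    (p * Nat.card G : ℤ) ∣ nn p (1 : G) - Nat.card G *
      (univ.filter (fun i => p ^ (Nat.card G).factorization p ∣ I.d i)).card := by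
  let _ : Fintype (Finset (Subgroup G)) := Fintype.ofFinite _
  obtain ⟨V, hp⟩ := exists_val p
  have hG : Nat.card G ≠ 0 := Nat.card_pos.ne'
  set zz : ℕ := (univ.filter (fun i => p ^ (Nat.card G).factorization p ∣ I.d i)).card with hzz
  let z : G → ℂ := fun v => if IsPElt p v then 1 else 0
  have hz : ∀ g x, z (g * x * g⁻¹) = z x := fun g x => by simp only [z, isPElt_conj]
  have h1 : ∑ σ : Finset (Subgroup G), (if IsPChain p σ then
      ((sgn σ : ℂ) * cntW (stab σ) z - if σ = ∅ then (Nat.card G * zz : ℂ) else 0) else 0) ∈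
      JJ V (Nat.card G) := by
    refine chain_sum_mem _ _ ?_ ?_
    · intro g σ
      have : cj g σ = ∅ ↔ σ = ∅ := by
        rw [← Finset.card_eq_zero, ← Finset.card_eq_zero, card_cj]
      simp only [sgn_cj, cntW_cj z hz, this]
    · intro σ hσ k hk
      rcases σ.eq_empty_or_nonempty with rfl | hne
      · rw [stab_empty, Subgroup.card_top] at hk
        have hk1 : k = 1 := Nat.eq_of_mul_eq_mul_right (Nat.pos_of_ne_zero hG) (by rw [hk, one_mul])
        rw [hk1, one_smul, if_pos rfl, stab_empty, cntW_top, I.comm_sum]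
        refine ⟨∑ i, ((∑ h, z h * I.χ i h⁻¹) / I.d i -
          if p ^ (Nat.card G).factorization p ∣ I.d i then 1 else 0), ?_, ?_⟩
        · refine sum_mem (fun i _ => ?_)
          split_ifs with hi
          · rw [I.omega_pelt_dz i hi, sub_self]; exact V.nonunits.zero_mem
          · rw [sub_zero]; exact I.omega_pelt_ndz hp i hi
        · rw [Finset.sum_sub_distrib, hzz, Finset.card_filter, Nat.card_eq_fintype_card]
          simp only [sgn, Finset.card_empty, pow_zero]
          push_cast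
          ring
      · let _ : Fintype (stab σ) := Fintype.ofFinite _
        obtain ⟨I'⟩ := exists_irrData (stab σ)
        obtain ⟨R, hR1, hR2, hR3⟩ := exists_normal_of_nonempty hσ hne
        rw [if_neg hne.ne_empty, sub_zero, cntW_eq,
          I'.comm_sum (fun h : stab σ => z (h : G))]
        refine ⟨sgn σ * ∑ i, (∑ h : stab σ, z h * I'.χ i h⁻¹) / I'.d i, ?_, ?_⟩
        · rw [mul_comm]
          refine mul_mem_nonunits (sum_mem (fun i _ => ?_)) (intCast_mem V _)
          have := I'.omega_pelt_ndz hp i (I'.not_dz R hR2 hR3 i)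
          have e : ∀ h : stab σ, z h = if IsPElt p h then 1 else 0 := by
            intro h
            have : IsPElt p (h : G) ↔ IsPElt p h := by
              simp only [IsPElt, Subtype.ext_iff, Subgroup.coe_pow, Subgroup.coe_one]
            simp only [z, this]
          simpa only [e] using this
        · rw [← hk, nsmul_eq_mul, Nat.card_eq_fintype_card]
          push_cast
          ring
  have h2 : ∑ σ : Finset (Subgroup G), (if IsPChain p σ then
      ((sgn σ : ℂ) * cntW (stab σ) z - if σ = ∅ then (Nat.card G * zz : ℂ) else 0) else 0) =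
      ∑ v, z v * nn p v - Nat.card G * zz := by
    rw [sum_nn]
    have : (Nat.card G * zz : ℂ) = ∑ σ : Finset (Subgroup G),
        if σ = ∅ then (Nat.card G * zz : ℂ) else 0 := by simp
    conv_rhs => rw [this]
    rw [← Finset.sum_sub_distrib]
    refine Finset.sum_congr rfl (fun σ _ => ?_)
    by_cases e : IsPChain p σ
    · simp only [e, if_true]
    · have : σ ≠ ∅ := by
        rintro rfl
        exact e ⟨by simp, by simp⟩
      simp [e, this]
  have h3 : ∑ v ∈ univ.erase (1 : G), z v * nn p v ∈ JJ V (Nat.card G) := by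
    refine sum_mem (fun v hv => ?_)
    by_cases e : IsPElt p v
    · obtain ⟨t, ht⟩ := nn_dvd_of_abelian hab e (Finset.ne_of_mem_erase hv)
      have h4 := inv_nat_mem hp (Nat.not_dvd_ordCompl (Fact.out : p.Prime) hG)
      refine ⟨p * (t * ((Nat.card G / p ^ (Nat.card G).factorization p : ℕ) : ℂ)⁻¹),
        mul_mem_nonunits hp (V.mul_mem _ _ (intCast_mem V t) h4), ?_⟩
      have h5 : ((Nat.card G / p ^ (Nat.card G).factorization p : ℕ) : ℂ) ≠ 0 := by
        exact_mod_cast (Nat.ordCompl_pos p hG).ne'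
      conv_rhs => rw [← Nat.ordProj_mul_ordCompl_eq_self (Nat.card G) p]
      rw [ht, Nat.cast_mul (α := ℂ), Nat.ordProj_mul_ordCompl_eq_self]
      generalize ((Nat.card G / p ^ (Nat.card G).factorization p : ℕ) : ℂ) = m at h5
      simp only [z, e, if_true]
      push_cast
      field_simp
    · simp only [z, e, if_false, zero_mul]; exact zero_mem _
  rw [h2, ← Finset.add_sum_erase _ _ (Finset.mem_univ (1 : G))] at h1
  have h6 := sub_mem h1 h3
  have hz1 : z 1 = 1 := if_pos ⟨0, by simp⟩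
  obtain ⟨t, ht⟩ := card_dvd_nn_one (G := G) p
  obtain ⟨δ, hδ, hδe⟩ := h6
  rw [hz1, ht] at hδe
  have h7 : ((t - zz : ℤ) : ℂ) = δ := by
    apply mul_left_cancel₀ (show (Nat.card G : ℂ) ≠ 0 by exact_mod_cast hG)
    rw [← hδe]; push_cast; ring
  obtain ⟨s, hs⟩ := int_dvd_of_mem hp (h7 ▸ hδ)
  exact ⟨s, by rw [ht, ← mul_sub, hs]; ring⟩

end Pool.Agent.Lib.MP_b6945b_al
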