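import Mathlib

set_option autoImplicit false

/-!
Blocks of finite groups through central characters modulo a maximal ideal `M` of the ring of
algebraic integers.
-/

namespace Pool.Agent.Lib.MP_b6945b_al

/-- `f` is the character of an irreducible complex representation of `H`. -/
def IsIrrChar {H : Type} [Group H] (f : H → ℂ) : Prop :=
  ∃ n : ℕ, ∃ ρ : H →* Matrix (Fin n) (Fin n) ℂ, 0 < n ∧
    (∀ W : Submodule ℂ (Fin n → ℂ), (∀ g : H, ∀ v ∈ W, (ρ g).mulVec v ∈ W) → W = ⊥ ∨ W = ⊤) ∧
    f = fun g => (ρ g).trace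

/-- The central character of `ψ` at the sum of the elements of `S`. -/
noncomputable def omega {H : Type} [Group H] (ψ : H → ℂ) (S : Set H) : ℂ :=
  (∑ᶠ h ∈ S, ψ h) / ψ 1

/-- The complex number `a` lies in the ideal `M` of the ring of algebraic integers. -/
def InIdeal (M : Ideal (integralClosure ℤ ℂ)) (a : ℂ) : Prop := ∃ m ∈ M, (m : ℂ) = a

/-- The number of irreducible characters of `H` lying in blocks `b` whose induced block `b^G` is
defined and is the block of `χ`. -/
noncomputable def kInd {G : Type} [Group G] (M : Ideal (integralClosure ℤ ℂ)) (χ : G → ℂ)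
    (H : Subgroup G) : ℕ :=
  Nat.card {ψ : H → ℂ // IsIrrChar ψ ∧
    ∀ x : G, InIdeal M (omega ψ {h : H | IsConj x (h : G)} - omega χ {g | IsConj x g})}

/-- `D` is a defect group of the block of `χ` (Brauer's min-max characterisation). -/
def IsDefectGroup {G : Type} [Group G] (p : ℕ) (M : Ideal (integralClosure ℤ ℂ)) (χ : G → ℂ)
    (D : Subgroup G) : Prop :=
  (∃ x : G, ¬ InIdeal M (omega χ {g | IsConj x g}) ∧
    ∃ P : Sylow p (Subgroup.centralizer {x}),
      D = (P : Subgroup (Subgroup.centralizer {x})).map (Subgroup.centralizer {x}).subtype) ∧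
  ∀ y : G, ¬ InIdeal M (omega χ {g | IsConj y g}) →
    Nat.card D ∣ Nat.card (Subgroup.centralizer {y})

end Pool.Agent.Lib.MP_b6945b_al
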