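import Pool.Agent.Lib.MP_b6945b_al.BlockSum
import Pool.Agent.Lib.MP_b6945b_al.BlockDefs

set_option autoImplicit false

/-!
Translation of the blockwise congruence.
-/

namespace Pool.Agent.Lib.MP_b6945b_al

open Finset

lemma exists_val_of_maximal (M : Ideal (integralClosure ℤ ℂ)) (hM : M.IsMaximal) :
    ∃ V : ValuationSubring ℂ, ∀ a : ℂ, IsIntegral ℤ a → (InIdeal M a ↔ a ∈ V.nonunits) := by
  obtain ⟨V, h1, h2⟩ := Ideal.image_subset_nonunits_valuationSubring
    (A := (integralClosure ℤ ℂ).toSubring) M hM.ne_top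
  refine ⟨V, fun a ha => ⟨?_, fun h => ?_⟩⟩
  · rintro ⟨m, hm, rfl⟩
    exact h2 ⟨m, hm, rfl⟩
  · by_contra hn
    have h3 : (⟨a, ha⟩ : integralClosure ℤ ℂ) ∉ M := fun e => hn ⟨_, e, rfl⟩
    obtain ⟨y, i, hi, e⟩ := hM.exists_inv h3
    have h4 : (y : ℂ) * a + i = 1 := congrArg Subtype.val e
    apply one_not_mem_nonunits V
    rw [← h4, mul_comm]
    exact add_mem (mul_mem_nonunits h (h1 y.2)) (h2 ⟨i, hi, rfl⟩)

lemma omega_eq {H : Type} [Group H] [Fintype H] (I : IrrData H) (i : Fin I.n) (S : H → Prop) :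
    omega (I.χ i) {h | S h} = I.om i (ind S) := by
  classical
  unfold omega IrrData.om
  rw [I.χ_one, finsum_eq_sum_of_fintype]
  congr 1
  refine Finset.sum_congr rfl (fun h _ => ?_)
  rw [finsum_eq_if]
  split_ifs with e
  · rw [ind_pos (S := S) e, one_mul]
  · rw [ind_neg (S := S) e, zero_mul]

lemma IsIrrChar.comp {H K : Type} [Group H] [Group K] (φ : H ≃* K) {f : K → ℂ}
    (h : IsIrrChar f) : IsIrrChar (f ∘ φ) := by
  obtain ⟨n, ρ, hn, h1, rfl⟩ := h
  refine ⟨n, ρ.comp φ.toMonoidHom, hn, fun W hW => h1 W (fun g v hv => ?_), rfl⟩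
  simpa using hW (φ.symm g) v hv

lemma omega_comp {H K : Type} [Group H] [Group K] (φ : H ≃* K) (f : K → ℂ) (S : Set K) :
    omega (f ∘ φ) (φ ⁻¹' S) = omega f S := by
  unfold omega
  rw [Function.comp_apply, map_one]
  congr 1
  exact finsum_comp_equiv φ.toEquiv (f := fun k => ∑ᶠ (_ : k ∈ S), f k)

lemma kInd_le {G : Type} [Group G] (M : Ideal (integralClosure ℤ ℂ)) (χ : G → ℂ)
    {H K : Subgroup G} (φ : H ≃* K) (hφ : ∀ h : H, IsConj (h : G) (φ h : G)) :
    kInd M χ H = kInd M χ K := by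
  have aux : ∀ {H K : Subgroup G} (φ : H ≃* K) (_ : ∀ h : H, IsConj (h : G) (φ h : G))
      (ψ : K → ℂ), (IsIrrChar ψ ∧ ∀ x : G,
        InIdeal M (omega ψ {h : K | IsConj x (h : G)} - omega χ {g | IsConj x g})) →
      (IsIrrChar (ψ ∘ φ) ∧ ∀ x : G,
        InIdeal M (omega (ψ ∘ φ) {h : H | IsConj x (h : G)} - omega χ {g | IsConj x g})) := by
    intro H K φ hφ ψ h
    refine ⟨h.1.comp φ, fun x => ?_⟩
    have : {h : H | IsConj x (h : G)} = φ ⁻¹' {h : K | IsConj x (h : G)} := by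
      ext h
      exact ⟨fun e => e.trans (hφ h), fun e => IsConj.trans e (hφ h).symm⟩
    rw [this, omega_comp]
    exact h.2 x
  have hφ' : ∀ k : K, IsConj (k : G) (φ.symm k : G) := fun k => by
    simpa using (hφ (φ.symm k)).symm
  exact Nat.card_congr
    { toFun := fun ψ => ⟨ψ.1 ∘ φ.symm, aux φ.symm hφ' _ ψ.2⟩
      invFun := fun ψ => ⟨ψ.1 ∘ φ, aux φ hφ _ ψ.2⟩
      left_inv := fun ψ => Subtype.ext (by ext h; simp)
      right_inv := fun ψ => Subtype.ext (by ext h; simp) }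

lemma kInd_cj {G : Type} [Group G] (M : Ideal (integralClosure ℤ ℂ)) (χ : G → ℂ) (g : G)
    (σ : Finset (Subgroup G)) : kInd M χ (stab (cj g σ)) = kInd M χ (stab σ) := by
  symm
  refine kInd_le M χ
    { Equiv.subtypeEquiv (MulAut.conj g).toEquiv (fun a => conj_mem_stab_cj_iff.symm) with
      map_mul' := fun a b => Subtype.ext (map_mul (MulAut.conj g) (a : G) b) } ?_
  intro h
  exact isConj_iff.2 ⟨g, rfl⟩

open scoped IsMulCommutative in
lemma isAb_of_sylow {G : Type} [Group G] [Finite G] {p : ℕ} [Fact p.Prime] (C : Subgroup G)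
    (P : Sylow p C) (hP : IsAb ((P : Subgroup C).map C.subtype)) (S : Subgroup G)
    (hS : IsPGroup p S) (hle : S ≤ C) : IsAb S := by
  obtain ⟨Q, hQ⟩ := (hS.comap_subtype (K := C)).exists_le_sylow
  intro a ha b hb
  let e := Sylow.equiv Q P
  let a' : Q := ⟨⟨a, hle ha⟩, hQ ha⟩
  let b' : Q := ⟨⟨b, hle hb⟩, hQ hb⟩
  have h1 : e (a' * b') = e (b' * a') := by
    rw [map_mul, map_mul]
    exact Subtype.ext (Subtype.ext (hP _ ⟨_, (e a').2, rfl⟩ _ ⟨_, (e b').2, rfl⟩))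
  exact congrArg (fun z : Q => ((z : C) : G)) (e.injective h1)

/-- A block of defect zero has a class of defect zero not killed by its central character. -/
lemma exists_class_of_dz {G : Type} [Group G] [Fintype G] (I : IrrData G) {V : ValuationSubring ℂ}
    {p : ℕ} [Fact p.Prime] (hp : (p : ℂ) ∈ V.nonunits) (i : Fin I.n)
    (hi : p ^ (Nat.card G).factorization p ∣ I.d i) :
    ∃ y, I.om i (ind (IsConj y)) ∉ V.nonunits ∧ ¬ p ∣ Nat.card (Subgroup.centralizer {y}) := by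
  have hG : Nat.card G ≠ 0 := Nat.card_pos.ne'
  have hG' : (Nat.card G : ℂ) ≠ 0 := by exact_mod_cast hG
  have hu : (I.d i : ℂ) / Nat.card G ∈ V := by
    obtain ⟨d', hd'⟩ := hi
    have h2 := inv_nat_mem hp (Nat.not_dvd_ordCompl (Fact.out : p.Prime) hG)
    have h3 : (I.d i : ℂ) / Nat.card G =
        d' * ((Nat.card G / p ^ (Nat.card G).factorization p : ℕ) : ℂ)⁻¹ := by
      conv_lhs => rw [hd', ← Nat.ordProj_mul_ordCompl_eq_self (Nat.card G) p]
      rw [Nat.cast_mul, Nat.cast_mul, Nat.ordProj_mul_ordCompl_eq_self, mul_div_mul_left _ _ (by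
        exact_mod_cast (pow_pos (Fact.out : p.Prime).pos _).ne'), div_eq_mul_inv]
    rw [h3]
    exact V.mul_mem _ _ (natCast_mem V d') h2
  by_contra hno
  push Not at hno
  let _ : Fintype (ConjClasses G) := Fintype.ofFinite _
  have hcf : IsCF (fun g => I.χ i g⁻¹) := fun h g => by
    have : (h * g * h⁻¹)⁻¹ = h * g⁻¹ * h⁻¹ := by group
    simp only [this, I.χ_conj]
  have h1 : I.om i (fun g => I.χ i g⁻¹) ∈ V.nonunits := by
    rw [I.om_decomp i hcf]
    refine sum_mem (fun K _ => ?_)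
    by_cases e : I.om i (ind (IsConj K.out)) ∈ V.nonunits
    · rw [mul_comm]
      exact mul_mem_nonunits e (mem_of_isIntegral V (I.χ_isIntegral _ _))
    refine mul_mem_nonunits ?_ (mem_of_isIntegral V (I.om_ind_int i _ (isConj_conj_iff _)))
    obtain ⟨c, hc⟩ := hno _ e
    have h2 := sum_ind_conj (⟨K.out⟩ : Cj G) _ hcf
    have h3 := orbit_Cj (⟨K.out⟩ : Cj G)
    have h4 : I.om i (ind (fun g => IsConj K.out g⁻¹)) ∈ V := by
      refine mem_of_isIntegral V (I.om_ind_int i _ (fun h g => ?_))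
      have : (h * g * h⁻¹)⁻¹ = h * g⁻¹ * h⁻¹ := by group
      rw [this, isConj_conj_iff]
    have h5 : I.om i (ind (fun g => IsConj K.out g⁻¹)) =
        Nat.card (MulAction.orbit G (⟨K.out⟩ : Cj G)) * I.χ i K.out⁻¹ / I.d i := by
      rw [← h2, IrrData.om, ← Equiv.sum_comp (Equiv.inv G)]
      congr 1
      refine Finset.sum_congr rfl (fun g _ => ?_)
      change ind (IsConj K.out) g⁻¹⁻¹ * I.χ i g⁻¹ = _
      rw [inv_inv]
    have h6 : I.χ i K.out⁻¹ =
        p * (c * (I.om i (ind (fun g => IsConj K.out g⁻¹)) * (I.d i / Nat.card G))) := by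
      have hd := I.d_ne i
      change _ * Nat.card (Subgroup.centralizer {K.out}) = _ at h3
      rw [hc] at h3
      rw [← h3] at hG'
      rw [h5, ← h3]
      push_cast at hG' ⊢
      have h7 := left_ne_zero_of_mul hG'
      have h8 := right_ne_zero_of_mul hG'
      have h9 := left_ne_zero_of_mul h8
      have h10 := right_ne_zero_of_mul h8
      field_simp
    rw [h6]
    exact mul_mem_nonunits hp (V.mul_mem _ _ (natCast_mem V c) (V.mul_mem _ _ h4 hu))
  have h2 := mul_mem_nonunits h1 hu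
  rw [IrrData.om, I.orth, if_pos rfl, ← Nat.card_eq_fintype_card] at h2
  have hd := I.d_ne i
  rw [show (Nat.card G : ℂ) / I.d i * (I.d i / Nat.card G) = 1 by field_simp] at h2
  exact one_not_mem_nonunits V h2

theorem final_block (p : ℕ) (hp : p.Prime) (G : Type) [Group G] [Finite G]
    (M : Ideal (integralClosure ℤ ℂ)) (hM : M.IsMaximal) (hpM : (p : integralClosure ℤ ℂ) ∈ M)
    (χ : G → ℂ) (hχ : IsIrrChar χ) (D : Subgroup G) (hD : IsDefectGroup p M χ D) (hD0 : D ≠ ⊥)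
    (hab : ∀ x ∈ D, ∀ y ∈ D, x * y = y * x) :
    (p * Nat.card G : ℤ) ∣ ∑ᶠ (σ : Finset (Subgroup G))
      (_ : IsChain (· ≤ ·) (σ : Set (Subgroup G)) ∧ ∀ P ∈ σ, IsPGroup p P ∧ P ≠ ⊥),
      (-1 : ℤ) ^ σ.card *
        ((Nat.card (⨅ P ∈ σ, Subgroup.normalizer (P : Set G) : Subgroup G) : ℤ) *
          kInd M χ (⨅ P ∈ σ, Subgroup.normalizer (P : Set G))) := by
  classical
  have : Fact p.Prime := ⟨hp⟩
  let _ : Fintype G := Fintype.ofFinite G
  let _ : Fintype (Finset (Subgroup G)) := Fintype.ofFinite _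
  obtain ⟨I⟩ := exists_irrData G
  obtain ⟨V, hV⟩ := exists_val_of_maximal M hM
  have hpV : (p : ℂ) ∈ V.nonunits := (hV _ (isIntegral_natCast p)).1 ⟨_, hpM, by simp⟩
  obtain ⟨n, ρ, hn, hirr, rfl⟩ := hχ
  obtain ⟨i₀, -, hi₀⟩ := I.exists_eq ρ hn hirr
  rw [hi₀] at hD ⊢
  have hint : ∀ x, IsIntegral ℤ (I.om i₀ (ind (IsConj x))) := fun x =>
    I.om_ind_int i₀ _ (isConj_conj_iff x)
  obtain ⟨⟨x, hx, P, rfl⟩, hmin⟩ := hD
  rw [omega_eq, hV _ (hint x)] at hx
  have hi : ¬ p ^ (Nat.card G).factorization p ∣ I.d i₀ := by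
    intro hi
    obtain ⟨y, h1, h2⟩ := exists_class_of_dz I hpV i₀ hi
    refine h2 (dvd_trans ?_ (hmin y (by rwa [omega_eq, hV _ (hint y)])))
    exact ((P.isPGroup'.map _).card_eq_or_dvd).resolve_left
      (fun e => hD0 (Subgroup.eq_bot_of_card_eq _ e))
  have := I.block_congr hpV i₀ hi x hx (fun S hS hSx => isAb_of_sylow _ P hab S hS
    (fun s hs => Subgroup.mem_centralizer_singleton_iff.2 (hSx s hs))) (kInd M (I.χ i₀))
    (kInd_cj M _) (by
      intro H _ I'
      have h1 := I'.card_irr (fun _ ψ => ∀ x : G,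
        InIdeal M (omega ψ {h : H | IsConj x (h : G)} - omega (I.χ i₀) {g | IsConj x g}))
      unfold kInd
      rw [Nat.card_congr (Equiv.subtypeEquivRight (fun ψ => ?_)), h1]
      · congr 1
        ext i
        simp only [Finset.mem_filter, Finset.mem_univ, true_and]
        refine forall_congr' (fun x => ?_)
        rw [omega_eq, omega_eq, hV _ ((I'.om_ind_int i _ (fun h g => isConj_conj_iff x h g)).sub
          (hint x))]
        rfl
      · exact ⟨fun ⟨⟨n, ρ, h1, h2, h3⟩, h4⟩ => ⟨n, ρ, h1, h4, h2, h3⟩,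
          fun ⟨n, ρ, h1, h4, h2, h3⟩ => ⟨⟨n, ρ, h1, h2, h3⟩, h4⟩⟩)
  rw [finsum_eq_sum_of_fintype]
  simp only [finsum_eq_if]
  convert this using 2
  exact if_congr Iff.rfl rfl rfl

end Pool.Agent.Lib.MP_b6945b_al
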