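import Pool.Agent.Lib.MP_b6945b_al.BlockDefs

set_option autoImplicit false

/-!
Blocks of bounded inertial index.
-/

namespace Pool.Agent.Lib.MP_b6945b_al

/-- The inertial index of the block of `χ` is at most `m`: whenever `ψ` is an irreducible character
of the centraliser `C` of `D` whose block induces the block of `χ`, the number of elements `n` that
normalise `D` and stabilise the block of `ψ` is at most `m |C|`. -/
def InertiaLE {G : Type} [Group G] (M : Ideal (integralClosure ℤ ℂ)) (χ : G → ℂ)
    (D : Subgroup G) (m : ℕ) : Prop :=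
  ∀ ψ : Subgroup.centralizer (D : Set G) → ℂ, IsIrrChar ψ →
    (∀ x : G, InIdeal M (omega ψ {h | IsConj x (h : G)} - omega χ {g | IsConj x g})) →
    Nat.card {n : G // n ∈ Subgroup.normalizer (D : Set G) ∧
      ∀ x : Subgroup.centralizer (D : Set G), InIdeal M (omega ψ {y | IsConj x y} -
        omega ψ {y | ∃ z, IsConj x z ∧ (y : G) = n * z * n⁻¹})} ≤
      m * Nat.card (Subgroup.centralizer (D : Set G))

end Pool.Agent.Lib.MP_b6945b_al
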