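import Pool.Agent.Lib.MP_b6945b_al.Omega

set_option autoImplicit false

/-!
Blocks: the centre of the group ring on the Fourier side, block idempotents, the Brauer
homomorphism and block orthogonality.
-/

namespace Pool.Agent.Lib.MP_b6945b_al

open Finset IsLocalRing MulAction

lemma one_not_mem_nonunits (V : ValuationSubring ℂ) : (1 : ℂ) ∉ V.nonunits := by
  rw [ValuationSubring.mem_nonunits_iff]; simp

lemma inv_mem_of_not_nonunit {V : ValuationSubring ℂ} {x : ℂ} (h : x ∉ V.nonunits) : x⁻¹ ∈ V := by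
  by_contra e
  exact h ((ValuationSubring.mem_nonunits_iff_or V).2 (Or.inr e))

lemma mul_not_mem_nonunits {V : ValuationSubring ℂ} {x y : ℂ} (hx : x ∉ V.nonunits)
    (hy : y ∉ V.nonunits) : x * y ∉ V.nonunits := by
  rw [ValuationSubring.mem_nonunits_iff, not_lt] at *
  rw [map_mul]
  exact one_le_mul hx hy

lemma one_sub_prod_mem {R ι : Type} [CommRing R] (J : Ideal R) (s : Finset ι) (t : ι → R)
    (h : ∀ j ∈ s, t j ∈ J) : 1 - ∏ j ∈ s, (1 - t j) ∈ J := by
  classical
  induction s using Finset.induction_on with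
  | empty => simp
  | insert j s hj ih =>
    rw [Finset.prod_insert hj]
    have h1 := ih (fun k hk => h k (Finset.mem_insert_of_mem hk))
    have h2 := J.mul_mem_right (∏ j ∈ s, (1 - t j)) (h j (Finset.mem_insert_self _ _))
    have := J.add_mem h1 h2
    rwa [show 1 - ∏ j ∈ s, (1 - t j) + t j * ∏ j ∈ s, (1 - t j) =
      1 - (1 - t j) * ∏ j ∈ s, (1 - t j) by ring] at this

open scoped IsMulCommutative in
/-- Block orthogonality for a central idempotent. -/
lemma block_orth {G : Type} [Group G] [Fintype G] {V : ValuationSubring ℂ} {p : ℕ} [Fact p.Prime]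
    (hp : (p : ℂ) ∈ V.nonunits) {ε : G → ℂ} (hε : IsCF ε) (hV : ∀ g, ε g ∈ V)
    (hid : ∀ g, conv ε ε g = ε g) {v : G} (hv : ¬ p ∣ orderOf v) {u : G} (hu : IsPElt p u)
    (hu1 : u ≠ 1) : ∑ x, ε (v * (x * u * x⁻¹)) = 0 := by
  classical
  let C := Subgroup.zpowers v
  have hr : (Fintype.card C : ℂ)⁻¹ ∈ V := by
    refine inv_nat_mem hp ?_
    rwa [← Nat.card_eq_fintype_card, Nat.card_zpowers]
  have hr0 : (Fintype.card C : ℂ) ≠ 0 := by exact_mod_cast Fintype.card_ne_zero
  obtain ⟨k, hk⟩ := hu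
  let τ : C → ℂ := fun c => ∑ x, ε (c * (x * u * x⁻¹))
  have hψ : ∀ ψ : AddChar (Additive C) ℂ, ∑ c : C, ψ (Additive.ofMul c) * τ c = 0 := by
    intro ψ
    have hmem : ∀ c : C, ψ (Additive.ofMul c) ∈ V := by
      intro c
      refine mem_of_isIntegral V (isIntegral_of_pow_eq_one (orderOf_pos c) ?_)
      rw [← AddChar.map_nsmul_eq_pow, ← ofMul_pow, pow_orderOf_eq_one, ofMul_one,
        AddChar.map_zero_eq_one]
    let f : G → ℂ := fun g => (Fintype.card C : ℂ)⁻¹ * ∑ c : C, ψ (Additive.ofMul c) * ε (c * g)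
    have hf : ∀ g, f g ∈ V := fun g =>
      V.mul_mem _ _ hr (sum_mem (fun c _ => V.mul_mem _ _ (hmem c) (hV _)))
    have hff : ∀ g, ∑ y, f y * f (y⁻¹ * g) = f g := by
      intro g
      have h1 : ∀ c c' : C, ∑ y, ε (c * y) * ε (c' * (y⁻¹ * g)) = ε ((c' * c : C) * g) := by
        intro c c'
        rw [Subgroup.coe_mul, mul_assoc, hε.comm, ← hid, conv,
          ← Equiv.sum_comp (Equiv.mulLeft (c : G)⁻¹)]
        refine Finset.sum_congr rfl (fun y _ => ?_)
        simp only [Equiv.coe_mulLeft, mul_inv_cancel_left]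
        rw [hε.comm (c' : G)]
        congr 2; group
      have h2 : ∑ y, f y * f (y⁻¹ * g) = (Fintype.card C : ℂ)⁻¹ * ((Fintype.card C : ℂ)⁻¹ *
          ∑ c : C, ∑ c' : C, ψ (Additive.ofMul (c' * c)) * ε ((c' * c : C) * g)) := by
        simp only [f, ← h1, Finset.mul_sum, Finset.sum_mul]
        rw [Finset.sum_comm]
        conv_rhs => rw [Finset.sum_comm]
        refine Finset.sum_congr rfl (fun c' _ => ?_)
        rw [Finset.sum_comm]
        refine Finset.sum_congr rfl (fun c _ => Finset.sum_congr rfl (fun y _ => ?_))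
        rw [ofMul_mul, AddChar.map_add_eq_mul]
        ring
      have h3 : ∀ c : C, ∑ c' : C, ψ (Additive.ofMul (c' * c)) * ε ((c' * c : C) * g) =
          ∑ c' : C, ψ (Additive.ofMul c') * ε (c' * g) := fun c =>
        Equiv.sum_comp (Equiv.mulRight c) (fun c' : C => ψ (Additive.ofMul c') * ε (c' * g))
      rw [h2]
      simp only [h3, Finset.sum_const, Finset.card_univ, nsmul_eq_mul, inv_mul_cancel_left₀ hr0, f]
    have h4 := proj_vanish V hp (fun g => ⟨f g, hf g⟩)
      (fun g => Subtype.ext (by simpa using hff g)) u k hk hu1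
    have h5 : ∑ x, f (x * u * x⁻¹) = 0 := by
      simpa using congrArg (fun z : V => (z : ℂ)) h4
    simp only [f] at h5
    rw [← Finset.mul_sum, Finset.sum_comm] at h5
    simp only [← Finset.mul_sum] at h5
    exact (mul_eq_zero.1 h5).resolve_left (inv_ne_zero hr0)
  let v' : C := ⟨v, Subgroup.mem_zpowers v⟩
  have h1 : ∑ ψ : AddChar (Additive C) ℂ, ψ (Additive.ofMul v'⁻¹) *
      ∑ c : C, ψ (Additive.ofMul c) * τ c = 0 := by simp [hψ]
  simp only [Finset.mul_sum] at h1
  rw [Finset.sum_comm] at h1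
  have h2 : ∀ c : C, ∑ ψ : AddChar (Additive C) ℂ, ψ (Additive.ofMul v'⁻¹) *
      (ψ (Additive.ofMul c) * τ c) =
      if c = v' then (Fintype.card (Additive C) : ℂ) * τ v' else 0 := by
    intro c
    simp only [← mul_assoc, ← AddChar.map_add_eq_mul]
    rw [← Finset.sum_mul, AddChar.sum_apply_eq_ite, ← ofMul_mul]
    by_cases e : c = v'
    · simp [e]
    · have : ¬ (v'⁻¹ * c = 1) := fun h => e (inv_mul_eq_one.1 h).symm
      rw [if_neg e, if_neg (fun h => this (ofMul_eq_zero.1 h)), zero_mul]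
  simp only [h2, Finset.sum_ite_eq', Finset.mem_univ, if_true] at h1
  exact (mul_eq_zero.1 h1).resolve_left (by exact_mod_cast Fintype.card_ne_zero)

/-- Restriction of coefficients to a subgroup. -/
def res {G : Type} [Group G] (H : Subgroup G) (z : G → ℂ) (h : H) : ℂ := z h

lemma IsCF.res {G : Type} [Group G] {z : G → ℂ} (hz : IsCF z) (H : Subgroup G) :
    IsCF (res H z) := fun h g => hz h g

/-- The Brauer homomorphism is multiplicative modulo `p` on central characters. -/
lemma brauer_mul {G : Type} [Group G] [Fintype G] {V : ValuationSubring ℂ} {p : ℕ} [Fact p.Prime]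
    (hp : (p : ℂ) ∈ V.nonunits) (H : Subgroup G) [Fintype H] (I : IrrData H) (i : Fin I.n)
    (P : Subgroup G) (hP : IsPGroup p P) (hPH : P ≤ H)
    (hN : H ≤ Subgroup.normalizer (P : Set G)) (hC : ∀ g, (∀ u ∈ P, u * g = g * u) → g ∈ H)
    {z w : G → ℂ} (hz : IsCF z) (hw : IsCF w) (hzV : ∀ g, z g ∈ V) (hwV : ∀ g, w g ∈ V) :
    I.om i (res H (conv z w)) - I.om i (res H z) * I.om i (res H w) ∈ V.nonunits := by
  classical
  rw [← I.om_conv i (hz.res H) (hw.res H), ← I.om_sub]
  set δ := res H (conv z w) - conv (res H z) (res H w) with hδ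
  have hδcf : IsCF δ := by
    intro h g
    simp only [hδ, Pi.sub_apply, (hz.conv hw).res H h g, ((hz.res H).conv (hw.res H)) h g]
  have hδV : ∀ h, δ h ∈ V := fun h =>
    sub_mem (sum_mem (fun y _ => V.mul_mem _ _ (hzV _) (hwV _)))
      (sum_mem (fun y _ => V.mul_mem _ _ (hzV _) (hwV _)))
  let S : H → Prop := fun h => ∀ u ∈ P, u * h = h * u
  have hS : ∀ h g : H, S (h * g * h⁻¹) ↔ S g := by
    have aux : ∀ h g : H, S g → S (h * g * h⁻¹) := by
      intro h g hg u hu
      have h1 := hg _ ((Subgroup.mem_normalizer_iff''.1 (hN h.2) u).1 hu)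
      simp only [Subgroup.coe_mul, Subgroup.coe_inv]
      calc u * (h * g * (h : G)⁻¹) = h * ((h : G)⁻¹ * u * h * g) * (h : G)⁻¹ := by group
        _ = _ := by rw [h1]; group
    intro h g
    refine ⟨fun e => ?_, aux h g⟩
    have := aux h⁻¹ _ e
    simpa [mul_assoc] using this
  have hsplit : δ = (fun h => if S h then δ h else 0) + (fun h => if S h then 0 else δ h) := by
    ext h; by_cases e : S h <;> simp [e]
  rw [hsplit, I.om_add]
  refine add_mem (I.om_mem_nonunits i ?_ ?_) ?_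
  · intro h g; simp only [hS, hδcf h g]
  · intro h
    split_ifs with e
    swap
    · exact zero_mem _
    have h1 : δ h = ∑ y : G, if y ∈ H then 0 else z y * w (y⁻¹ * h) := by
      have h2 : conv (res H z) (res H w) h =
          ∑ y : G, if y ∈ H then z y * w (y⁻¹ * h) else 0 := by
        rw [← Finset.sum_filter]
        exact (Finset.sum_subtype _ (by simp) (fun y => z y * w (y⁻¹ * h))).symm
      rw [hδ, Pi.sub_apply, h2, res, conv, ← Finset.sum_sub_distrib]
      refine Finset.sum_congr rfl (fun y _ => ?_)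
      split_ifs <;> simp
    rw [h1]
    refine sum_mem_of_conj P hP _ ?_ V.nonunits.toAddSubgroup ?_ ?_
    · intro g hg y
      have e1 : g * y * g⁻¹ ∈ H ↔ y ∈ H := by
        rw [H.mul_mem_cancel_right (H.inv_mem (hPH hg)), H.mul_mem_cancel_left (hPH hg)]
      have e2 : (g * y * g⁻¹)⁻¹ * h = g * (y⁻¹ * h) * g⁻¹ := by
        calc (g * y * g⁻¹)⁻¹ * h = g * y⁻¹ * g⁻¹ * (h * g) * g⁻¹ := by group
          _ = _ := by rw [← e g hg]; group
      simp only [e1, e2, hz g y, hw g _]
    · intro y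
      rw [nsmul_eq_mul]
      refine mul_mem_nonunits hp ?_
      split_ifs
      · exact zero_mem _
      · exact V.mul_mem _ _ (hzV _) (hwV _)
    · intro y hy
      rw [if_pos (hC y hy)]; exact zero_mem _
  · have : (P.subgroupOf H).Normal := (Subgroup.normal_subgroupOf_iff_le_normalizer hPH).2 hN
    refine I.om_nil hp i (P.subgroupOf H) hP.comap_subtype ?_ ?_ ?_
    · intro h g; simp only [hS, hδcf h g]
    · intro h
      split_ifs
      · exact zero_mem _
      · exact hδV h
    · intro h hh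
      exact if_pos (fun u hu => congrArg Subtype.val (hh ⟨u, hPH hu⟩ hu))

namespace IrrData

variable {G : Type} [Group G] [Fintype G] (I : IrrData G)

/-- The class function with prescribed central characters. -/
noncomputable def zf (a : Fin I.n → ℂ) (g : G) : ℂ :=
  ∑ i, a i * ((I.d i : ℂ) * I.χ i g⁻¹ / Fintype.card G)

lemma zf_cf (a : Fin I.n → ℂ) : IsCF (I.zf a) := by
  intro h g
  have : (h * g * h⁻¹)⁻¹ = h * g⁻¹ * h⁻¹ := by group
  simp only [zf, this, χ_conj]

lemma fourier_zf (a : Fin I.n → ℂ) (j : Fin I.n) : ∑ g, I.zf a g • I.ρ j g = a j • 1 := by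
  simp only [zf, Finset.sum_smul, mul_smul]
  rw [Finset.sum_comm]
  simp only [← Finset.smul_sum, I.idem]
  rw [Finset.sum_eq_single j]
  · simp
  · intro i _ hi; rw [if_neg (Ne.symm hi), smul_zero]
  · simp

lemma om_zf (a : Fin I.n → ℂ) (j : Fin I.n) : I.om j (I.zf a) = a j := by
  have h1 := I.fourier_zf a j
  rw [I.fourier_cf (I.zf_cf a)] at h1
  have h2 := congrFun (congrFun h1 ⟨0, I.pos j⟩) ⟨0, I.pos j⟩
  simpa using h2

lemma zf_om {z : G → ℂ} (hz : IsCF z) : I.zf (fun i => I.om i z) = z :=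
  I.fourier_inj (fun j => by rw [I.fourier_zf, I.fourier_cf hz])

lemma zf_mul (a b : Fin I.n → ℂ) : I.zf (a * b) = conv (I.zf a) (I.zf b) :=
  I.fourier_inj (fun j => by
    rw [I.fourier_conv', I.fourier_zf, I.fourier_zf, I.fourier_zf, smul_mul_smul_comm, one_mul]
    rfl)

lemma zf_add (a b : Fin I.n → ℂ) : I.zf (a + b) = I.zf a + I.zf b := by
  ext g; simp [zf, add_mul, Finset.sum_add_distrib]

lemma zf_sub (a b : Fin I.n → ℂ) : I.zf (a - b) = I.zf a - I.zf b := by
  ext g; simp [zf, sub_mul, Finset.sum_sub_distrib]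

lemma zf_smul (c : ℂ) (a : Fin I.n → ℂ) : I.zf (c • a) = c • I.zf a := by
  ext g; simp [zf, Finset.mul_sum, mul_assoc]

lemma om_one (i : Fin I.n) : I.om i (ind (· = 1)) = 1 := by
  unfold om
  rw [Finset.sum_eq_single 1]
  · rw [ind_pos (S := (· = 1)) rfl, χ_one, one_mul, div_self (I.d_ne i)]
  · intro h _ e; rw [ind_neg (S := (· = 1)) e, zero_mul]
  · simp

lemma zf_one : I.zf 1 = ind (· = 1) := by
  rw [← I.zf_om (z := ind (· = 1)) (isCF_ind (fun h g => by simp [mul_inv_eq_one]))]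
  congr 1
  ext i; rw [om_one]; rfl

/-- The centre of the group ring over `V`, on the Fourier side. -/
def Lam (V : ValuationSubring ℂ) : Subring (Fin I.n → ℂ) where
  carrier := {a | ∀ g, I.zf a g ∈ V}
  zero_mem' := by intro g; simp [zf]
  one_mem' := by intro g; rw [zf_one]; exact ind_mem _ _ _
  add_mem' := by intro a b ha hb g; rw [zf_add]; exact add_mem (ha g) (hb g)
  neg_mem' := by
    intro a ha g
    rw [← neg_one_smul ℂ a, zf_smul]
    exact V.mul_mem _ _ (neg_mem V.one_mem) (ha g)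
  mul_mem' := by
    intro a b ha hb g
    rw [zf_mul]
    exact sum_mem (fun y _ => V.mul_mem _ _ (ha _) (hb _))

variable {V : ValuationSubring ℂ}

lemma smul_mem_Lam {c : ℂ} (hc : c ∈ V) {a : Fin I.n → ℂ} (ha : a ∈ I.Lam V) :
    c • a ∈ I.Lam V := by
  intro g; rw [zf_smul]; exact V.mul_mem _ _ hc (ha g)

lemma apply_mem {a : Fin I.n → ℂ} (ha : a ∈ I.Lam V) (j : Fin I.n) : a j ∈ V := by
  rw [← I.om_zf a j]; exact I.om_mem j (I.zf_cf a) ha

lemma om_mem_Lam {z : G → ℂ} (hz : IsCF z) (hV : ∀ g, z g ∈ V) :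
    (fun i => I.om i z) ∈ I.Lam V := by
  intro g; rw [I.zf_om hz]; exact hV g

/-- Every block of a suitable local subgroup induces a block. -/
lemma exists_induced {p : ℕ} [Fact p.Prime]
    (hp : (p : ℂ) ∈ V.nonunits) (H : Subgroup G) [Fintype H] (I' : IrrData H) (i : Fin I'.n)
    (P : Subgroup G) (hP : IsPGroup p P) (hPH : P ≤ H)
    (hN : H ≤ Subgroup.normalizer (P : Set G)) (hC : ∀ g, (∀ u ∈ P, u * g = g * u) → g ∈ H) :
    ∃ j, ∀ a ∈ I.Lam V, I'.om i (res H (I.zf a)) - a j ∈ V.nonunits := by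
  have hmem : ∀ a : I.Lam V, I'.om i (res H (I.zf a)) ∈ V := fun a =>
    I'.om_mem i ((I.zf_cf _).res H) (fun h => a.2 h)
  have hone : I'.om i (res H (I.zf 1)) = 1 := by
    rw [← I'.om_one i, zf_one]
    congr 1
    ext h
    by_cases e : h = 1
    · rw [res, ind_pos (S := (· = 1)) e, ind_pos (S := (· = 1)) (by rw [e]; rfl)]
    · rw [res, ind_neg (S := (· = 1)) e, ind_neg (S := (· = 1)) (fun e' => e (Subtype.ext e'))]
  let ν : I.Lam V →* ResidueField V :=
    { toFun := fun a => residue V ⟨_, hmem a⟩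
      map_one' := by
        have : (⟨_, hmem 1⟩ : V) = 1 := Subtype.ext hone
        rw [this, map_one]
      map_mul' := by
        intro a b
        rw [← map_mul, ← sub_eq_zero, ← map_sub, residue_eq_zero_iff,
          ← ValuationSubring.coe_mem_nonunits_iff]
        have := brauer_mul hp H I' i P hP hPH hN hC (I.zf_cf a) (I.zf_cf b) a.2 b.2
        rw [← I.zf_mul] at this
        exact this }
  by_contra hno
  push Not at hno
  choose a ha1 ha2 using hno
  let b : Fin I.n → I.Lam V := fun j => ⟨a j - a j j • 1,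
    sub_mem (ha1 j) (I.smul_mem_Lam (I.apply_mem (ha1 j) j) (one_mem _))⟩
  have h1 : ∏ j, b j = 0 := by
    apply Subtype.ext
    ext k
    rw [SubmonoidClass.coe_finsetProd, Finset.prod_apply]
    exact Finset.prod_eq_zero (Finset.mem_univ k) (by simp [b])
  have h2 : ν 0 = 0 := by
    change residue V _ = 0
    rw [residue_eq_zero_iff, ← ValuationSubring.coe_mem_nonunits_iff]
    change I'.om i (res H (I.zf 0)) ∈ _
    have : res H (I.zf 0) = 0 := by ext h; simp [res, zf]
    rw [this]; simp [om]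
  rw [← h1, map_prod, Finset.prod_eq_zero_iff] at h2
  obtain ⟨j, _, hj⟩ := h2
  apply ha2 j
  change residue V _ = 0 at hj
  rw [residue_eq_zero_iff, ← ValuationSubring.coe_mem_nonunits_iff] at hj
  change I'.om i (res H (I.zf (a j - a j j • 1))) ∈ _ at hj
  have e : res H (I.zf (a j - a j j • 1)) = res H (I.zf (a j)) - a j j • res H (I.zf 1) := by
    rw [zf_sub, zf_smul]; rfl
  rwa [e, om_sub, om_smul, hone, mul_one] at hj

variable (V) in
/-- Two characters lie in the same block. -/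
def Bl (i j : Fin I.n) : Prop := ∀ a ∈ I.Lam V, a j - a i ∈ V.nonunits

/-- The block idempotent lies in the ideal generated by any element not killed by the block. -/
lemma exists_idem (i : Fin I.n) {x : Fin I.n → ℂ} (hx : x ∈ I.Lam V) (hxi : x i ∉ V.nonunits) :
    ∃ c ∈ I.Lam V, x * c = ind (I.Bl V i) := by
  classical
  have h0 : ∀ j, ¬ I.Bl V i j → ∃ b ∈ I.Lam V, b j = 0 ∧ b i ∉ V.nonunits := by
    intro j hj
    unfold Bl at hj
    push Not at hj
    obtain ⟨a, ha1, ha2⟩ := hj
    refine ⟨a j • 1 - a, sub_mem (I.smul_mem_Lam (I.apply_mem ha1 j) (one_mem _)) ha1, ?_, ?_⟩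
    · simp
    · simpa using ha2
  choose! b hb1 hb2 hb3 using h0
  let y := x * ∏ j ∈ univ.filter (fun j => ¬ I.Bl V i j), b j
  have hw : ∏ j ∈ univ.filter (fun j => ¬ I.Bl V i j), b j ∈ I.Lam V :=
    prod_mem (fun j hj => hb1 j (Finset.mem_filter.1 hj).2)
  have hy : y ∈ I.Lam V := mul_mem hx hw
  have hyi : y i ∉ V.nonunits := by
    refine mul_not_mem_nonunits hxi ?_
    rw [Finset.prod_apply]
    refine Finset.prod_induction _ (fun t => t ∉ V.nonunits) (fun _ _ => mul_not_mem_nonunits)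
      (one_not_mem_nonunits V) (fun j hj => hb3 j (Finset.mem_filter.1 hj).2)
  have hyB : ∀ j, I.Bl V i j → y j ∉ V.nonunits := by
    intro j hj e
    have := sub_mem e (hj y hy)
    exact hyi (by simpa using this)
  have hyN : ∀ j, ¬ I.Bl V i j → y j = 0 := by
    intro j hj
    simp only [y, Pi.mul_apply, Finset.prod_apply]
    have hm : j ∈ univ.filter (fun j => ¬ I.Bl V i j) := Finset.mem_filter.2 ⟨Finset.mem_univ j, hj⟩
    rw [Finset.prod_eq_zero (f := fun c => b c j) hm (hb2 j hj), mul_zero]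
  let s : Finset {j // I.Bl V i j} := univ
  let t : {j // I.Bl V i j} → I.Lam V := fun j =>
    ⟨(y j.1)⁻¹ • y, I.smul_mem_Lam (inv_mem_of_not_nonunit (hyB j.1 j.2)) hy⟩
  have h1 := one_sub_prod_mem (Ideal.span {(⟨x, hx⟩ : I.Lam V)}) s t (by
    intro j _
    rw [Ideal.mem_span_singleton]
    refine ⟨⟨(y j.1)⁻¹ • _, I.smul_mem_Lam (inv_mem_of_not_nonunit (hyB j.1 j.2)) hw⟩, ?_⟩
    apply Subtype.ext
    simp [t, y])
  obtain ⟨c, hc⟩ := Ideal.mem_span_singleton.1 h1
  refine ⟨c, c.2, ?_⟩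
  have h2 := congrArg Subtype.val hc
  change _ = x * c at h2
  rw [← h2]
  ext k
  simp only [AddSubgroupClass.coe_sub, OneMemClass.coe_one, SubmonoidClass.coe_finsetProd,
    Pi.sub_apply, Pi.one_apply, Finset.prod_apply, t, Pi.smul_apply, smul_eq_mul]
  by_cases e : I.Bl V i k
  · rw [ind_pos e, Finset.prod_eq_zero (Finset.mem_univ ⟨k, e⟩), sub_zero]
    have : y k ≠ 0 := fun e0 => hyB k e (e0 ▸ zero_mem _)
    rw [inv_mul_cancel₀ this, sub_self]
  · rw [ind_neg e, hyN k e]; simp

end IrrData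

end Pool.Agent.Lib.MP_b6945b_al
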