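import Pool.Agent.Lib.MP_b6945b_al.Conj

set_option autoImplicit false

/-!
Reduction of alternating sums over all chains to normal chains.
-/

namespace Pool.Agent.Lib.MP_b6945b_al

open Finset Pointwise

variable {G : Type} [Group G]

/-- Normal chains: the top member normalises all members. -/
def IsNC (σ : Finset (Subgroup G)) : Prop := σ.sup id ≤ stab σ

/-- The normal closure of `L` in `T`. -/
def ncl (T L : Subgroup G) : Subgroup G :=
  Subgroup.closure {y | ∃ t ∈ T, ∃ x ∈ L, y = t * x * t⁻¹}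

lemma le_ncl (T L : Subgroup G) : L ≤ ncl T L :=
  fun x hx => Subgroup.subset_closure ⟨1, T.one_mem, x, hx, by simp⟩

lemma ncl_le {T L K : Subgroup G} (h1 : L ≤ K) (h2 : T ≤ Subgroup.normalizer (K : Set G)) :
    ncl T L ≤ K := by
  refine (Subgroup.closure_le _).2 ?_
  rintro _ ⟨t, ht, x, hx, rfl⟩
  exact (Subgroup.mem_normalizer_iff.1 (h2 ht) x).1 (h1 hx)

lemma le_normalizer_ncl {T L S : Subgroup G} (h1 : S ≤ Subgroup.normalizer (T : Set G))
    (h2 : ∀ g ∈ S, g ∈ T ∨ g ∈ Subgroup.normalizer (L : Set G)) :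
    S ≤ Subgroup.normalizer ((ncl T L : Subgroup G) : Set G) := by
  refine Subgroup.le_normalizer_closure_iff.2 ?_
  rintro g hg _ ⟨t, ht, x, hx, rfl⟩
  refine Subgroup.subset_closure ?_
  rcases h2 g hg with h | h
  · exact ⟨g * t, T.mul_mem h ht, x, hx, by group⟩
  · exact ⟨g * t * g⁻¹, (Subgroup.mem_normalizer_iff.1 (h1 hg) t).1 ht, g * x * g⁻¹,
      (Subgroup.mem_normalizer_iff.1 h x).1 hx, by group⟩

lemma ncl_ne [Finite G] {p : ℕ} [Fact p.Prime] {T L : Subgroup G} (hT : IsPGroup p T)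
    (hL : L ≤ T) (hne : L ≠ T) : ncl T L ≠ T := by
  have := hT.isNilpotent
  rcases eq_top_or_exists_le_coatom (L.subgroupOf T) with h | ⟨M, hM, hle⟩
  · exact absurd (le_antisymm hL (Subgroup.subgroupOf_eq_top.1 h)) hne
  have hn : M.Normal := Subgroup.NormalizerCondition.normal_of_coatom M
    Group.normalizerCondition_of_isNilpotent hM
  have h1 : ncl T L ≤ M.map T.subtype := by
    refine ncl_le (fun x hx => ⟨⟨x, hL hx⟩, hle hx, rfl⟩) ?_
    rw [Subgroup.le_normalizer_iff]
    rintro t ht _ ⟨m, hm, rfl⟩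
    exact ⟨_, hn.conj_mem m hm ⟨t, ht⟩, rfl⟩
  intro e
  rw [e] at h1
  apply hM.1
  rw [eq_top_iff]
  intro t _
  obtain ⟨m, hm, e'⟩ := h1 t.2
  rwa [← show m = t from Subtype.ext e']

open Classical in
/-- The largest member not normalised by the top member. -/
noncomputable def lg (σ : Finset (Subgroup G)) : Subgroup G :=
  (σ.filter (fun P : Subgroup G => ¬ σ.sup id ≤ Subgroup.normalizer (P : Set G))).sup id

/-- The subgroup to be toggled. -/
noncomputable def nt (σ : Finset (Subgroup G)) : Subgroup G := ncl (σ.sup id) (lg σ)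

open Classical in
/-- Insert or remove `nt σ`. -/
noncomputable def ntog (σ : Finset (Subgroup G)) : Finset (Subgroup G) :=
  if nt σ ∈ σ then σ.erase (nt σ) else insert (nt σ) σ

section
variable {p : ℕ} {σ : Finset (Subgroup G)}

lemma lg_spec (hσ : IsPChain p σ) (hn : ¬ IsNC σ) :
    lg σ ∈ σ ∧ ¬ σ.sup id ≤ Subgroup.normalizer ((lg σ : Subgroup G) : Set G) := by
  classical
  rcases sup_chain_cases hσ.1
    (σ.filter (fun P : Subgroup G => ¬ σ.sup id ≤ Subgroup.normalizer (P : Set G))) (Finset.filter_subset _ _)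
    with h | h
  · exfalso
    apply hn
    intro g hg
    rw [mem_stab]
    intro P hP
    by_contra e
    have hm : P ∈ σ.filter (fun P : Subgroup G => ¬ σ.sup id ≤ Subgroup.normalizer (P : Set G)) :=
      Finset.mem_filter.2 ⟨hP, fun e' => e (e' hg)⟩
    have := Finset.le_sup (f := id) hm
    rw [h] at this
    exact (hσ.2 P hP).2 (le_bot_iff.1 this)
  · exact Finset.mem_filter.1 h

lemma top_mem (hσ : IsPChain p σ) (hn : ¬ IsNC σ) : σ.sup id ∈ σ := by
  rcases sup_chain_cases hσ.1 σ (Finset.Subset.refl _) with h | h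
  · exact absurd (by rw [IsNC, h]; exact bot_le) hn
  · exact h

lemma top_le_normalizer_nt (σ : Finset (Subgroup G)) :
    σ.sup id ≤ Subgroup.normalizer ((nt σ : Subgroup G) : Set G) :=
  le_normalizer_ncl Subgroup.le_normalizer (fun _ h => Or.inl h)

lemma nt_le_top (hσ : IsPChain p σ) (hn : ¬ IsNC σ) : nt σ ≤ σ.sup id :=
  ncl_le (Finset.le_sup (f := id) (lg_spec hσ hn).1) Subgroup.le_normalizer

lemma sup_ntog [Finite G] [Fact p.Prime] (hσ : IsPChain p σ) (hn : ¬ IsNC σ) :
    (ntog σ).sup id = σ.sup id := by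
  classical
  unfold ntog
  split_ifs with h
  · refine le_antisymm (Finset.sup_mono (Finset.erase_subset _ _)) ?_
    refine Finset.le_sup (f := id) (Finset.mem_erase.2 ⟨Ne.symm ?_, top_mem hσ hn⟩)
    refine ncl_ne (hσ.2 _ (top_mem hσ hn)).1 (Finset.le_sup (f := id) (lg_spec hσ hn).1) ?_
    intro e
    apply (lg_spec hσ hn).2
    rw [e]; exact Subgroup.le_normalizer
  · rw [Finset.sup_insert]
    exact sup_eq_right.2 (nt_le_top hσ hn)

lemma mem_ntog {P : Subgroup G} (hP : P ≠ nt σ) : P ∈ ntog σ ↔ P ∈ σ := by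
  classical
  unfold ntog
  split_ifs <;> simp [hP]

lemma nt_ntog [Finite G] [Fact p.Prime] (hσ : IsPChain p σ) (hn : ¬ IsNC σ) :
    lg (ntog σ) = lg σ ∧ nt (ntog σ) = nt σ := by
  classical
  have h1 : lg (ntog σ) = lg σ := by
    unfold lg
    rw [sup_ntog hσ hn]
    congr 1
    ext P
    simp only [Finset.mem_filter]
    refine and_congr_left (fun h => mem_ntog ?_)
    rintro rfl
    exact h (top_le_normalizer_nt σ)
  exact ⟨h1, by rw [nt, sup_ntog hσ hn, h1, nt]⟩

lemma ntog_ntog [Finite G] [Fact p.Prime] (hσ : IsPChain p σ) (hn : ¬ IsNC σ) :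
    ntog (ntog σ) = σ := by
  classical
  conv_lhs => rw [ntog, (nt_ntog hσ hn).2]
  by_cases h : nt σ ∈ σ
  · have h1 : ntog σ = σ.erase (nt σ) := by simp [ntog, h]
    rw [h1, if_neg (Finset.notMem_erase _ _), Finset.insert_erase h]
  · have h1 : ntog σ = insert (nt σ) σ := by simp [ntog, h]
    rw [h1, if_pos (Finset.mem_insert_self _ _), Finset.erase_insert h]

lemma sgn_ntog (σ : Finset (Subgroup G)) : sgn (ntog σ) = - sgn σ := by
  classical
  unfold ntog sgn
  split_ifs with h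
  · rw [← Finset.card_erase_add_one h, pow_succ]; ring
  · rw [Finset.card_insert_of_notMem h, pow_succ]; ring

lemma ntog_chain (hσ : IsPChain p σ) (hn : ¬ IsNC σ) : IsPChain p (ntog σ) := by
  classical
  unfold ntog
  split_ifs with h
  · refine ⟨hσ.1.mono ?_, fun P hP => hσ.2 P (Finset.mem_of_mem_erase hP)⟩
    intro P hP
    exact Finset.mem_coe.2 (Finset.mem_of_mem_erase (Finset.mem_coe.1 hP))
  · refine ⟨?_, ?_⟩
    · rw [Finset.coe_insert]
      refine hσ.1.insert ?_
      intro P hP _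
      rcases hσ.1.total hP (Finset.mem_coe.2 (lg_spec hσ hn).1) with e | e
      · exact Or.inr (e.trans (le_ncl _ _))
      · by_cases e' : σ.sup id ≤ Subgroup.normalizer (P : Set G)
        · exact Or.inl (ncl_le e e')
        · refine Or.inr (le_trans ?_ (le_ncl _ _))
          have hm : P ∈ σ.filter
              (fun P : Subgroup G => ¬ σ.sup id ≤ Subgroup.normalizer (P : Set G)) :=
            Finset.mem_filter.2 ⟨Finset.mem_coe.1 hP, e'⟩
          exact Finset.le_sup (f := id) hm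
    · intro P hP
      rcases Finset.mem_insert.1 hP with rfl | hP
      · refine ⟨(hσ.2 _ (top_mem hσ hn)).1.to_le (nt_le_top hσ hn), fun e => ?_⟩
        exact (hσ.2 _ (lg_spec hσ hn).1).2 (le_bot_iff.1 (e ▸ le_ncl _ _))
      · exact hσ.2 P hP

lemma stab_le_ntog (hσ : IsPChain p σ) (hn : ¬ IsNC σ) : stab σ ≤ stab (ntog σ) := by
  intro g hg
  rw [mem_stab]
  intro P hP
  by_cases e : P = nt σ
  · rw [e]
    exact le_normalizer_ncl (S := stab σ) (fun g hg => mem_stab.1 hg _ (top_mem hσ hn))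
      (fun g hg => Or.inr (mem_stab.1 hg _ (lg_spec hσ hn).1)) hg
  · exact mem_stab.1 hg P ((mem_ntog e).1 hP)

lemma not_isNC_ntog [Finite G] [Fact p.Prime] (hσ : IsPChain p σ) (hn : ¬ IsNC σ) :
    ¬ IsNC (ntog σ) := by
  intro e
  apply (lg_spec hσ hn).2
  rw [← sup_ntog hσ hn]
  intro g hg
  refine mem_stab.1 (e hg) _ ((mem_ntog ?_).2 (lg_spec hσ hn).1)
  intro e'
  apply (lg_spec hσ hn).2
  rw [e']; exact top_le_normalizer_nt σ

lemma stab_ntog [Finite G] [Fact p.Prime] (hσ : IsPChain p σ) (hn : ¬ IsNC σ) :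
    stab (ntog σ) = stab σ := by
  refine le_antisymm ?_ (stab_le_ntog hσ hn)
  have := stab_le_ntog (ntog_chain hσ hn) (not_isNC_ntog hσ hn)
  rwa [ntog_ntog hσ hn] at this

end

open Classical in
/-- Only normal chains contribute to an alternating sum of a function of the stabiliser. -/
theorem sum_normal [Finite G] [Fintype (Finset (Subgroup G))] (p : ℕ) [Fact p.Prime]
    (F : Subgroup G → ℂ) :
    ∑ σ : Finset (Subgroup G), (if IsPChain p σ then (sgn σ : ℂ) * F (stab σ) else 0) =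
    ∑ σ : Finset (Subgroup G), (if IsPChain p σ then
      (if IsNC σ then (sgn σ : ℂ) * F (stab σ) else 0) else 0) := by
  rw [← sub_eq_zero, ← Finset.sum_sub_distrib]
  have h1 : ∀ σ : Finset (Subgroup G), (if IsPChain p σ then (sgn σ : ℂ) * F (stab σ) else 0) -
      (if IsPChain p σ then (if IsNC σ then (sgn σ : ℂ) * F (stab σ) else 0) else 0) =
      if IsPChain p σ ∧ ¬ IsNC σ then (sgn σ : ℂ) * F (stab σ) else 0 := by
    intro σ
    by_cases e1 : IsPChain p σ <;> by_cases e2 : IsNC σ <;> simp [e1, e2]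
  simp only [h1]
  rw [← Finset.sum_filter]
  refine Finset.sum_involution (fun σ _ => ntog σ) ?_ ?_ ?_ ?_
  · intro σ hσ
    obtain ⟨_, h2, h3⟩ := Finset.mem_filter.1 hσ
    rw [sgn_ntog, stab_ntog h2 h3]; push_cast; ring
  · intro σ _ _ h
    have := sgn_ntog σ
    rw [h] at this
    exact sgn_ne_zero σ (by linarith)
  · intro σ hσ
    obtain ⟨_, h2, h3⟩ := Finset.mem_filter.1 hσ
    exact Finset.mem_filter.2 ⟨Finset.mem_univ _, ntog_chain h2 h3, not_isNC_ntog h2 h3⟩
  · intro σ hσ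
    obtain ⟨_, h2, h3⟩ := Finset.mem_filter.1 hσ
    exact ntog_ntog h2 h3

lemma IsNC.cj {σ : Finset (Subgroup G)} (h : IsNC σ) (g : G) : IsNC (cj g σ) := by
  refine Finset.sup_le ?_
  intro P hP x hx
  obtain ⟨P', hP', rfl⟩ := mem_cj.1 hP
  have h1 := conj_mem_stab_cj (g := g) (h (Finset.le_sup (f := id) hP' (mem_conj_smul.1 hx)))
  simpa [mul_assoc] using h1

lemma isNC_cj {σ : Finset (Subgroup G)} (g : G) : IsNC (cj g σ) ↔ IsNC σ := by
  refine ⟨fun h => ?_, fun h => h.cj g⟩
  have := h.cj g⁻¹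
  rwa [← cj_mul, inv_mul_cancel, cj_one] at this

/-- The top member of a chain. -/
lemma top_spec {p : ℕ} {σ : Finset (Subgroup G)} (hσ : IsPChain p σ) :
    IsPGroup p (σ.sup id : Subgroup G) ∧
      stab σ ≤ Subgroup.normalizer ((σ.sup id : Subgroup G) : Set G) ∧
      ∀ g, (∀ u ∈ σ.sup id, u * g = g * u) → g ∈ stab σ := by
  refine ⟨?_, ?_, ?_⟩
  · rcases sup_chain_cases hσ.1 σ (Finset.Subset.refl _) with h | h
    · rw [h]; exact IsPGroup.of_bot
    · exact (hσ.2 _ h).1
  · rcases sup_chain_cases hσ.1 σ (Finset.Subset.refl _) with h | h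
    · rw [h, Subgroup.le_normalizer_iff]
      intro g _ k hk
      rw [Subgroup.mem_bot.1 hk]; simp
    · exact fun g hg => mem_stab.1 hg _ h
  · intro g hg
    rw [mem_stab]
    intro P hP
    refine Subgroup.centralizer_le_normalizer _ ?_
    rw [Subgroup.mem_centralizer_iff]
    exact fun x hx => hg x (Finset.le_sup (f := id) hP hx)

end Pool.Agent.Lib.MP_b6945b_al
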