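import Pool.Agent.Lib.MP_b6945b_al.Block
import Pool.Agent.Lib.MP_b6945b_al.Normal
import Pool.Agent.Lib.MP_b6945b_al.Assemble

set_option autoImplicit false

/-!
The blockwise alternating sum modulo `p`.
-/

namespace Pool.Agent.Lib.MP_b6945b_al

open Finset MulAction

variable {G : Type} [Group G]

/-- Multiples of `n` by elements of `V`. -/
def JV (V : ValuationSubring ℂ) (n : ℂ) : AddSubgroup ℂ where
  carrier := {x | ∃ δ ∈ V, x = n * δ}
  zero_mem' := ⟨0, V.zero_mem, by simp⟩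
  add_mem' := by
    rintro _ _ ⟨α, h1, rfl⟩ ⟨β, h2, rfl⟩
    exact ⟨α + β, V.add_mem _ _ h1 h2, by ring⟩
  neg_mem' := by
    rintro _ ⟨α, h1, rfl⟩
    exact ⟨-α, V.neg_mem _ h1, by ring⟩

lemma sum_nn_mem [Fintype G] (p : ℕ) (V : ValuationSubring ℂ) {z : G → ℂ} (hz : IsCF z)
    (hV : ∀ g, z g ∈ V) : ∑ v, z v * nn p v ∈ JV V (Nat.card G) := by
  classical
  let _ : Fintype (Finset (Subgroup G)) := Fintype.ofFinite _
  rw [sum_nn]
  refine chain_sum_mem _ _ ?_ ?_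
  · intro g σ
    rw [sgn_cj, cntW_cj z hz]
  · intro σ _ k hk
    let _ : Fintype (stab σ) := Fintype.ofFinite _
    obtain ⟨I'⟩ := exists_irrData (stab σ)
    have := I'.comm_sum' (res (stab σ) z)
    simp only [res] at this
    rw [cntW_eq, this]
    refine ⟨sgn σ * ∑ i, I'.om i (res (stab σ) z), V.mul_mem _ _ (intCast_mem V _)
      (sum_mem (fun i _ => I'.om_mem i (hz.res _) (fun h => hV h))), ?_⟩
    rw [← hk, nsmul_eq_mul, Nat.card_eq_fintype_card]
    push_cast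
    ring

lemma orbit_Cj [Finite G] (v : Cj G) :
    Nat.card (orbit G v) * Nat.card (Subgroup.centralizer {v.v}) = Nat.card G := by
  have : Subgroup.centralizer {v.v} = stabilizer G v := by
    ext g
    rw [mem_stabilizer_iff, Subgroup.mem_centralizer_singleton_iff, ← mul_inv_eq_iff_eq_mul]
    exact ⟨fun e => Cj.ext e, fun e => congrArg Cj.v e⟩
  rw [this, card_orbit_mul_card_stabilizer]

lemma sum_ind_conj [Fintype G] (v : Cj G) (f : G → ℂ) (hf : IsCF f) :
    ∑ w, ind (IsConj v.v) w * f w = Nat.card (orbit G v) * f v.v := by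
  classical
  have h1 : ∀ w, ind (IsConj v.v) w * f w = if IsConj v.v w then f v.v else 0 := by
    intro w
    split_ifs with e
    · rw [ind_pos e, one_mul, hf.of_isConj e]
    · rw [ind_neg e, zero_mul]
  simp only [h1]
  rw [← Finset.sum_filter, Finset.sum_const, nsmul_eq_mul]
  congr 2
  rw [← Fintype.card_subtype, ← Nat.card_eq_fintype_card]
  refine Nat.card_congr (Equiv.symm (Equiv.subtypeEquiv Cj.equiv ?_))
  intro w
  rw [isConj_iff]
  exact ⟨fun ⟨g, hg⟩ => ⟨g, congrArg Cj.v hg⟩, fun ⟨g, hg⟩ => ⟨g, Cj.ext hg⟩⟩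

lemma isCF_nn [Finite G] (p : ℕ) : IsCF (fun v : G => (nn p v : ℂ)) := fun h g => by
  simp only [nn_conj]

/-- The weighted count at a `p`-singular element with an abelian Sylow subgroup in its
centraliser. -/
lemma nn_orbit_mem [Finite G] {p : ℕ} [Fact p.Prime] {V : ValuationSubring ℂ}
    (hp : (p : ℂ) ∈ V.nonunits) (v : Cj G) (hv : p ∣ orderOf v.v)
    (C : Subgroup G) (hC : C = Subgroup.centralizer {v.v}) (S : Sylow p C)
    (hab : IsAb ((S : Subgroup _).map C.subtype)) :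
    (Nat.card (orbit G v) * nn p v.v : ℂ) ∈ JJ V (Nat.card G) := by
  have hpp : p.Prime := Fact.out
  have hmC : ∀ g, g ∈ C ↔ g * v.v = v.v * g := fun g => by
    rw [hC, Subgroup.mem_centralizer_singleton_iff]
  set m := Nat.card G / p ^ (Nat.card G).factorization p with hm
  have hvC : v.v ∈ C := (hmC _).2 rfl
  obtain ⟨e, he⟩ := exists_pow_pelt p v.v
  have hu : IsPElt p ((⟨v.v, hvC⟩ : C) ^ m) := ⟨e, Subtype.ext (by
    change (v.v ^ m) ^ p ^ e = 1
    rw [← he, pow_orderOf_eq_one])⟩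
  have hn : (Subgroup.zpowers ((⟨v.v, hvC⟩ : C) ^ m)).Normal := by
    refine ⟨fun n hn g => ?_⟩
    obtain ⟨k, rfl⟩ := hn
    have h1 : Commute g (⟨v.v, hvC⟩ : C) :=
      Subtype.ext ((hmC _).1 g.2)
    have h2 := ((h1.pow_right m).zpow_right k).eq
    change g * ((⟨v.v, hvC⟩ : C) ^ m) ^ k * g⁻¹ ∈ _
    rw [h2, mul_inv_cancel_right]
    exact ⟨k, rfl⟩
  have hmem : (⟨v.v, hvC⟩ : C) ^ m ∈ (S : Subgroup C) :=
    hu.isPGroup.le_sylow_of_normal S (Subgroup.mem_zpowers _)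
  have h1 := nn_dvd v.v _ (S.isPGroup'.map C.subtype) hab (by
    rintro _ ⟨q, _, rfl⟩
    exact (hmC _).1 q.2) m (exists_pow_pelt p) ⟨_, hmem, rfl⟩
  rw [Subgroup.card_subtype, S.card_eq_multiplicity, he] at h1
  have he0 : e ≠ 0 := by
    rintro rfl
    rw [pow_zero, orderOf_eq_one_iff] at he
    exact Nat.not_dvd_ordCompl hpp (Nat.card_pos (α := G)).ne'
      (hv.trans (orderOf_dvd_of_pow_eq_one he))
  obtain ⟨e', rfl⟩ := Nat.exists_eq_add_one_of_ne_zero he0
  obtain ⟨t, ht⟩ := h1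
  have hC0 : Nat.card C ≠ 0 := Nat.card_pos.ne'
  have h4 := inv_nat_mem hp (Nat.not_dvd_ordCompl hpp hC0)
  refine ⟨p * (p ^ e' * t * ((Nat.card C / p ^ (Nat.card C).factorization p : ℕ) : ℂ)⁻¹),
    mul_mem_nonunits hp (V.mul_mem _ _ (V.mul_mem _ _ (pow_mem (natCast_mem V p) _)
      (intCast_mem V t)) h4), ?_⟩
  have h5 : ((Nat.card C / p ^ (Nat.card C).factorization p : ℕ) : ℂ) ≠ 0 := by
    exact_mod_cast (Nat.ordCompl_pos p hC0).ne'
  rw [← orbit_Cj v, ← hC]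
  conv_rhs => rw [← Nat.ordProj_mul_ordCompl_eq_self (Nat.card C) p]
  rw [ht, Nat.cast_mul (α := ℂ), Nat.cast_mul (α := ℂ), Nat.ordProj_mul_ordCompl_eq_self]
  generalize ((Nat.card C / p ^ (Nat.card C).factorization p : ℕ) : ℂ) = r at h5
  push_cast
  field_simp
  ring

namespace IrrData

variable [Fintype G] (I : IrrData G) {V : ValuationSubring ℂ} {p : ℕ} [Fact p.Prime]

/-- Central characters of the sum of the nontrivial `p`-elements. -/
noncomputable def gp (p : ℕ) (i : Fin I.n) : ℂ := I.om i (ind (fun u => IsPElt p u ∧ u ≠ 1))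

omit [Fintype G] in
lemma isCF_gp (p : ℕ) : IsCF (ind (fun u : G => IsPElt p u ∧ u ≠ 1)) :=
  isCF_ind (fun h g => by simp [isPElt_conj, mul_inv_eq_one])

omit [Fact p.Prime] in
lemma gp_mem : I.gp p ∈ I.Lam V := I.om_mem_Lam (isCF_gp p) (ind_mem V _)

lemma gp_ndz (hp : (p : ℂ) ∈ V.nonunits) (i : Fin I.n)
    (hi : ¬ p ^ (Nat.card G).factorization p ∣ I.d i) : I.gp p i + 1 ∈ V.nonunits := by
  classical
  have h1 := I.omega_pelt_ndz hp i hi
  rw [← Equiv.sum_comp (Equiv.inv G)] at h1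
  simp only [Equiv.inv_apply, inv_inv, isPElt_inv] at h1
  rw [gp, ← I.om_one i, ← I.om_add]
  convert h1 using 1
  unfold om
  congr 1
  refine Finset.sum_congr rfl (fun h _ => ?_)
  congr 1
  by_cases e : h = 1
  · rw [Pi.add_apply, ind_pos (S := (· = 1)) e, ind_neg (fun a => a.2 e),
      if_pos (e ▸ ⟨0, by simp⟩), zero_add]
  · rw [Pi.add_apply, ind_neg (S := (· = 1)) e, add_zero]
    split_ifs with e'
    · exact ind_pos ⟨e', e⟩
    · exact ind_neg (fun a => e' a.1)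

lemma zf_regular (hp : (p : ℂ) ∈ V.nonunits) {e : Fin I.n → ℂ} (he : e ∈ I.Lam V)
    (hee : e * e = e) {v : G} (hv : ¬ p ∣ orderOf v) : I.zf (I.gp p * e) v = 0 := by
  have hε := I.zf_cf e
  have h0 : I.zf (I.gp p) = ind (fun u : G => IsPElt p u ∧ u ≠ 1) := I.zf_om (isCF_gp p)
  apply mul_left_cancel₀ (card_ne (H := G))
  have h1 : ∀ x : G, I.zf (I.gp p * e) v =
      ∑ y, ind (fun u : G => IsPElt p u ∧ u ≠ 1) y * I.zf e (v * (x * y⁻¹ * x⁻¹)) := by
    intro x
    rw [zf_mul, h0, conv, ← Equiv.sum_comp (MulAut.conj x).toEquiv]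
    refine Finset.sum_congr rfl (fun y _ => ?_)
    change ind _ (x * y * x⁻¹) * I.zf e ((x * y * x⁻¹)⁻¹ * v) = _
    rw [isCF_gp p x y, hε.comm]
    congr 2; group
  have h2 : (Fintype.card G : ℂ) * I.zf (I.gp p * e) v = ∑ x : G, I.zf (I.gp p * e) v := by
    simp
  rw [h2, Finset.sum_congr rfl (fun x _ => h1 x), Finset.sum_comm, mul_zero]
  refine Finset.sum_eq_zero (fun y _ => ?_)
  rw [← Finset.mul_sum]
  by_cases hy : IsPElt p y ∧ y ≠ 1
  · rw [block_orth hp hε he (fun g => by rw [← zf_mul, hee]) hv (isPElt_inv.2 hy.1)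
      (by simpa using hy.2), mul_zero]
  · rw [ind_neg (S := fun u : G => IsPElt p u ∧ u ≠ 1) hy, zero_mul]

lemma zf_class_mul (hp : (p : ℂ) ∈ V.nonunits) (x : G) {c : Fin I.n → ℂ} (hc : c ∈ I.Lam V)
    (v : G) (S : Subgroup G) (hS : IsPGroup p S) (hv : ∀ s ∈ S, s * v = v * s)
    (hno : ∀ y, IsConj x y → ¬ ∀ s ∈ S, s * y = y * s) :
    I.zf ((fun i => I.om i (ind (IsConj x))) * c) v ∈ V.nonunits := by
  have hx : IsCF (ind (IsConj x)) := isCF_ind (isConj_conj_iff x)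
  rw [zf_mul, I.zf_om hx, conv]
  refine sum_mem_of_conj S hS _ ?_ V.nonunits.toAddSubgroup ?_ ?_
  · intro g hg y
    have e2 : (g * y * g⁻¹)⁻¹ * v = g * (y⁻¹ * v) * g⁻¹ := by
      calc (g * y * g⁻¹)⁻¹ * v = g * y⁻¹ * g⁻¹ * (v * g) * g⁻¹ := by group
        _ = _ := by rw [← hv g hg]; group
    rw [hx g y, e2, I.zf_cf c g]
  · intro y
    rw [nsmul_eq_mul]
    exact mul_mem_nonunits hp (V.mul_mem _ _ (ind_mem _ _ _) (hc _))
  · intro y hy
    rw [ind_neg (fun e => hno y e hy), zero_mul]; exact zero_mem _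

/-- Step A. -/
lemma stepA (hp : (p : ℂ) ∈ V.nonunits) (x : G)
    (hab : ∀ S : Subgroup G, IsPGroup p S → (∀ s ∈ S, s * x = x * s) → IsAb S)
    {c : Fin I.n → ℂ} (hc : c ∈ I.Lam V) {e : Fin I.n → ℂ}
    (hxc : (fun i => I.om i (ind (IsConj x))) * c = e) (hee : e * e = e) :
    ∑ v, I.zf (I.gp p * e) v * nn p v ∈ JJ V (Nat.card G) := by
  have hx : IsCF (ind (IsConj x)) := isCF_ind (isConj_conj_iff x)
  have he : e ∈ I.Lam V := hxc ▸ mul_mem (I.om_mem_Lam hx (ind_mem V _)) hc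
  let _ : Fintype (Cj G) := Fintype.ofEquiv _ Cj.equiv.symm
  rw [← Equiv.sum_comp Cj.equiv]
  refine sum_mem_of_orbit (Γ := G) _ ?_ _ ?_
  · intro g y
    change I.zf _ (g * y.v * g⁻¹) * nn p (g * y.v * g⁻¹) = I.zf _ y.v * nn p y.v
    rw [I.zf_cf, nn_conj]
  intro v
  change _ • (I.zf _ v.v * nn p v.v) ∈ _
  by_cases hv : p ∣ orderOf v.v
  swap
  · rw [I.zf_regular hp he hee hv, zero_mul, smul_zero]; exact zero_mem _
  rw [nsmul_eq_mul, mul_left_comm]
  by_cases hz : I.zf (I.gp p * e) v.v ∈ V.nonunits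
  · obtain ⟨δ, h1, h2⟩ := sum_nn_mem p V (isCF_ind (isConj_conj_iff v.v)) (ind_mem V _)
    rw [sum_ind_conj v _ (isCF_nn p)] at h2
    exact ⟨_, mul_mem_nonunits hz h1, by rw [h2]; ring⟩
  obtain ⟨S⟩ : Nonempty (Sylow p (Subgroup.centralizer {v.v})) := inferInstance
  have hS := S.isPGroup'.map (Subgroup.centralizer {v.v}).subtype
  obtain ⟨δ, h1, h2⟩ := nn_orbit_mem hp v hv _ rfl S (by
    by_contra hna
    apply hz
    rw [← hxc, mul_left_comm]
    refine I.zf_class_mul hp x (mul_mem I.gp_mem hc) _ _ hS ?_ ?_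
    · rintro _ ⟨q, _, rfl⟩
      exact Subgroup.mem_centralizer_singleton_iff.1 q.2
    · intro y hy hc
      apply hna
      obtain ⟨g, rfl⟩ := isConj_iff.1 hy
      have := hab _ (hS.map (MulAut.conj g⁻¹).toMonoidHom) (by
        rintro _ ⟨s, hs, rfl⟩
        have h3 := hc s hs
        change g⁻¹ * s * g⁻¹⁻¹ * x = x * (g⁻¹ * s * g⁻¹⁻¹)
        calc g⁻¹ * s * g⁻¹⁻¹ * x = g⁻¹ * (s * (g * x * g⁻¹)) * g := by group
          _ = _ := by rw [h3]; group)
      intro s hs t ht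
      have h3 := this _ ⟨s, hs, rfl⟩ _ ⟨t, ht, rfl⟩
      rw [← map_mul, ← map_mul] at h3
      exact (MulAut.conj g⁻¹).injective h3)
  exact ⟨_, mul_mem_nonunits h1 (mul_mem I.gp_mem he v.v), by rw [h2]; ring⟩

omit [Fact p.Prime] in
lemma bl_iff (i j : Fin I.n) : I.Bl V i j ↔
    ∀ x, I.om j (ind (IsConj x)) - I.om i (ind (IsConj x)) ∈ V.nonunits := by
  constructor
  · intro h x
    exact h _ (I.om_mem_Lam (isCF_ind (isConj_conj_iff x)) (ind_mem V _))
  · intro h a ha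
    let _ : Fintype (ConjClasses G) := Fintype.ofFinite _
    rw [← I.om_zf a j, ← I.om_zf a i, I.om_decomp j (I.zf_cf a), I.om_decomp i (I.zf_cf a),
      ← Finset.sum_sub_distrib]
    refine sum_mem (fun K _ => ?_)
    rw [← mul_sub, mul_comm]
    exact mul_mem_nonunits (h _) (ha _)

open Classical in
/-- Step B, for one local subgroup. -/
lemma stepB (hp : (p : ℂ) ∈ V.nonunits) (i₀ : Fin I.n)
    (hi : ¬ p ^ (Nat.card G).factorization p ∣ I.d i₀) (he : ind (I.Bl V i₀) ∈ I.Lam V)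
    (H : Subgroup G) [Fintype H] (I' : IrrData H)
    (P : Subgroup G) (hP : IsPGroup p P) (hPH : P ≤ H)
    (hN : H ≤ Subgroup.normalizer (P : Set G)) (hC : ∀ g, (∀ u ∈ P, u * g = g * u) → g ∈ H) :
    cntW H (I.zf (I.gp p * ind (I.Bl V i₀))) + Nat.card H * (univ.filter (fun i => ∀ x,
      I'.om i (res H (ind (IsConj x))) - I.om i₀ (ind (IsConj x)) ∈ V.nonunits)).card ∈
      JJ V (Nat.card H) := by
  have := I'.comm_sum' (res H (I.zf (I.gp p * ind (I.Bl V i₀))))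
  simp only [res] at this
  rw [cntW_eq, this, Finset.card_filter, ← Nat.card_eq_fintype_card, ← mul_add]
  refine ⟨_, ?_, rfl⟩
  push_cast
  rw [← Finset.sum_add_distrib]
  refine sum_mem (fun i _ => ?_)
  obtain ⟨j, hj⟩ := I.exists_induced hp H I' i P hP hPH hN hC
  have h1 := hj _ (mul_mem (I.gp_mem (p := p)) he)
  have h2 : (∀ x, I'.om i (res H (ind (IsConj x))) - I.om i₀ (ind (IsConj x)) ∈ V.nonunits) ↔
      I.Bl V i₀ j := by
    rw [bl_iff]
    refine forall_congr' (fun x => ?_)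
    have hx : IsCF (ind (IsConj x)) := isCF_ind (isConj_conj_iff x)
    have h3 := hj _ (I.om_mem_Lam hx (ind_mem V _))
    rw [I.zf_om hx] at h3
    exact ⟨fun h => by simpa using sub_mem h h3, fun h => by simpa using add_mem h3 h⟩
  simp only [h2]
  rw [Pi.mul_apply] at h1
  split_ifs with e
  · rw [ind_pos e, mul_one] at h1
    have := add_mem (add_mem h1 (e _ (I.gp_mem (p := p)))) (I.gp_ndz hp i₀ hi)
    convert this using 1
    ring
  · rw [ind_neg e, mul_zero, sub_zero] at h1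
    simpa using h1

open Classical in
theorem block_congr [Fintype (Finset (Subgroup G))] (hp : (p : ℂ) ∈ V.nonunits) (i₀ : Fin I.n)
    (hi : ¬ p ^ (Nat.card G).factorization p ∣ I.d i₀) (x : G)
    (hx : I.om i₀ (ind (IsConj x)) ∉ V.nonunits)
    (hab : ∀ S : Subgroup G, IsPGroup p S → (∀ s ∈ S, s * x = x * s) → IsAb S)
    (K : Subgroup G → ℕ) (hK1 : ∀ g σ, K (stab (cj g σ)) = K (stab σ))
    (hK2 : ∀ (H : Subgroup G) [Fintype H] (I' : IrrData H), K H = (univ.filter (fun i => ∀ x,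
      I'.om i (res H (ind (IsConj x))) - I.om i₀ (ind (IsConj x)) ∈ V.nonunits)).card) :
    (p * Nat.card G : ℤ) ∣ ∑ σ : Finset (Subgroup G),
      if IsPChain p σ then sgn σ * (Nat.card (stab σ) * K (stab σ) : ℤ) else 0 := by
  have hcs : ∀ g (σ : Finset (Subgroup G)), Nat.card (stab (cj g σ)) = Nat.card (stab σ) := by
    intro g σ
    exact Nat.card_congr (Equiv.subtypeEquiv (MulAut.conj g).toEquiv
      (fun a => conj_mem_stab_cj_iff.symm)).symm
  obtain ⟨c, hc, hxc⟩ := I.exists_idem i₀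
    (I.om_mem_Lam (isCF_ind (isConj_conj_iff x)) (ind_mem V _)) hx
  have he : ind (I.Bl V i₀) ∈ I.Lam V :=
    hxc ▸ mul_mem (I.om_mem_Lam (isCF_ind (isConj_conj_iff x)) (ind_mem V _)) hc
  have hA := I.stepA hp x hab hc hxc (by
    ext j
    by_cases e : I.Bl V i₀ j
    · simp [ind_pos e]
    · simp [ind_neg e])
  set z := I.zf (I.gp p * ind (I.Bl V i₀)) with hz
  have hB : ∑ σ : Finset (Subgroup G), (if IsPChain p σ then (sgn σ : ℂ) *
      (cntW (stab σ) z + Nat.card (stab σ) * K (stab σ)) else 0) ∈ JJ V (Nat.card G) := by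
    rw [sum_normal p (fun H => cntW H z + Nat.card H * K H)]
    refine chain_sum_mem _ _ ?_ ?_
    · intro g σ
      simp only [isNC_cj, sgn_cj, cntW_cj z (I.zf_cf _), hK1, hcs]
    · intro σ hσ k hk
      split_ifs with hn
      swap
      · rw [smul_zero]; exact zero_mem _
      let _ : Fintype (stab σ) := Fintype.ofFinite _
      obtain ⟨I'⟩ := exists_irrData (stab σ)
      obtain ⟨h1, h2, h3⟩ := top_spec hσ
      obtain ⟨δ, h4, h5⟩ := I.stepB hp i₀ hi he (stab σ) I' _ h1 hn h2 h3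
      rw [hK2 _ I', h5]
      refine ⟨δ * sgn σ, mul_mem_nonunits h4 (intCast_mem V _), ?_⟩
      rw [← hk, nsmul_eq_mul]
      push_cast
      ring
  have hT : (Nat.card G : ℤ) ∣ ∑ σ : Finset (Subgroup G),
      if IsPChain p σ then sgn σ * (Nat.card (stab σ) * K (stab σ) : ℤ) else 0 := by
    rw [← Int.mem_zmultiples_iff]
    refine chain_sum_mem _ _ ?_ ?_
    · intro g σ
      simp only [sgn_cj, hK1, hcs]
    · intro σ _ k hk
      rw [Int.mem_zmultiples_iff, ← hk, nsmul_eq_mul]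
      push_cast
      exact ⟨sgn σ * K (stab σ), by ring⟩
  obtain ⟨t, ht⟩ := hT
  rw [sum_nn] at hA
  obtain ⟨δ, h1, h2⟩ := sub_mem hB hA
  rw [← Finset.sum_sub_distrib] at h2
  have h3 : ((Nat.card G * t : ℤ) : ℂ) = Nat.card G * δ := by
    rw [← ht, ← h2]
    push_cast
    refine Finset.sum_congr rfl (fun σ _ => ?_)
    split_ifs
    · ring
    · ring
  have h4 : (t : ℂ) = δ := by
    apply mul_left_cancel₀ (show (Nat.card G : ℂ) ≠ 0 by exact_mod_cast Nat.card_pos.ne')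
    rw [← h3]; push_cast; ring
  obtain ⟨s, hs⟩ := int_dvd_of_mem hp (h4 ▸ h1)
  exact ⟨s, by rw [ht, hs]; ring⟩

end IrrData

end Pool.Agent.Lib.MP_b6945b_al
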