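import Pool.Agent.Lib.MP_b6945b_al.Bi.BInd

set_option autoImplicit false

namespace Pool.Agent.Results.MP_b6945b_al.BoundedInertia

open Pool.Agent.Lib.MP_b6945b_al

/-- For every bound `m` and all sufficiently large primes `p`, the blockwise Knörr–Robinson
alternating sum vanishes for every `p`-block with a nontrivial abelian defect group and inertial
index at most `m`.  The sum runs over all chains `σ` of nontrivial `p`-subgroups, the empty chain
included; the factor `|G_σ|` makes it `|G|` times the sum over `G`-orbits of chains. -/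
theorem result :
    ∀ m : ℕ, ∃ p₀ : ℕ, ∀ (p : ℕ), p.Prime → p₀ < p → ∀ (G : Type) [Group G] [Finite G]
      (M : Ideal (integralClosure ℤ ℂ)), M.IsMaximal → (p : integralClosure ℤ ℂ) ∈ M →
      ∀ (χ : G → ℂ), IsIrrChar χ →
      ∀ (D : Subgroup G), IsDefectGroup p M χ D → D ≠ ⊥ → (∀ x ∈ D, ∀ y ∈ D, x * y = y * x) →
      InertiaLE M χ D m →
      ∑ᶠ (σ : Finset (Subgroup G))
        (_ : IsChain (· ≤ ·) (σ : Set (Subgroup G)) ∧ ∀ P ∈ σ, IsPGroup p P ∧ P ≠ ⊥),
        (-1 : ℤ) ^ σ.card *
          ((Nat.card (⨅ P ∈ σ, Subgroup.normalizer (P : Set G) : Subgroup G) : ℤ) *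
            kInd M χ (⨅ P ∈ σ, Subgroup.normalizer (P : Set G))) = 0 :=
  fun m => Bi.kr_sum_bounded m

end Pool.Agent.Results.MP_b6945b_al.BoundedInertia
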