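import Mathlib

set_option autoImplicit false

/-!
Chains of nontrivial `p`-subgroups, their stabilisers, and the basic cancellation lemma.
-/

namespace Pool.Agent.Lib.MP_b6945b_al

open Finset Pointwise

variable {G : Type} [Group G]

/-- A (possibly empty) chain of nontrivial `p`-subgroups. -/
def IsPChain (p : ℕ) (σ : Finset (Subgroup G)) : Prop :=
  IsChain (· ≤ ·) (σ : Set (Subgroup G)) ∧ ∀ P ∈ σ, IsPGroup p P ∧ P ≠ ⊥

/-- The stabiliser of a chain. -/
def stab (σ : Finset (Subgroup G)) : Subgroup G :=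
  ⨅ P ∈ σ, Subgroup.normalizer (P : Set G)

lemma mem_stab {σ : Finset (Subgroup G)} {g : G} :
    g ∈ stab σ ↔ ∀ P ∈ σ, g ∈ Subgroup.normalizer (P : Set G) := by
  simp [stab, Subgroup.mem_iInf]

lemma stab_empty : stab (∅ : Finset (Subgroup G)) = ⊤ := by
  ext g; simp [mem_stab]

/-- The sign of a chain. -/
def sgn (σ : Finset (Subgroup G)) : ℤ := (-1) ^ σ.card

open Classical in
/-- The members of `σ` not containing `R`, joined, joined with `R`. -/
noncomputable def tog (R : Subgroup G) (σ : Finset (Subgroup G)) : Subgroup G :=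
  (σ.filter (fun P => ¬ R ≤ P)).sup id ⊔ R

lemma sup_chain_cases {σ : Finset (Subgroup G)} (hσ : IsChain (· ≤ ·) (σ : Set (Subgroup G)))
    (τ : Finset (Subgroup G)) (hτ : τ ⊆ σ) : τ.sup id = ⊥ ∨ τ.sup id ∈ τ := by
  classical
  induction τ using Finset.induction_on with
  | empty => left; simp
  | insert P τ hP ih =>
    right
    have hsub : τ ⊆ σ := (Finset.subset_insert _ _).trans hτ
    have hPσ : P ∈ σ := hτ (Finset.mem_insert_self _ _)
    rw [Finset.sup_insert]
    rcases ih hsub with h | h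
    · rw [h]; simp
    · have hc := hσ.total (Finset.mem_coe.2 hPσ) (Finset.mem_coe.2 (hsub h))
      rcases hc with hc | hc
      · have : id P ⊔ τ.sup id = τ.sup id := sup_eq_right.2 hc
        rw [this]; exact Finset.mem_insert_of_mem h
      · have : id P ⊔ τ.sup id = P := sup_eq_left.2 hc
        rw [this]; exact Finset.mem_insert_self _ _

lemma le_tog (R : Subgroup G) (σ : Finset (Subgroup G)) : R ≤ tog R σ := le_sup_right

lemma tog_comparable {R : Subgroup G} {σ : Finset (Subgroup G)}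
    (hσ : IsChain (· ≤ ·) (σ : Set (Subgroup G))) {P : Subgroup G} (hP : P ∈ σ) :
    P ≤ tog R σ ∨ tog R σ ≤ P := by
  classical
  by_cases h : R ≤ P
  · right
    refine sup_le ?_ h
    refine Finset.sup_le ?_
    intro P' hP'
    rw [Finset.mem_filter] at hP'
    rcases hσ.total (Finset.mem_coe.2 hP'.1) (Finset.mem_coe.2 hP) with hc | hc
    · exact hc
    · exact absurd (h.trans hc) hP'.2
  · left
    refine le_trans ?_ le_sup_left
    exact Finset.le_sup (f := id) (Finset.mem_filter.2 ⟨hP, h⟩)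

lemma tog_pgroup {p : ℕ} {R : Subgroup G} {σ : Finset (Subgroup G)} (hσ : IsPChain p σ)
    (hR : IsPGroup p R) (hRσ : R ≤ stab σ) : IsPGroup p (tog R σ) := by
  classical
  unfold tog
  rcases sup_chain_cases hσ.1 (σ.filter (fun P => ¬ R ≤ P)) (Finset.filter_subset _ _) with h | h
  · rw [h, bot_sup_eq]; exact hR
  · have hm := (Finset.mem_filter.1 h).1
    exact IsPGroup.to_sup_of_normal_left' (hσ.2 _ hm).1 hR
      (fun g hg => mem_stab.1 (hRσ hg) _ hm)

lemma mem_normalizer_tog {R : Subgroup G} {σ : Finset (Subgroup G)}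
    (hσ : IsChain (· ≤ ·) (σ : Set (Subgroup G))) {g : G} (hg : g ∈ stab σ)
    (hgR : g ∈ Subgroup.normalizer (R : Set G)) :
    g ∈ Subgroup.normalizer ((tog R σ : Subgroup G) : Set G) := by
  classical
  unfold tog
  rcases sup_chain_cases hσ (σ.filter (fun P => ¬ R ≤ P)) (Finset.filter_subset _ _) with h | h
  · rw [h, bot_sup_eq]; exact hgR
  · have hm := (Finset.mem_filter.1 h).1
    exact Subgroup.normalizer_inf_normalizer_le_normalizer_sup _ _
      ⟨mem_stab.1 hg _ hm, hgR⟩

open Classical in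
/-- Insert or remove `tog R σ`. -/
noncomputable def toggle (R : Subgroup G) (σ : Finset (Subgroup G)) : Finset (Subgroup G) :=
  if tog R σ ∈ σ then σ.erase (tog R σ) else insert (tog R σ) σ

lemma tog_toggle (R : Subgroup G) (σ : Finset (Subgroup G)) :
    tog R (toggle R σ) = tog R σ := by
  classical
  have key : (toggle R σ).filter (fun P => ¬ R ≤ P) = σ.filter (fun P => ¬ R ≤ P) := by
    ext P
    simp only [Finset.mem_filter, toggle]
    split_ifs with h
    · simp only [Finset.mem_erase]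
      constructor
      · rintro ⟨⟨_, h2⟩, h3⟩; exact ⟨h2, h3⟩
      · rintro ⟨h2, h3⟩
        refine ⟨⟨?_, h2⟩, h3⟩
        rintro rfl; exact h3 (le_tog _ _)
    · simp only [Finset.mem_insert]
      constructor
      · rintro ⟨h2 | h2, h3⟩
        · subst h2; exact absurd (le_tog _ _) h3
        · exact ⟨h2, h3⟩
      · rintro ⟨h2, h3⟩; exact ⟨Or.inr h2, h3⟩
  conv_lhs => unfold tog
  rw [key]; rfl

lemma toggle_toggle (R : Subgroup G) (σ : Finset (Subgroup G)) :
    toggle R (toggle R σ) = σ := by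
  classical
  conv_lhs => rw [toggle, tog_toggle]
  by_cases h : tog R σ ∈ σ
  · have h1 : toggle R σ = σ.erase (tog R σ) := by simp [toggle, h]
    rw [h1, if_neg (Finset.notMem_erase _ _), Finset.insert_erase h]
  · have h1 : toggle R σ = insert (tog R σ) σ := by simp [toggle, h]
    rw [h1, if_pos (Finset.mem_insert_self _ _), Finset.erase_insert h]

lemma sgn_toggle (R : Subgroup G) (σ : Finset (Subgroup G)) :
    sgn (toggle R σ) = - sgn σ := by
  classical
  unfold toggle sgn
  split_ifs with h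
  · rw [← Finset.card_erase_add_one h, pow_succ]; ring
  · rw [Finset.card_insert_of_notMem h, pow_succ]; ring

lemma sgn_ne_zero (σ : Finset (Subgroup G)) : sgn σ ≠ 0 := by
  unfold sgn; exact pow_ne_zero _ (by norm_num)

lemma toggle_chain {p : ℕ} {R : Subgroup G} {σ : Finset (Subgroup G)} (hσ : IsPChain p σ)
    (hR : IsPGroup p R) (hR0 : R ≠ ⊥) (hRσ : R ≤ stab σ) : IsPChain p (toggle R σ) := by
  classical
  unfold toggle
  split_ifs with h
  · refine ⟨hσ.1.mono ?_, fun P hP => hσ.2 P (Finset.mem_of_mem_erase hP)⟩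
    intro P hP
    exact Finset.mem_coe.2 (Finset.mem_of_mem_erase (Finset.mem_coe.1 hP))
  · refine ⟨?_, ?_⟩
    · rw [Finset.coe_insert]
      refine hσ.1.insert ?_
      intro P hP _
      exact (tog_comparable hσ.1 (Finset.mem_coe.1 hP)).symm
    · intro P hP
      rcases Finset.mem_insert.1 hP with rfl | hP
      · refine ⟨tog_pgroup hσ hR hRσ, ?_⟩
        intro h0
        exact hR0 (le_bot_iff.1 (h0 ▸ le_tog R σ))
      · exact hσ.2 P hP

lemma mem_stab_toggle {R : Subgroup G} {σ : Finset (Subgroup G)}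
    (hσ : IsChain (· ≤ ·) (σ : Set (Subgroup G))) {g : G} (hg : g ∈ stab σ)
    (hgR : g ∈ Subgroup.normalizer (R : Set G)) : g ∈ stab (toggle R σ) := by
  classical
  rw [mem_stab]
  intro P hP
  unfold toggle at hP
  split_ifs at hP with h
  · exact mem_stab.1 hg P (Finset.mem_of_mem_erase hP)
  · rcases Finset.mem_insert.1 hP with rfl | hP
    · exact mem_normalizer_tog hσ hg hgR
    · exact mem_stab.1 hg P hP

open Classical in
/-- The basic cancellation: if `S` contains and normalises a nontrivial `p`-subgroup, the signed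
count of the chains normalised by `S` vanishes. -/
theorem vanish [Fintype (Finset (Subgroup G))] {p : ℕ} (S : Set G) (R : Subgroup G)
    (hR : IsPGroup p R) (hR0 : R ≠ ⊥) (hRS : (R : Set G) ⊆ S)
    (hSR : S ⊆ Subgroup.normalizer (R : Set G)) :
    ∑ σ ∈ univ.filter (fun σ : Finset (Subgroup G) => IsPChain p σ ∧ S ⊆ stab σ), sgn σ = 0 := by
  refine Finset.sum_involution (fun σ _ => toggle R σ) ?_ ?_ ?_ ?_
  · intro σ _; rw [sgn_toggle]; ring
  · intro σ _ _ h
    have := sgn_toggle R σ
    rw [h] at this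
    exact sgn_ne_zero σ (by linarith)
  · intro σ hσ
    rw [Finset.mem_filter] at hσ ⊢
    obtain ⟨_, h1, h2⟩ := hσ
    refine ⟨Finset.mem_univ _, toggle_chain h1 hR hR0 (fun g hg => h2 (hRS hg)), ?_⟩
    intro g hg
    exact mem_stab_toggle h1.1 (h2 hg) (hSR hg)
  · intro σ _; exact toggle_toggle R σ

open Classical in
/-- Cancellation refined by the intersection of the stabiliser with a subgroup `C`. -/
theorem vanish_exact [Finite G] [Fintype (Finset (Subgroup G))] {p : ℕ} (a b : G) (C : Subgroup G)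
    (hC : IsPGroup p C) (hCc : ∀ x ∈ C, ∀ y ∈ C, x * y = y * x) (ha : ∀ x ∈ C, x * a = a * x)
    (T : Subgroup G) (hT0 : T ≠ ⊥) (hb : b ∈ Subgroup.normalizer (T : Set G))
    (D : Subgroup G) (hTD : T ≤ D) (hDC : D ≤ C) :
    ∑ σ ∈ univ.filter (fun σ : Finset (Subgroup G) =>
      IsPChain p σ ∧ a ∈ stab σ ∧ b ∈ stab σ ∧ stab σ ⊓ C = D), sgn σ = 0 := by
  induction D using WellFoundedGT.induction with
  | ind D ih =>
  have hcomm : ∀ g : G, (∀ x ∈ T, x * g = g * x) → g ∈ Subgroup.normalizer (T : Set G) := by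
    intro g hg
    refine Subgroup.centralizer_le_normalizer _ ?_
    rw [Subgroup.mem_centralizer_iff]
    exact fun x hx => hg x hx
  have hv := vanish (p := p) (insert a (insert b (D : Set G))) T (hC.to_le (hTD.trans hDC)) hT0
    (fun x hx => Or.inr (Or.inr (hTD hx))) (by
      rintro x (rfl | rfl | hx)
      · exact hcomm _ (fun y hy => ha y (hDC (hTD hy)))
      · exact hb
      · exact hcomm _ (fun y hy => hCc y (hDC (hTD hy)) x (hDC hx)))
  have hfib := Finset.sum_fiberwise_of_maps_to (s := univ.filter (fun σ : Finset (Subgroup G) =>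
      IsPChain p σ ∧ (insert a (insert b (D : Set G))) ⊆ stab σ))
      (t := (univ.filter (fun σ : Finset (Subgroup G) =>
      IsPChain p σ ∧ (insert a (insert b (D : Set G))) ⊆ stab σ)).image (fun σ => stab σ ⊓ C) ∪ {D})
      (g := fun σ => stab σ ⊓ C)
      (fun σ hσ => Finset.mem_union_left _ (Finset.mem_image_of_mem _ hσ)) sgn
  rw [hv, Finset.sum_eq_single D] at hfib
  · rw [← hfib]
    refine Finset.sum_congr ?_ (fun _ _ => rfl)
    ext σ
    simp only [Finset.mem_filter, Finset.mem_univ, true_and, Set.insert_subset_iff,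
      SetLike.mem_coe, SetLike.coe_subset_coe]
    constructor
    · rintro ⟨h1, h2, h3, h4⟩
      exact ⟨⟨h1, h2, h3, h4 ▸ inf_le_left⟩, h4⟩
    · rintro ⟨⟨h1, h2, h3, _⟩, h4⟩
      exact ⟨h1, h2, h3, h4⟩
  · intro D' hD' hne
    rcases Finset.mem_union.1 hD' with hD' | hD'
    · obtain ⟨σ, hσ, rfl⟩ := Finset.mem_image.1 hD'
      simp only [Finset.mem_filter, Finset.mem_univ, true_and, Set.insert_subset_iff,
        SetLike.mem_coe, SetLike.coe_subset_coe] at hσ
      have hle : D ≤ stab σ ⊓ C := le_inf hσ.2.2.2 hDC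
      have := ih (stab σ ⊓ C) (lt_of_le_of_ne hle (Ne.symm hne)) (hTD.trans hle) inf_le_right
      rw [← this]
      refine Finset.sum_congr ?_ (fun _ _ => rfl)
      ext τ
      simp only [Finset.mem_filter, Finset.mem_univ, true_and, Set.insert_subset_iff,
        SetLike.mem_coe, SetLike.coe_subset_coe]
      constructor
      · rintro ⟨⟨h1, h2, h3, _⟩, h4⟩
        exact ⟨h1, h2, h3, h4⟩
      · rintro ⟨h1, h2, h3, h4⟩
        exact ⟨⟨h1, h2, h3, hle.trans (h4 ▸ inf_le_left)⟩, h4⟩
    · exact absurd (Finset.mem_singleton.1 hD') hne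
  · intro h
    exact absurd (Finset.mem_union_right _ (Finset.mem_singleton_self _)) h

open Classical in
/-- Cancellation for any weight depending on the intersection of the stabiliser with `C`. -/
theorem vanish_family [Finite G] [Fintype (Finset (Subgroup G))] {p : ℕ} (a b : G)
    (C : Subgroup G)
    (hC : IsPGroup p C) (hCc : ∀ x ∈ C, ∀ y ∈ C, x * y = y * x) (ha : ∀ x ∈ C, x * a = a * x)
    (F : Subgroup G → Prop)
    (hF : ∀ D, D ≤ C → F D → ∃ T : Subgroup G, T ≠ ⊥ ∧ T ≤ D ∧
      b ∈ Subgroup.normalizer (T : Set G)) :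
    ∑ σ ∈ univ.filter (fun σ : Finset (Subgroup G) =>
      IsPChain p σ ∧ a ∈ stab σ ∧ b ∈ stab σ ∧ F (stab σ ⊓ C)), sgn σ = 0 := by
  rw [← Finset.sum_fiberwise_of_maps_to (t := (univ.filter (fun σ : Finset (Subgroup G) =>
      IsPChain p σ ∧ a ∈ stab σ ∧ b ∈ stab σ ∧ F (stab σ ⊓ C))).image (fun σ => stab σ ⊓ C))
      (g := fun σ => stab σ ⊓ C) (fun σ hσ => Finset.mem_image_of_mem _ hσ)]
  refine Finset.sum_eq_zero ?_
  intro D hD
  obtain ⟨σ, hσ, rfl⟩ := Finset.mem_image.1 hD
  simp only [Finset.mem_filter, Finset.mem_univ, true_and] at hσ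
  obtain ⟨T, hT0, hTD, hb⟩ := hF _ inf_le_right hσ.2.2.2
  rw [← vanish_exact (p := p) a b C hC hCc ha T hT0 hb _ hTD inf_le_right]
  refine Finset.sum_congr ?_ (fun _ _ => rfl)
  ext τ
  simp only [Finset.mem_filter, Finset.mem_univ, true_and]
  constructor
  · rintro ⟨⟨h1, h2, h3, _⟩, h4⟩
    exact ⟨h1, h2, h3, h4⟩
  · rintro ⟨h1, h2, h3, h4⟩
    exact ⟨⟨h1, h2, h3, h4 ▸ hσ.2.2.2⟩, h4⟩

end Pool.Agent.Lib.MP_b6945b_al
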