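import Pool.Agent.Lib.MP_b6945b_al.Irr

set_option autoImplicit false

/-!
Characters: inversion formula, central characters, the Frobenius commutator formula, and the
identification of all irreducible characters.
-/

namespace Pool.Agent.Lib.MP_b6945b_al

open Finset

/-- Irreducibility of a matrix representation. -/
def MatIrr {H : Type} [Group H] {n : ℕ} (ρ : H →* Matrix (Fin n) (Fin n) ℂ) : Prop :=
  ∀ W : Submodule ℂ (Fin n → ℂ), (∀ g : H, ∀ v ∈ W, (ρ g).mulVec v ∈ W) → W = ⊥ ∨ W = ⊤

/-- The linear representation of a matrix representation. -/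
noncomputable def toRep {H : Type} [Group H] {n : ℕ} (ρ : H →* Matrix (Fin n) (Fin n) ℂ) :
    Representation ℂ H (Fin n → ℂ) :=
  (Matrix.toLinAlgEquiv' (R := ℂ) (n := Fin n)).toMulEquiv.toMonoidHom.comp ρ

lemma toRep_apply {H : Type} [Group H] {n : ℕ} (ρ : H →* Matrix (Fin n) (Fin n) ℂ) (g : H)
    (v : Fin n → ℂ) : toRep ρ g v = (ρ g).mulVec v := by
  simp [toRep]

lemma toRep_character {H : Type} [Group H] {n : ℕ} (ρ : H →* Matrix (Fin n) (Fin n) ℂ) (g : H) :
    (toRep ρ).character g = (ρ g).trace := by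
  rw [← Matrix.trace_toLin'_eq]
  rfl

lemma toRep_irr {H : Type} [Group H] {n : ℕ} (ρ : H →* Matrix (Fin n) (Fin n) ℂ) (hn : 0 < n)
    (h : MatIrr ρ) : (toRep ρ).IsIrreducible := by
  have : Nonempty (Fin n) := ⟨⟨0, hn⟩⟩
  have hne : (⊥ : Subrepresentation (toRep ρ)) ≠ ⊤ := by
    intro e
    have := congrArg Subrepresentation.toSubmodule e
    exact bot_ne_top (α := Submodule ℂ (Fin n → ℂ)) this
  have : Nontrivial (Subrepresentation (toRep ρ)) := ⟨⟨_, _, hne⟩⟩
  refine ⟨fun S => ?_⟩
  rcases h S.toSubmodule (fun g v hv => by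
    rw [← toRep_apply]; exact S.apply_mem_toSubmodule g hv) with h1 | h1
  · left; exact Subrepresentation.toSubmodule_injective h1
  · right; exact Subrepresentation.toSubmodule_injective h1

namespace IrrData

variable {H : Type} [Group H] [Fintype H] (I : IrrData H)

/-- The characters. -/
noncomputable def χ (i : Fin I.n) (g : H) : ℂ := (I.ρ i g).trace

lemma d_ne (i : Fin I.n) : (I.d i : ℂ) ≠ 0 := by exact_mod_cast (I.pos i).ne'

lemma card_ne : (Fintype.card H : ℂ) ≠ 0 := by exact_mod_cast Fintype.card_ne_zero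

lemma χ_one (i : Fin I.n) : I.χ i 1 = I.d i := by simp [χ]

lemma χ_comm (i : Fin I.n) (g h : H) : I.χ i (g * h) = I.χ i (h * g) := by
  simp only [χ, map_mul]; exact Matrix.trace_mul_comm _ _

lemma χ_conj (i : Fin I.n) (h g : H) : I.χ i (h * g * h⁻¹) = I.χ i g := by
  rw [χ_comm, inv_mul_cancel_left]

lemma reg' [DecidableEq H] (g : H) :
    ∑ i, (I.d i : ℂ) * I.χ i g = if g = 1 then (Fintype.card H : ℂ) else 0 := by
  split_ifs with h
  · subst h; simp only [χ_one]; exact I.reg_one
  · exact I.reg g h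

lemma inversion (c : H → ℂ) (h : H) :
    ∑ i, (I.d i : ℂ) * ((∑ g, c g • I.ρ i g) * I.ρ i h⁻¹).trace = Fintype.card H * c h := by
  classical
  have : ∀ i, ((∑ g, c g • I.ρ i g) * I.ρ i h⁻¹).trace = ∑ g, c g * I.χ i (g * h⁻¹) := by
    intro i
    simp [Finset.sum_mul, Matrix.trace_sum, χ]
  simp only [this, Finset.mul_sum]
  rw [Finset.sum_comm]
  have h2 : ∀ g, ∑ i, (I.d i : ℂ) * (c g * I.χ i (g * h⁻¹)) =
      if g = h then (Fintype.card H : ℂ) * c h else 0 := by
    intro g
    have := I.reg' (g * h⁻¹)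
    simp only [mul_left_comm _ (c g)]
    rw [← Finset.mul_sum, this]
    by_cases e : g = h
    · simp [e, mul_comm]
    · simp [e, mul_inv_eq_one]
  simp [h2]

lemma scalar_of_comm (i : Fin I.n) (M : Matrix (Fin (I.d i)) (Fin (I.d i)) ℂ)
    (h : ∀ g, M * I.ρ i g = I.ρ i g * M) : M = (M.trace / I.d i) • 1 := by
  classical
  have h1 : ∀ N, N * M = M * N := by
    intro N
    obtain ⟨c, hc⟩ := I.surj (Pi.single i N)
    have := hc i
    rw [Pi.single_eq_same] at this
    rw [← this, Finset.sum_mul, Finset.mul_sum]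
    refine Finset.sum_congr rfl (fun g _ => ?_)
    rw [smul_mul_assoc, mul_smul_comm, h]
  obtain ⟨r, hr⟩ := (Matrix.mem_range_scalar_iff_commute_single' (M := M)).2 (fun j k => h1 _)
  have h2 : M = r • 1 := by
    rw [← hr]; ext j k; simp [Matrix.scalar_apply, Matrix.diagonal_apply, Matrix.one_apply]
  have h3 : M.trace / I.d i = r := by
    rw [h2, div_eq_iff (I.d_ne i)]; simp
  rw [h3]; exact h2

lemma class_sum (c : H → ℂ) (hc : ∀ h g, c (h * g * h⁻¹) = c g) (i : Fin I.n) :
    ∑ g, c g • I.ρ i g = ((∑ g, c g * I.χ i g) / I.d i) • 1 := by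
  have := I.scalar_of_comm i (∑ g, c g • I.ρ i g) (by
    intro h
    rw [Finset.sum_mul, Finset.mul_sum, ← Equiv.sum_comp (MulAut.conj h).toEquiv]
    refine Finset.sum_congr rfl (fun g _ => ?_)
    change (c (h * g * h⁻¹) • I.ρ i (h * g * h⁻¹)) * I.ρ i h = _
    rw [hc, smul_mul_assoc, mul_smul_comm, ← map_mul, ← map_mul, inv_mul_cancel_right])
  rw [this]
  simp [Matrix.trace_sum, χ]

lemma idem (i j : Fin I.n) :
    ∑ g, ((I.d i : ℂ) * I.χ i g⁻¹ / Fintype.card H) • I.ρ j g = if j = i then 1 else 0 := by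
  classical
  obtain ⟨c, hc⟩ := I.surj (Pi.single i 1)
  have h1 : ∀ h, c h = (I.d i : ℂ) * I.χ i h⁻¹ / Fintype.card H := by
    intro h
    have := I.inversion c h
    simp only [hc] at this
    rw [Finset.sum_eq_single i] at this
    · rw [Pi.single_eq_same, one_mul] at this
      rw [eq_div_iff card_ne, mul_comm, ← this]; rfl
    · intro k _ hk; rw [Pi.single_eq_of_ne hk]; simp
    · simp
  simp only [← h1]
  rw [hc j]
  split_ifs with e
  · subst e; simp
  · exact Pi.single_eq_of_ne e _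

lemma orth (i j : Fin I.n) :
    ∑ g, I.χ i g⁻¹ * I.χ j g = if j = i then (Fintype.card H : ℂ) else 0 := by
  have := congrArg Matrix.trace (I.idem i j)
  rw [Matrix.trace_sum] at this
  simp only [Matrix.trace_smul, smul_eq_mul] at this
  have h2 : ∑ g, I.χ i g⁻¹ * I.χ j g = (Fintype.card H / I.d i : ℂ) *
      ∑ g, (I.d i : ℂ) * I.χ i g⁻¹ / Fintype.card H * (I.ρ j g).trace := by
    rw [Finset.mul_sum]
    refine Finset.sum_congr rfl (fun g _ => ?_)
    have := I.d_ne i
    have := card_ne (H := H)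
    simp only [χ]; field_simp
  rw [h2, this]
  split_ifs with e
  · subst e
    have := I.d_ne j
    simp; field_simp
  · simp

lemma χ_injective : Function.Injective I.χ := by
  intro i j e
  by_contra hne
  have h1 := I.orth i j
  have h2 := I.orth i i
  rw [if_neg (Ne.symm hne), ← e, h2, if_pos rfl] at h1
  exact card_ne h1

/-- The Frobenius formula for the number of pairs with a given commutator. -/
lemma comm_count [DecidableEq H] (h : H) :
    ∑ a : H, ∑ b : H, (if a * b * a⁻¹ * b⁻¹ = h then (1 : ℂ) else 0) =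
      Fintype.card H * ∑ i, I.χ i h⁻¹ / I.d i := by
  let c : H → ℂ := fun g => ∑ a : H, ∑ b : H, (if a * b * a⁻¹ * b⁻¹ = g then (1 : ℂ) else 0)
  have h1 : ∀ i, ∑ g, c g • I.ρ i g = ((Fintype.card H : ℂ) / I.d i) ^ 2 • 1 := by
    intro i
    have e1 : ∑ g, c g • I.ρ i g = ∑ a : H, ∑ b : H, I.ρ i (a * b * a⁻¹ * b⁻¹) := by
      simp only [c, Finset.sum_smul]
      rw [Finset.sum_comm]
      refine Finset.sum_congr rfl (fun a _ => ?_)
      rw [Finset.sum_comm]
      refine Finset.sum_congr rfl (fun b _ => ?_)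
      simp [ite_smul]
    have e2 : ∀ a : H, ∑ b : H, I.ρ i (b * a⁻¹ * b⁻¹) =
        ((Fintype.card H : ℂ) * I.χ i a⁻¹ / I.d i) • 1 := by
      intro a
      rw [I.scalar_of_comm i (∑ b : H, I.ρ i (b * a⁻¹ * b⁻¹)) (by
        intro g
        rw [Finset.sum_mul, Finset.mul_sum, ← Equiv.sum_comp (Equiv.mulLeft g)]
        refine Finset.sum_congr rfl (fun b _ => ?_)
        rw [← map_mul, ← map_mul]
        congr 1
        simp only [Equiv.coe_mulLeft]
        group)]
      congr 2
      rw [Matrix.trace_sum]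
      change ∑ b : H, I.χ i (b * a⁻¹ * b⁻¹) = _
      simp [χ_conj]
    have e3 : ∀ a : H, ∑ b : H, I.ρ i (a * b * a⁻¹ * b⁻¹) =
        ((Fintype.card H : ℂ) / I.d i) ^ 2 •
          (((I.d i : ℂ) * I.χ i a⁻¹ / Fintype.card H) • I.ρ i a) := by
      intro a
      have : ∀ b : H, I.ρ i (a * b * a⁻¹ * b⁻¹) = I.ρ i a * I.ρ i (b * a⁻¹ * b⁻¹) := by
        intro b; rw [← map_mul]; congr 1; group
      simp only [this]
      rw [← Finset.mul_sum, e2, mul_smul_comm, mul_one, smul_smul]
      congr 1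
      have := I.d_ne i
      have := card_ne (H := H)
      field_simp
    rw [e1]
    simp only [e3]
    rw [← Finset.smul_sum, I.idem i i, if_pos rfl]
  have h2 := I.inversion c h
  simp only [h1] at h2
  apply mul_left_cancel₀ (card_ne (H := H))
  change _ * c h = _
  rw [← h2, Finset.mul_sum, Finset.mul_sum]
  refine Finset.sum_congr rfl (fun i _ => ?_)
  have := I.d_ne i
  simp only [smul_mul_assoc, one_mul, Matrix.trace_smul, smul_eq_mul, χ]
  field_simp

lemma matIrr (i : Fin I.n) : MatIrr (I.ρ i) := by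
  classical
  intro W hW
  have h1 : ∀ M : Matrix (Fin (I.d i)) (Fin (I.d i)) ℂ, ∀ v ∈ W, M.mulVec v ∈ W := by
    intro M v hv
    obtain ⟨c, hc⟩ := I.surj (Pi.single i M)
    have := hc i
    rw [Pi.single_eq_same] at this
    rw [← this, Matrix.sum_mulVec]
    refine W.sum_mem (fun g _ => ?_)
    rw [Matrix.smul_mulVec]
    exact W.smul_mem _ (hW g v hv)
  rw [or_iff_not_imp_left]
  intro hne
  obtain ⟨v, hv, hv0⟩ := (Submodule.ne_bot_iff W).1 hne
  obtain ⟨k, hk⟩ := Function.ne_iff.1 hv0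
  rw [eq_top_iff]
  intro w _
  have := h1 (Matrix.of (fun j l => if l = k then w j / v k else 0)) v hv
  have e : (Matrix.of (fun j l => if l = k then w j / v k else 0)).mulVec v = w := by
    ext j
    have hk' : v k ≠ 0 := hk
    simp [Matrix.mulVec, dotProduct, hk']
  rwa [e] at this

/-- Every irreducible character is one of the family. -/
lemma exists_eq {n : ℕ} (ρ : H →* Matrix (Fin n) (Fin n) ℂ) (hn : 0 < n) (h : MatIrr ρ) :
    ∃ i, n = I.d i ∧ (fun g => (ρ g).trace) = I.χ i := by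
  classical
  have hinv : Invertible (Nat.card H : ℂ) :=
    invertibleOfNonzero (by exact_mod_cast (Nat.card_pos (α := H)).ne')
  have hρ := toRep_irr ρ hn h
  have hex : ∃ i, Nonempty (Representation.Equiv (toRep ρ) (toRep (I.ρ i))) := by
    by_contra hno
    push Not at hno
    have h0 : ∀ i, ∑ g, I.χ i g * (ρ g⁻¹).trace = 0 := by
      intro i
      have hi := toRep_irr (I.ρ i) (I.pos i) (I.matIrr i)
      have := Representation.char_orthonormal (toRep (I.ρ i)) (toRep ρ)
      rw [if_neg (not_nonempty_iff.2 (hno i))] at this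
      simp only [toRep_character] at this
      rcases mul_eq_zero.1 this with h1 | h1
      · exact absurd h1 (inv_ne_zero (by exact_mod_cast (Nat.card_pos (α := H)).ne'))
      · exact h1
    have h1 : ∑ g, (∑ i, (I.d i : ℂ) * I.χ i g) * (ρ g⁻¹).trace = 0 := by
      simp only [Finset.sum_mul]
      rw [Finset.sum_comm]
      refine Finset.sum_eq_zero (fun i _ => ?_)
      simp only [mul_assoc]
      rw [← Finset.mul_sum, h0, mul_zero]
    simp only [I.reg', ite_mul, zero_mul, Finset.sum_ite_eq', Finset.mem_univ, if_true, inv_one,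
      map_one, Matrix.trace_one, Fintype.card_fin] at h1
    rcases mul_eq_zero.1 h1 with h2 | h2
    · exact card_ne h2
    · exact hn.ne' (by exact_mod_cast h2)
  obtain ⟨i, ⟨φ⟩⟩ := hex
  have hc : (fun g => (ρ g).trace) = I.χ i := by
    ext g
    have := congrFun (Representation.char_iso φ) g
    rwa [toRep_character, toRep_character] at this
  refine ⟨i, ?_, hc⟩
  have := congrFun hc 1
  rw [χ_one] at this
  simpa using this

/-- Counting irreducible characters with a property. -/
lemma card_irr (P : ℕ → (H → ℂ) → Prop) [DecidablePred (fun i => P (I.d i) (I.χ i))] :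
    Nat.card {f : H → ℂ // ∃ n : ℕ, ∃ ρ : H →* Matrix (Fin n) (Fin n) ℂ,
      0 < n ∧ P n f ∧ MatIrr ρ ∧ f = fun g => (ρ g).trace} =
      (univ.filter (fun i => P (I.d i) (I.χ i))).card := by
  rw [← Fintype.card_subtype, ← Nat.card_eq_fintype_card]
  symm
  refine Nat.card_congr (Equiv.ofBijective
    (fun i => ⟨I.χ i.1, I.d i.1, I.ρ i.1, I.pos _, i.2, I.matIrr _, rfl⟩) ⟨?_, ?_⟩)
  · intro i j e
    exact Subtype.ext (I.χ_injective (congrArg Subtype.val e))
  · rintro ⟨f, n, ρ, hn, hP, hirr, rfl⟩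
    obtain ⟨i, h1, h2⟩ := I.exists_eq ρ hn hirr
    exact ⟨⟨i, h1 ▸ h2 ▸ hP⟩, Subtype.ext h2.symm⟩

end IrrData

end Pool.Agent.Lib.MP_b6945b_al
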