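import Pool.Agent.Lib.MP_b6945b_al.Chains

set_option autoImplicit false

/-!
Conjugation of chains, and the conjugation actions on pairs and triples.
-/

namespace Pool.Agent.Lib.MP_b6945b_al

open Finset Pointwise

variable {G : Type} [Group G]

/-- Conjugate of a chain. -/
def cj (g : G) (σ : Finset (Subgroup G)) : Finset (Subgroup G) :=
  σ.map (MulAction.toPerm (MulAut.conj g)).toEmbedding

lemma mem_cj {g : G} {σ : Finset (Subgroup G)} {P : Subgroup G} :
    P ∈ cj g σ ↔ ∃ P' ∈ σ, MulAut.conj g • P' = P := by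
  unfold cj; rw [Finset.mem_map]; rfl

lemma cj_one (σ : Finset (Subgroup G)) : cj 1 σ = σ := by
  ext P; simp [mem_cj]

lemma cj_mul (g h : G) (σ : Finset (Subgroup G)) : cj (g * h) σ = cj g (cj h σ) := by
  ext P
  simp only [mem_cj, map_mul, mul_smul]
  constructor
  · rintro ⟨P', h1, rfl⟩; exact ⟨_, ⟨P', h1, rfl⟩, rfl⟩
  · rintro ⟨_, ⟨P', h1, rfl⟩, rfl⟩; exact ⟨P', h1, rfl⟩

lemma card_cj (g : G) (σ : Finset (Subgroup G)) : (cj g σ).card = σ.card := Finset.card_map _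

lemma sgn_cj (g : G) (σ : Finset (Subgroup G)) : sgn (cj g σ) = sgn σ := by
  unfold sgn; rw [card_cj]

lemma mem_conj_smul {g x : G} {P : Subgroup G} : x ∈ MulAut.conj g • P ↔ g⁻¹ * x * g ∈ P := by
  rw [Subgroup.mem_pointwise_smul_iff_inv_smul_mem, ← map_inv, MulAut.smul_def, MulAut.conj_apply,
    inv_inv]

lemma conj_smul_eq_iff {g : G} {P : Subgroup G} :
    MulAut.conj g • P = P ↔ g ∈ Subgroup.normalizer (P : Set G) := by
  rw [Subgroup.mem_normalizer_iff'', Subgroup.ext_iff]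
  simp only [mem_conj_smul]
  exact forall_congr' (fun _ => Iff.comm)

lemma IsPChain.cj {p : ℕ} {σ : Finset (Subgroup G)} (h : IsPChain p σ) (g : G) :
    IsPChain p (cj g σ) := by
  refine ⟨?_, ?_⟩
  · intro P hP P' hP' hne
    obtain ⟨R, hR, rfl⟩ := mem_cj.1 (Finset.mem_coe.1 hP)
    obtain ⟨R', hR', rfl⟩ := mem_cj.1 (Finset.mem_coe.1 hP')
    simp only [Subgroup.pointwise_smul_le_pointwise_smul_iff]
    exact h.1.total (Finset.mem_coe.2 hR) (Finset.mem_coe.2 hR')
  · intro P hP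
    obtain ⟨R, hR, rfl⟩ := mem_cj.1 hP
    refine ⟨(h.2 R hR).1.map _, ?_⟩
    intro e
    apply (h.2 R hR).2
    have := congrArg (fun S => (MulAut.conj g)⁻¹ • S) e
    simpa using this

lemma isPChain_cj {p : ℕ} {σ : Finset (Subgroup G)} (g : G) :
    IsPChain p (cj g σ) ↔ IsPChain p σ := by
  refine ⟨fun h => ?_, fun h => h.cj g⟩
  have := h.cj g⁻¹
  rwa [← cj_mul, inv_mul_cancel, cj_one] at this

lemma conj_mem_stab_cj {g x : G} {σ : Finset (Subgroup G)} (h : x ∈ stab σ) :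
    g * x * g⁻¹ ∈ stab (cj g σ) := by
  rw [mem_stab] at h ⊢
  intro P hP
  obtain ⟨R, hR, rfl⟩ := mem_cj.1 hP
  rw [← conj_smul_eq_iff, ← mul_smul, ← map_mul, inv_mul_cancel_right, map_mul, mul_smul,
    conj_smul_eq_iff.2 (h R hR)]

lemma conj_mem_stab_cj_iff {g x : G} {σ : Finset (Subgroup G)} :
    g * x * g⁻¹ ∈ stab (cj g σ) ↔ x ∈ stab σ := by
  refine ⟨fun h => ?_, conj_mem_stab_cj⟩
  have := conj_mem_stab_cj (g := g⁻¹) h
  rw [← cj_mul, inv_mul_cancel, cj_one] at this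
  simpa [mul_assoc] using this

lemma cj_eq_of_mem_stab {g : G} {σ : Finset (Subgroup G)} (h : g ∈ stab σ) : cj g σ = σ := by
  ext P
  rw [mem_cj]
  constructor
  · rintro ⟨R, hR, rfl⟩
    rwa [conj_smul_eq_iff.2 (mem_stab.1 h R hR)]
  · intro hP
    exact ⟨P, hP, conj_smul_eq_iff.2 (mem_stab.1 h P hP)⟩

lemma cj_eq_iff [Finite G] {g : G} {σ : Finset (Subgroup G)}
    (hσ : IsChain (· ≤ ·) (σ : Set (Subgroup G))) : cj g σ = σ ↔ g ∈ stab σ := by
  refine ⟨fun h => ?_, cj_eq_of_mem_stab⟩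
  rw [mem_stab]
  intro P hP
  rw [← conj_smul_eq_iff]
  have hm : MulAut.conj g • P ∈ σ := by rw [← h]; exact mem_cj.2 ⟨P, hP, rfl⟩
  have hc : Nat.card (MulAut.conj g • P : Subgroup G) = Nat.card P :=
    (Nat.card_congr (Subgroup.equivSMul (MulAut.conj g) P).toEquiv).symm
  rcases hσ.total (Finset.mem_coe.2 hm) (Finset.mem_coe.2 hP) with hle | hle
  · exact Subgroup.eq_of_le_of_card_ge hle hc.ge
  · exact (Subgroup.eq_of_le_of_card_ge hle hc.le).symm

/-- Triples consisting of two elements and a chain. -/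
@[ext] structure Tri (G : Type) [Group G] where
  /-- first element -/
  a : G
  /-- second element -/
  b : G
  /-- the chain -/
  σ : Finset (Subgroup G)

/-- Pairs consisting of an element and a chain. -/
@[ext] structure Pr (G : Type) [Group G] where
  /-- the element -/
  a : G
  /-- the chain -/
  σ : Finset (Subgroup G)

instance : MulAction G (Tri G) where
  smul g x := ⟨g * x.a * g⁻¹, g * x.b * g⁻¹, cj g x.σ⟩
  one_smul x := by
    change Tri.mk _ _ _ = _
    ext1 <;> simp [cj_one]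
  mul_smul g h x := by
    change Tri.mk _ _ _ = Tri.mk (g * (h * x.a * h⁻¹) * g⁻¹) (g * (h * x.b * h⁻¹) * g⁻¹)
      (cj g (cj h x.σ))
    ext1
    · simp [mul_assoc]
    · simp [mul_assoc]
    · exact cj_mul _ _ _

instance : MulAction G (Pr G) where
  smul g x := ⟨g * x.a * g⁻¹, cj g x.σ⟩
  one_smul x := by
    change Pr.mk _ _ = _
    ext1 <;> simp [cj_one]
  mul_smul g h x := by
    change Pr.mk _ _ = Pr.mk (g * (h * x.a * h⁻¹) * g⁻¹) (cj g (cj h x.σ))
    ext1
    · simp [mul_assoc]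
    · exact cj_mul _ _ _

lemma Tri.smul_def (g : G) (x : Tri G) :
    g • x = ⟨g * x.a * g⁻¹, g * x.b * g⁻¹, cj g x.σ⟩ := rfl

lemma Pr.smul_def (g : G) (x : Pr G) : g • x = ⟨g * x.a * g⁻¹, cj g x.σ⟩ := rfl

/-- Triples as a product. -/
def Tri.equivProd : Tri G ≃ G × G × Finset (Subgroup G) where
  toFun x := (x.a, x.b, x.σ)
  invFun y := ⟨y.1, y.2.1, y.2.2⟩
  left_inv _ := rfl
  right_inv _ := rfl

/-- Triples as pairs with an extra element. -/
def Tri.equivPr : Tri G ≃ Pr G × G where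
  toFun x := (⟨x.a, x.σ⟩, x.b)
  invFun y := ⟨y.1.a, y.2, y.1.σ⟩
  left_inv _ := rfl
  right_inv _ := rfl

/-- Pairs as a product. -/
def Pr.equivProd : Pr G ≃ G × Finset (Subgroup G) where
  toFun x := (x.a, x.σ)
  invFun y := ⟨y.1, y.2⟩
  left_inv _ := rfl
  right_inv _ := rfl

instance [Finite G] : Finite (Tri G) := Finite.of_equiv _ Tri.equivProd.symm

instance [Finite G] : Finite (Pr G) := Finite.of_equiv _ Pr.equivProd.symm

/-- The group acting on itself from both sides. -/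
@[ext] structure Bi (G : Type) where
  /-- the element -/
  v : G

instance : MulAction (G × G) (Bi G) where
  smul g x := ⟨g.1 * x.v * g.2⁻¹⟩
  one_smul x := by
    change Bi.mk _ = _
    ext1; simp
  mul_smul g h x := by
    change Bi.mk _ = Bi.mk (g.1 * (h.1 * x.v * h.2⁻¹) * g.2⁻¹)
    ext1; simp [mul_assoc]

lemma Bi.smul_def (g : G × G) (x : Bi G) : g • x = ⟨g.1 * x.v * g.2⁻¹⟩ := rfl

/-- The underlying element. -/
def Bi.equiv : Bi G ≃ G where
  toFun x := x.v
  invFun y := ⟨y⟩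
  left_inv _ := rfl
  right_inv _ := rfl

instance [Finite G] : Finite (Bi G) := Finite.of_equiv _ Bi.equiv.symm

end Pool.Agent.Lib.MP_b6945b_al
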