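import Mathlib

set_option autoImplicit false

/-!
A transfer homomorphism for permutations commuting with the action of a finite commutative group
on a finite set carrying an integer weight supported on free points.
-/

namespace Pool.Agent.Lib.MP_b6945b_al

open Finset MulAction

section General

/-- If `n` divides `|orbit y| * φ y` for an invariant `φ`, then `n` divides the sum of `φ`. -/
lemma dvd_sum_of_orbit {Γ Y : Type} [Group Γ] [MulAction Γ Y] [Fintype Y] (φ : Y → ℤ)
    (hφ : ∀ (g : Γ) y, φ (g • y) = φ y) (n : ℤ)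
    (h : ∀ y, n ∣ (Nat.card (orbit Γ y) : ℤ) * φ y) : n ∣ ∑ y, φ y := by
  classical
  let _ : Fintype (orbitRel.Quotient Γ Y) := Fintype.ofFinite _
  rw [← Finset.sum_fiberwise (s := univ) (g := fun y => (Quotient.mk (orbitRel Γ Y) y :
    orbitRel.Quotient Γ Y))]
  refine Finset.dvd_sum ?_
  intro ω _
  have h1 : ∀ y ∈ univ.filter (fun y => (Quotient.mk (orbitRel Γ Y) y :
      orbitRel.Quotient Γ Y) = ω), φ y = φ ω.out := by
    intro y hy
    have hy' := (Finset.mem_filter.1 hy).2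
    have : (orbitRel Γ Y) y ω.out := Quotient.exact (hy'.trans (Quotient.out_eq ω).symm)
    obtain ⟨g, hg⟩ := (orbitRel_apply.1 this)
    rw [← hg]; exact hφ g _
  rw [Finset.sum_congr rfl h1, Finset.sum_const, nsmul_eq_mul]
  have h2 : (univ.filter (fun y => (Quotient.mk (orbitRel Γ Y) y :
      orbitRel.Quotient Γ Y) = ω)).card = Nat.card (orbit Γ ω.out) := by
    rw [Nat.card_eq_fintype_card, Fintype.card_subtype]
    congr 1
    ext y
    simp only [Finset.mem_filter, Finset.mem_univ, true_and]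
    rw [← orbitRel_apply]
    constructor
    · intro hy; exact Quotient.exact (hy.trans (Quotient.out_eq ω).symm)
    · intro hy; exact (Quotient.sound hy).trans (Quotient.out_eq ω)
  rw [h2]; exact h _

lemma card_orbit_mul_card_stabilizer {Γ Y : Type} [Group Γ] [MulAction Γ Y] (y : Y) :
    Nat.card (orbit Γ y) * Nat.card (stabilizer Γ y) = Nat.card Γ := by
  rw [← Nat.card_prod]
  exact Nat.card_congr (orbitProdStabilizerEquivGroup Γ y)

/-- If `|stabilizer y| * n` divides `φ y` for an invariant `φ`, then `|Γ| * n` divides the sum. -/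
lemma dvd_sum_of_stabilizer {Γ Y : Type} [Group Γ] [MulAction Γ Y] [Fintype Y] (φ : Y → ℤ)
    (hφ : ∀ (g : Γ) y, φ (g • y) = φ y) (n : ℤ)
    (h : ∀ y, (Nat.card (stabilizer Γ y) : ℤ) * n ∣ φ y) : (Nat.card Γ : ℤ) * n ∣ ∑ y, φ y := by
  refine dvd_sum_of_orbit φ hφ _ ?_
  intro y
  rw [← card_orbit_mul_card_stabilizer (Γ := Γ) y, Nat.cast_mul, mul_assoc]
  exact mul_dvd_mul_left _ (h y)

/-- Cycle decomposition of a product over a set all of whose points have period exactly `k`. -/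
lemma cycle_prod {Ω M : Type} [CommGroup M] (τ : Equiv.Perm Ω) (k : ℕ) (hk : 0 < k)
    (F : Ω → ℤ) (hF : ∀ x, F (τ x) = F x) (C : Ω → M) (c : M) (s : Finset Ω)
    (hs : ∀ x ∈ s, τ x ∈ s) (hper : ∀ x ∈ s, (τ ^ k) x = x)
    (hmin : ∀ x ∈ s, ∀ i, 0 < i → i < k → (τ ^ i) x ≠ x)
    (hc : ∀ x ∈ s, ∏ i ∈ range k, C ((τ ^ i) x) = c) :
    ∃ m : ℤ, ∑ x ∈ s, F x = k * m ∧ ∏ x ∈ s, C x ^ F x = c ^ m := by
  classical
  induction s using Finset.strongInduction with
  | H s ih =>
  rcases s.eq_empty_or_nonempty with rfl | ⟨x, hx⟩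
  · exact ⟨0, by simp, by simp⟩
  have hpow : ∀ i, (τ ^ i) x ∈ s := by
    intro i
    induction i with
    | zero => simpa using hx
    | succ i ihi => rw [pow_succ', Equiv.Perm.mul_apply]; exact hs _ ihi
  have hFpow : ∀ i, F ((τ ^ i) x) = F x := by
    intro i
    induction i with
    | zero => simp
    | succ i ihi => rw [pow_succ', Equiv.Perm.mul_apply, hF, ihi]
  have hinj : Set.InjOn (fun i => (τ ^ i) x) (range k : Set ℕ) := by
    have aux : ∀ i j, i < j → j < k → (τ ^ i) x ≠ (τ ^ j) x := by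
      intro i j hij hj h
      obtain ⟨d, rfl⟩ := Nat.exists_eq_add_of_lt hij
      have h2 : (τ ^ i) x = (τ ^ i) ((τ ^ (d + 1)) x) := by
        rw [h, ← Equiv.Perm.mul_apply, ← pow_add, add_assoc]
      exact hmin x hx (d + 1) (by omega) (by omega) ((τ ^ i).injective h2).symm
    intro i hi j hj h
    simp only [Finset.coe_range, Set.mem_Iio] at hi hj
    rcases lt_trichotomy i j with hlt | heq | hgt
    · exact absurd h (aux i j hlt hj)
    · exact heq
    · exact absurd h.symm (aux j i hgt hi)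
  set o := (range k).image (fun i => (τ ^ i) x) with ho
  have hos : o ⊆ s := by
    intro y hy
    obtain ⟨i, _, rfl⟩ := Finset.mem_image.1 hy
    exact hpow i
  have hxo : x ∈ o := Finset.mem_image.2 ⟨0, Finset.mem_range.2 hk, by simp⟩
  have hlt : s \ o ⊂ s := Finset.sdiff_ssubset hos ⟨x, hxo⟩
  obtain ⟨m, hm1, hm2⟩ := ih (s \ o) hlt (by
      intro y hy
      rw [Finset.mem_sdiff] at hy ⊢
      refine ⟨hs y hy.1, ?_⟩
      intro hyo
      apply hy.2
      obtain ⟨i, hi, hiy⟩ := Finset.mem_image.1 hyo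
      rw [Finset.mem_range] at hi
      rcases Nat.eq_zero_or_pos i with rfl | hi0
      · refine Finset.mem_image.2 ⟨k - 1, Finset.mem_range.2 (by omega), ?_⟩
        apply τ.injective
        rw [← hiy, ← Equiv.Perm.mul_apply, ← pow_succ', Nat.sub_add_cancel hk, hper x hx]
        simp
      · refine Finset.mem_image.2 ⟨i - 1, Finset.mem_range.2 (by omega), ?_⟩
        apply τ.injective
        rw [← hiy, ← Equiv.Perm.mul_apply, ← pow_succ', Nat.sub_add_cancel hi0])
    (fun y hy => hper y (Finset.mem_sdiff.1 hy).1)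
    (fun y hy => hmin y (Finset.mem_sdiff.1 hy).1)
    (fun y hy => hc y (Finset.mem_sdiff.1 hy).1)
  refine ⟨m + F x, ?_, ?_⟩
  · rw [← Finset.sum_sdiff hos, hm1, ho, Finset.sum_image hinj]
    simp only [hFpow, Finset.sum_const, Finset.card_range, nsmul_eq_mul]
    ring
  · rw [← Finset.prod_sdiff hos, hm2, ho, Finset.prod_image hinj]
    simp only [hFpow]
    rw [Finset.prod_zpow, hc x hx, zpow_add]

lemma zpow_sum_aux {Ω M : Type} [CommGroup M] (u : M) (s : Finset Ω) (F : Ω → ℤ) :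
    ∏ x ∈ s, u ^ F x = u ^ ∑ x ∈ s, F x := by
  classical
  induction s using Finset.induction_on with
  | empty => simp
  | insert x s hx ih => rw [Finset.prod_insert hx, Finset.sum_insert hx, ih, zpow_add]

end General

variable (Q : Type) {X : Type} [CommGroup Q] [MulAction Q X]

/-- A point with trivial stabiliser. -/
def Free (x : X) : Prop := ∀ q : Q, q • x = x → q = 1

/-- The class of a point. -/
def cls (x : X) : orbitRel.Quotient Q X := Quotient.mk (orbitRel Q X) x

lemma cls_smul (q : Q) (x : X) : cls Q (q • x) = cls Q x :=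
  Quotient.sound (orbitRel_apply.2 ⟨q, rfl⟩)

lemma cls_out (ω : orbitRel.Quotient Q X) : cls Q ω.out = ω := Quotient.out_eq ω

lemma exists_smul_of_cls {x y : X} (h : cls Q x = cls Q y) : ∃ q : Q, q • y = x :=
  orbitRel_apply.1 (Quotient.exact h)

lemma exists_pot (x : X) : ∃ q : Q, q • (cls Q x).out = x :=
  exists_smul_of_cls Q (cls_out Q _).symm

/-- The element moving the chosen representative of the orbit to the given point. -/
noncomputable def pot (x : X) : Q := Classical.choose (exists_pot Q x)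

lemma pot_spec (x : X) : pot Q x • (cls Q x).out = x := Classical.choose_spec (exists_pot Q x)

variable {Q}

lemma Free.smul {x : X} (h : Free Q x) (q : Q) : Free Q (q • x) := by
  intro r hr
  apply h
  rw [smul_smul, mul_comm, ← smul_smul] at hr
  exact MulAction.injective q hr

lemma Free.eq {x : X} (h : Free Q x) {q r : Q} (e : q • x = r • x) : q = r := by
  have : (r⁻¹ * q) • x = x := by rw [mul_smul, e, inv_smul_smul]
  have := h _ this
  exact (inv_mul_eq_one.1 this).symm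

lemma pot_smul {x : X} (h : Free Q x) (q : Q) : pot Q (q • x) = q * pot Q x := by
  have h0 : Free Q (cls Q x).out := by
    have := h.smul (pot Q x)⁻¹
    rwa [show (pot Q x)⁻¹ • x = (cls Q x).out from by
      rw [inv_smul_eq_iff, pot_spec]] at this
  apply h0.eq
  rw [mul_smul, pot_spec]
  conv_lhs => rw [← cls_smul Q q x]
  rw [pot_spec]

variable (Q)

/-- Permutations commuting with the action. -/
def Comm (α : Equiv.Perm X) : Prop := ∀ (q : Q) x, α (q • x) = q • α x

/-- Invariant weights supported on free points. -/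
def Good (f : X → ℤ) : Prop := (∀ (q : Q) x, f (q • x) = f x) ∧ ∀ x, f x ≠ 0 → Free Q x

/-- The cocycle of a permutation. -/
noncomputable def coc (α : Equiv.Perm X) (x : X) : Q := pot Q (α x) * (pot Q x)⁻¹

variable {Q}

lemma Comm.free {α : Equiv.Perm X} (hα : Comm Q α) {x : X} (h : Free Q x) : Free Q (α x) := by
  intro q hq
  rw [← hα] at hq
  exact h q (α.injective hq)

lemma Comm.mul {α β : Equiv.Perm X} (hα : Comm Q α) (hβ : Comm Q β) : Comm Q (α * β) := by
  intro q x
  rw [Equiv.Perm.mul_apply, Equiv.Perm.mul_apply, hβ, hα]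

lemma Comm.pow {α : Equiv.Perm X} (hα : Comm Q α) (n : ℕ) : Comm Q (α ^ n) := by
  induction n with
  | zero => intro q x; simp
  | succ n ih => rw [pow_succ]; exact ih.mul hα

lemma coc_smul {α : Equiv.Perm X} (hα : Comm Q α) {x : X} (h : Free Q x) (q : Q) :
    coc Q α (q • x) = coc Q α x := by
  unfold coc
  rw [hα, pot_smul (hα.free h), pot_smul h, mul_inv, mul_mul_mul_comm, mul_inv_cancel, one_mul]

lemma coc_mul (α β : Equiv.Perm X) (x : X) :
    coc Q (α * β) x = coc Q α (β x) * coc Q β x := by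
  unfold coc
  rw [Equiv.Perm.mul_apply]
  group

lemma coc_of_eq_smul {α : Equiv.Perm X} {x : X} (h : Free Q x) {q : Q} (e : α x = q • x) :
    coc Q α x = q := by
  unfold coc
  rw [e, pot_smul h, mul_inv_cancel_right]

lemma coc_pow (α : Equiv.Perm X) (x : X) (n : ℕ) :
    coc Q (α ^ n) x = ∏ i ∈ range n, coc Q α ((α ^ i) x) := by
  induction n with
  | zero => simp [coc]
  | succ n ih => rw [pow_succ', coc_mul, ih, Finset.prod_range_succ, mul_comm]

/-- The permutation induced on orbits. -/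
def Comm.bar {α : Equiv.Perm X} (hα : Comm Q α) : Equiv.Perm (orbitRel.Quotient Q X) :=
  Quotient.congr α (by
    intro x y
    rw [orbitRel_apply, orbitRel_apply]
    constructor
    · rintro ⟨q, rfl⟩; exact ⟨q, (hα q y).symm⟩
    · rintro ⟨q, hq⟩
      refine ⟨q, α.injective ?_⟩
      rw [← hq]; exact hα q y)

lemma Comm.bar_cls {α : Equiv.Perm X} (hα : Comm Q α) (x : X) :
    hα.bar (cls Q x) = cls Q (α x) := rfl

lemma Comm.bar_pow_cls {α : Equiv.Perm X} (hα : Comm Q α) (n : ℕ) (x : X) :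
    (hα.bar ^ n) (cls Q x) = cls Q ((α ^ n) x) := by
  induction n with
  | zero => simp
  | succ n ih => rw [pow_succ', pow_succ', Equiv.Perm.mul_apply, Equiv.Perm.mul_apply, ih,
      hα.bar_cls]

lemma inv_out_cls {M : Type} (g : X → M) (hg : ∀ (q : Q) x, g (q • x) = g x) (x : X) :
    g (cls Q x).out = g x := by
  conv_rhs => rw [← pot_spec Q x, hg]

lemma weight_inv {α : Equiv.Perm X} (hα : Comm Q α) {f : X → ℤ} (hf : Good Q f) (q : Q) (x : X) :
    coc Q α (q • x) ^ f (q • x) = coc Q α x ^ f x := by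
  rw [hf.1]
  by_cases h : f x = 0
  · rw [h, zpow_zero, zpow_zero]
  · rw [coc_smul hα (hf.2 x h)]

variable [Fintype (orbitRel.Quotient Q X)]

variable (Q) in
/-- The transfer. -/
noncomputable def V (f : X → ℤ) (α : Equiv.Perm X) : Q :=
  ∏ ω : orbitRel.Quotient Q X, coc Q α ω.out ^ f ω.out

lemma V_mul {f : X → ℤ} (hf : Good Q f) {α β : Equiv.Perm X} (hα : Comm Q α) (hβ : Comm Q β)
    (hfβ : ∀ x, f (β x) = f x) : V Q f (α * β) = V Q f α * V Q f β := by
  unfold V
  simp only [coc_mul, mul_zpow]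
  rw [Finset.prod_mul_distrib]
  congr 1
  rw [← Equiv.prod_comp hβ.bar (fun ω => coc Q α ω.out ^ f ω.out)]
  refine Finset.prod_congr rfl ?_
  intro ω _
  conv_rhs => rw [← cls_out Q ω, hβ.bar_cls]
  rw [inv_out_cls (fun x => coc Q α x ^ f x) (weight_inv hα hf), hfβ]

lemma V_pow {f : X → ℤ} (hf : Good Q f) {α : Equiv.Perm X} (hα : Comm Q α)
    (hfα : ∀ x, f (α x) = f x) (n : ℕ) : V Q f (α ^ n) = V Q f α ^ n := by
  induction n with
  | zero => simp [V, coc]
  | succ n ih => rw [pow_succ, V_mul hf (hα.pow n) hα hfα, ih, pow_succ]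

lemma V_of_eq_smul {f : X → ℤ} (hf : Good Q f) {α : Equiv.Perm X} {u : Q}
    (e : ∀ x, f x ≠ 0 → α x = u • x) :
    V Q f α = u ^ (∑ ω : orbitRel.Quotient Q X, f ω.out) := by
  unfold V
  rw [← zpow_sum_aux]
  refine Finset.prod_congr rfl ?_
  intro ω _
  by_cases h : f ω.out = 0
  · rw [h, zpow_zero, zpow_zero]
  · rw [coc_of_eq_smul (hf.2 _ h) (e _ h)]

lemma card_mul_sum_out [Fintype X] {f : X → ℤ} (hf : Good Q f) :
    (Nat.card Q : ℤ) * ∑ ω : orbitRel.Quotient Q X, f ω.out = ∑ x, f x := by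
  classical
  rw [← Finset.sum_fiberwise (s := univ) (g := fun x : X => cls Q x) f, Finset.mul_sum]
  refine Finset.sum_congr rfl ?_
  intro ω _
  have h1 : ∀ x ∈ univ.filter (fun x => cls Q x = ω), f x = f ω.out := by
    intro x hx
    rw [← (Finset.mem_filter.1 hx).2, inv_out_cls f hf.1]
  rw [Finset.sum_congr rfl h1, Finset.sum_const, nsmul_eq_mul]
  by_cases h : f ω.out = 0
  · rw [h, mul_zero, mul_zero]
  congr 2
  rw [← Fintype.card_subtype, ← Nat.card_eq_fintype_card]
  refine Nat.card_congr (Equiv.ofBijective (fun q : Q => ⟨q • ω.out, by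
    rw [cls_smul, cls_out]⟩) ⟨?_, ?_⟩)
  · intro q r e
    exact (hf.2 _ h).eq (congrArg Subtype.val e)
  · rintro ⟨x, hx⟩
    obtain ⟨q, hq⟩ := exists_smul_of_cls Q (hx.trans (cls_out Q ω).symm)
    exact ⟨q, Subtype.ext hq⟩

variable (Q) in
/-- The type of a point: its stabiliser for the joint action of `Q` and the powers of `τ`. -/
def ty (τ : Equiv.Perm X) (x : X) : Set (Q × ℕ) := {z | (τ ^ z.2) x = z.1 • x}

omit [Fintype (orbitRel.Quotient Q X)] in
lemma ty_smul {τ : Equiv.Perm X} (hτ : Comm Q τ) (q : Q) (x : X) :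
    ty Q τ (q • x) = ty Q τ x := by
  ext ⟨r, i⟩
  simp only [ty, Set.mem_ofPred_eq]
  rw [hτ.pow i, smul_smul, mul_comm, ← smul_smul]
  exact (MulAction.injective q).eq_iff

omit [Fintype (orbitRel.Quotient Q X)] in
lemma ty_apply {τ : Equiv.Perm X} (hτ : Comm Q τ) (x : X) :
    ty Q τ (τ x) = ty Q τ x := by
  ext ⟨r, i⟩
  simp only [ty, Set.mem_ofPred_eq]
  rw [← hτ, ← Equiv.Perm.mul_apply, ← pow_succ, pow_succ', Equiv.Perm.mul_apply]
  exact τ.injective.eq_iff

open Classical in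
/-- The transfer of `τ` is trivial when the weight of each type is divisible enough. -/
theorem V_eq_one [Finite Q] [Fintype X] {f : X → ℤ} (hf : Good Q f) {τ : Equiv.Perm X}
    (hτ : Comm Q τ) (hfτ : ∀ x, f (τ x) = f x)
    (h : ∀ x₀, f x₀ ≠ 0 → ∃ N : ℕ, 0 < N ∧ (τ ^ N) x₀ = x₀ ∧
      (Nat.card Q : ℤ) * N ∣ ∑ x ∈ univ.filter (fun x => ty Q τ x = ty Q τ x₀), f x) :
    V Q f τ = 1 := by
  unfold V
  rw [← Finset.prod_filter_of_ne (p := fun ω : orbitRel.Quotient Q X => f ω.out ≠ 0)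
    (by intro ω _ hne h0; rw [h0, zpow_zero] at hne; exact hne rfl)]
  rw [← Finset.prod_fiberwise_of_maps_to
    (t := (univ.filter (fun ω : orbitRel.Quotient Q X => f ω.out ≠ 0)).image
      (fun ω => ty Q τ ω.out)) (g := fun ω => ty Q τ ω.out)
      (fun ω hω => Finset.mem_image_of_mem _ hω)]
  refine Finset.prod_eq_one ?_
  intro Δ hΔ
  obtain ⟨ω₀, hω₀, rfl⟩ := Finset.mem_image.1 hΔ
  have hf0 : f ω₀.out ≠ 0 := (Finset.mem_filter.1 hω₀).2
  set x₀ := ω₀.out with hx₀
  obtain ⟨N, hN0, hNx, hdvd⟩ := h x₀ hf0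
  have hex : ∃ k, 0 < k ∧ ∃ q : Q, (τ ^ k) x₀ = q • x₀ := ⟨N, hN0, 1, by rw [hNx, one_smul]⟩
  obtain ⟨hk0, c, hc⟩ := Nat.find_spec hex
  set k := Nat.find hex with hk
  have hkmin : ∀ i, 0 < i → i < k → ∀ q : Q, (τ ^ i) x₀ ≠ q • x₀ := by
    intro i hi hik q e
    exact Nat.find_min hex hik ⟨hi, q, e⟩
  set s := (univ.filter (fun ω : orbitRel.Quotient Q X => f ω.out ≠ 0)).filter
    (fun ω => ty Q τ ω.out = ty Q τ x₀) with hs
  have hmem : ∀ ω, ω ∈ s ↔ f ω.out ≠ 0 ∧ ty Q τ ω.out = ty Q τ x₀ := by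
    intro ω; simp [hs]
  have hty : ∀ ω ∈ s, ∀ (q : Q) i, (τ ^ i) ω.out = q • ω.out ↔ (τ ^ i) x₀ = q • x₀ := by
    intro ω hω q i
    have := ((hmem ω).1 hω).2
    exact Set.ext_iff.1 this (q, i)
  have hbar : ∀ ω i, (hτ.bar ^ i) ω = cls Q ((τ ^ i) ω.out) := by
    intro ω i
    conv_lhs => rw [← cls_out Q ω]
    exact hτ.bar_pow_cls i _
  have hfpow : ∀ i x, f ((τ ^ i) x) = f x := by
    intro i
    induction i with
    | zero => simp
    | succ i ih => intro x; rw [pow_succ', Equiv.Perm.mul_apply, hfτ, ih]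
  obtain ⟨m, hm1, hm2⟩ := cycle_prod hτ.bar k hk0 (fun ω => f ω.out) (by
      intro ω
      have := hbar ω 1
      rw [pow_one, pow_one] at this
      rw [this, inv_out_cls f hf.1, hfτ]) (fun ω => coc Q τ ω.out) c s (by
      intro ω hω
      have := hbar ω 1
      rw [pow_one, pow_one] at this
      rw [hmem] at hω ⊢
      rw [this, inv_out_cls f hf.1, hfτ, inv_out_cls (ty Q τ) (ty_smul hτ), ty_apply hτ]
      exact hω) (by
      intro ω hω
      rw [hbar, (hty ω hω c k).2 hc, cls_smul, cls_out]) (by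
      intro ω hω i hi hik e
      rw [hbar] at e
      obtain ⟨q, hq⟩ := exists_smul_of_cls Q (e.trans (cls_out Q ω).symm)
      exact hkmin i hi hik q ((hty ω hω q i).1 hq.symm)) (by
      intro ω hω
      have hfree : Free Q ω.out := hf.2 _ ((hmem ω).1 hω).1
      rw [← coc_of_eq_smul hfree ((hty ω hω c k).2 hc), coc_pow]
      refine Finset.prod_congr rfl ?_
      intro i _
      rw [hbar]
      have hfi : Free Q ((τ ^ i) ω.out) := (hτ.pow i).free hfree
      conv_rhs => rw [← pot_spec Q ((τ ^ i) ω.out)]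
      rw [coc_smul hτ]
      have := hfi.smul (pot Q ((τ ^ i) ω.out))⁻¹
      rwa [show (pot Q ((τ ^ i) ω.out))⁻¹ • ((τ ^ i) ω.out) = (cls Q ((τ ^ i) ω.out)).out from by
        rw [inv_smul_eq_iff, pot_spec]] at this)
  rw [hm2]
  -- the total weight of the type
  have hgood : Good Q (fun x => if ty Q τ x = ty Q τ x₀ then f x else 0) := by
    refine ⟨?_, ?_⟩
    · intro q x; simp only [ty_smul hτ, hf.1]
    · intro x hx
      by_cases e : ty Q τ x = ty Q τ x₀
      · simp only [e, if_true] at hx; exact hf.2 x hx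
      · simp [e] at hx
  have htot := card_mul_sum_out hgood
  rw [← Finset.sum_filter, ← Finset.sum_filter] at htot
  have hss : ∑ ω ∈ univ.filter (fun ω : orbitRel.Quotient Q X => ty Q τ ω.out = ty Q τ x₀),
      f ω.out = ∑ ω ∈ s, f ω.out := by
    rw [hs, Finset.filter_comm, Finset.sum_filter_ne_zero]
  rw [hss, hm1] at htot
  rw [← htot] at hdvd
  have hQ : (Nat.card Q : ℤ) ≠ 0 := by exact_mod_cast (Nat.card_pos (α := Q)).ne'
  have hNkm : (N : ℤ) ∣ k * m := (mul_dvd_mul_iff_left hQ).1 hdvd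
  -- `k` divides `N`
  have hfree0 : Free Q x₀ := hf.2 _ hf0
  have hkj : ∀ j : ℕ, (τ ^ (k * j)) x₀ = c ^ j • x₀ := by
    intro j
    induction j with
    | zero => simp
    | succ j ih =>
      rw [mul_add, mul_one, pow_add, Equiv.Perm.mul_apply, hc, hτ.pow, ih, smul_smul, pow_succ']
  have hkN : k ∣ N := by
    rw [Nat.dvd_iff_mod_eq_zero]
    by_contra hne
    have hpos : 0 < N % k := Nat.pos_of_ne_zero hne
    apply hkmin (N % k) hpos (Nat.mod_lt _ hk0) (c ^ (N / k))⁻¹
    have : (τ ^ N) x₀ = c ^ (N / k) • (τ ^ (N % k)) x₀ := by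
      conv_lhs => rw [← Nat.mod_add_div N k, pow_add, Equiv.Perm.mul_apply, hkj, hτ.pow]
    rw [hNx] at this
    rw [eq_inv_smul_iff, ← this]
  obtain ⟨j, rfl⟩ := hkN
  have hcj : c ^ j = 1 := hfree0 _ (by rw [← hkj, hNx])
  have hjm : (j : ℤ) ∣ m := by
    rw [Nat.cast_mul] at hNkm
    exact (mul_dvd_mul_iff_left (by exact_mod_cast hk0.ne')).1 hNkm
  obtain ⟨r, rfl⟩ := hjm
  rw [zpow_mul, zpow_natCast, hcj, one_zpow]

end Pool.Agent.Lib.MP_b6945b_al
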