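import Pool.Agent.Lib.MP_b6945b_al.Conj
import Pool.Agent.Lib.MP_b6945b_al.Transfer
import Pool.Agent.Lib.MP_b6945b_al.AbLemma

set_option autoImplicit false

/-!
The braid group acts on pairs with a fixed commutator.  The transfer of this action gives the
divisibility of the chain-weighted number of such pairs.
-/

namespace Pool.Agent.Lib.MP_b6945b_al

open Finset Pointwise MulAction

variable {G : Type} [Group G]

noncomputable instance [Finite G] : Fintype (Tri G) := Fintype.ofFinite _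
noncomputable instance [Finite G] : Fintype (Pr G) := Fintype.ofFinite _
noncomputable instance [Finite G] : Fintype (Bi G) := Fintype.ofFinite _

/-- Triples: a chain normalised by two elements with commutator `v`. -/
def W (p : ℕ) (v : G) (x : Tri G) : Prop :=
  IsPChain p x.σ ∧ x.a ∈ stab x.σ ∧ x.b ∈ stab x.σ ∧ x.a * x.b * x.a⁻¹ * x.b⁻¹ = v

open Classical in
/-- The chain-weighted number of pairs with commutator `v`. -/
noncomputable def nn [Finite G] (p : ℕ) (v : G) : ℤ :=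
  ∑ x : Tri G, if W p v x then sgn x.σ else 0

lemma sum_tri [Fintype G] [Fintype (Finset (Subgroup G))] (g : Tri G → ℤ) :
    ∑ x, g x = ∑ a, ∑ b, ∑ σ, g ⟨a, b, σ⟩ := by
  rw [← Equiv.sum_comp Tri.equivProd.symm, Fintype.sum_prod_type]
  refine Finset.sum_congr rfl (fun a _ => ?_)
  rw [Fintype.sum_prod_type]; rfl

lemma sum_tri_pr [Finite G] (g : Tri G → ℤ) :
    ∑ x, g x = ∑ y : Pr G, ∑ b : Bi G, g ⟨y.a, b.v, y.σ⟩ := by
  let _ : Fintype G := Fintype.ofFinite G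
  rw [← Equiv.sum_comp Tri.equivPr.symm, Fintype.sum_prod_type]
  refine Finset.sum_congr rfl (fun y _ => ?_)
  rw [← Equiv.sum_comp Bi.equiv]; rfl

/-- The elements of `Q` fixing an element and a chain. -/
def DD (Q : Subgroup G) (a : G) (σ : Finset (Subgroup G)) : Subgroup G :=
  stab σ ⊓ (Q ⊓ Subgroup.centralizer {a})

lemma mem_DD {Q : Subgroup G} {a : G} {σ : Finset (Subgroup G)} {q : G} :
    q ∈ DD Q a σ ↔ q ∈ stab σ ∧ q ∈ Q ∧ q * a = a * q := by
  simp [DD, Subgroup.mem_centralizer_singleton_iff]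

lemma DD_le (Q : Subgroup G) (a : G) (σ : Finset (Subgroup G)) : DD Q a σ ≤ Q :=
  fun _ h => (mem_DD.1 h).2.1

open Classical in
lemma vanish_tri [Finite G] {p : ℕ} (v : G) (Q : Subgroup G) (hQ : IsPGroup p Q) (hab : IsAb Q)
    (P : Tri G → Prop) (F : G → G → Subgroup G → Prop)
    (hPF : ∀ x, W p v x → (P x ↔ F x.a x.b (DD Q x.a x.σ)))
    (hF : ∀ a b D, D ≤ Q → F a b D → ∃ T : Subgroup G, T ≠ ⊥ ∧ T ≤ D ∧
      b ∈ Subgroup.normalizer (T : Set G)) :
    ∑ x : Tri G, (if W p v x ∧ P x then sgn x.σ else 0) = 0 := by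
  let _ : Fintype G := Fintype.ofFinite G
  let _ : Fintype (Finset (Subgroup G)) := Fintype.ofFinite _
  rw [sum_tri]
  refine Finset.sum_eq_zero (fun a _ => Finset.sum_eq_zero (fun b _ => ?_))
  by_cases hv : a * b * a⁻¹ * b⁻¹ = v
  · have := vanish_family (p := p) a b (Q ⊓ Subgroup.centralizer {a}) (hQ.to_le inf_le_left)
      (hab.mono inf_le_left)
      (fun x hx => Subgroup.mem_centralizer_singleton_iff.1 hx.2) (F a b)
      (fun D hD => hF a b D (hD.trans inf_le_left))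
    rw [Finset.sum_filter] at this
    refine Eq.trans ?_ this
    refine Finset.sum_congr rfl (fun σ _ => ?_)
    refine if_congr ?_ rfl rfl
    constructor
    · rintro ⟨h1, h2⟩
      exact ⟨h1.1, h1.2.1, h1.2.2.1, (hPF _ h1).1 h2⟩
    · rintro ⟨h1, h2, h3, h4⟩
      have hW : W p v ⟨a, b, σ⟩ := ⟨h1, h2, h3, hv⟩
      exact ⟨hW, (hPF _ hW).2 h4⟩
  · refine Finset.sum_eq_zero (fun σ _ => if_neg ?_)
    rintro ⟨h1, _⟩
    exact hv h1.2.2.2

/-- First braid generator. -/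
def al1 : Equiv.Perm (Tri G) where
  toFun x := ⟨x.a, x.b * x.a, x.σ⟩
  invFun x := ⟨x.a, x.b * x.a⁻¹, x.σ⟩
  left_inv x := by ext1 <;> simp
  right_inv x := by ext1 <;> simp

/-- Second braid generator. -/
def al2 : Equiv.Perm (Tri G) where
  toFun x := ⟨x.a * x.b⁻¹, x.b, x.σ⟩
  invFun x := ⟨x.a * x.b, x.b, x.σ⟩
  left_inv x := by ext1 <;> simp
  right_inv x := by ext1 <;> simp

lemma al1_apply (x : Tri G) : al1 x = ⟨x.a, x.b * x.a, x.σ⟩ := rfl
lemma al2_apply (x : Tri G) : al2 x = ⟨x.a * x.b⁻¹, x.b, x.σ⟩ := rfl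

lemma al1_pow (n : ℕ) (x : Tri G) : (al1 ^ n) x = ⟨x.a, x.b * x.a ^ n, x.σ⟩ := by
  induction n with
  | zero => simp
  | succ n ih =>
    rw [pow_succ', Equiv.Perm.mul_apply, ih, al1_apply]
    simp [pow_succ, mul_assoc]

lemma braid : (al1 * al2 * al1 : Equiv.Perm (Tri G)) = al2 * al1 * al2 := by
  ext1 x
  simp only [Equiv.Perm.mul_apply, al1_apply, al2_apply]
  ext1
  · group
  · group
  · rfl

lemma braid_four (x : Tri G) : ((al1 * al2 * al1 : Equiv.Perm (Tri G)) ^ 4) x =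
    ⟨(x.a * x.b * x.a⁻¹ * x.b⁻¹)⁻¹ * x.a * (x.a * x.b * x.a⁻¹ * x.b⁻¹)⁻¹⁻¹,
      (x.a * x.b * x.a⁻¹ * x.b⁻¹)⁻¹ * x.b * (x.a * x.b * x.a⁻¹ * x.b⁻¹)⁻¹⁻¹, x.σ⟩ := by
  simp only [pow_succ, pow_zero, one_mul, Equiv.Perm.mul_apply, al1_apply, al2_apply]
  ext1
  · group
  · group
  · rfl

lemma al1_smul (g : G) (x : Tri G) : al1 (g • x) = g • al1 x := by
  simp only [Tri.smul_def, al1_apply]
  ext1
  · rfl
  · group
  · rfl

lemma al2_smul (g : G) (x : Tri G) : al2 (g • x) = g • al2 x := by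
  simp only [Tri.smul_def, al2_apply]
  ext1
  · group
  · rfl
  · rfl

lemma W_al1 {p : ℕ} {v : G} (x : Tri G) : W p v (al1 x) ↔ W p v x := by
  simp only [W, al1_apply]
  have : x.a * (x.b * x.a) * x.a⁻¹ * (x.b * x.a)⁻¹ = x.a * x.b * x.a⁻¹ * x.b⁻¹ := by group
  rw [this]
  refine and_congr_right (fun _ => and_congr_right (fun ha => and_congr_left' ?_))
  exact (stab x.σ).mul_mem_cancel_right ha

lemma W_al2 {p : ℕ} {v : G} (x : Tri G) : W p v (al2 x) ↔ W p v x := by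
  simp only [W, al2_apply]
  have : x.a * x.b⁻¹ * x.b * (x.a * x.b⁻¹)⁻¹ * x.b⁻¹ = x.a * x.b * x.a⁻¹ * x.b⁻¹ := by group
  rw [this]
  refine and_congr_right (fun _ => ?_)
  constructor
  · rintro ⟨h1, h2, h3⟩
    exact ⟨((stab x.σ).mul_mem_cancel_right ((stab x.σ).inv_mem h2)).1 h1, h2, h3⟩
  · rintro ⟨h1, h2, h3⟩
    exact ⟨(stab x.σ).mul_mem h1 ((stab x.σ).inv_mem h2), h2, h3⟩

lemma W_smul' {p : ℕ} {v : G} (g : G) (x : Tri G) : W p (g * v * g⁻¹) (g • x) ↔ W p v x := by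
  simp only [W, Tri.smul_def, isPChain_cj, conj_mem_stab_cj_iff]
  have : g * x.a * g⁻¹ * (g * x.b * g⁻¹) * (g * x.a * g⁻¹)⁻¹ * (g * x.b * g⁻¹)⁻¹ =
      g * (x.a * x.b * x.a⁻¹ * x.b⁻¹) * g⁻¹ := by group
  rw [this, mul_left_inj, mul_right_inj]

lemma W_smul {p : ℕ} {v : G} {g : G} (hg : g * v = v * g) (x : Tri G) :
    W p v (g • x) ↔ W p v x := by
  have := W_smul' (p := p) (v := v) g x
  rwa [hg, mul_inv_cancel_right] at this

lemma nn_conj [Finite G] (p : ℕ) (g v : G) : nn p (g * v * g⁻¹) = nn p v := by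
  classical
  unfold nn
  rw [← Equiv.sum_comp (MulAction.toPerm g : Equiv.Perm (Tri G))]
  refine Finset.sum_congr rfl (fun x _ => ?_)
  simp only [MulAction.toPerm_apply, W_smul']
  rw [Tri.smul_def, sgn_cj]

lemma braid_pow {p : ℕ} {v : G} (m : ℕ) (x : Tri G) (hx : W p v x) :
    (((al1 * al2 * al1 : Equiv.Perm (Tri G)) ^ 4) ^ m) x = (v ^ m)⁻¹ • x := by
  induction m with
  | zero => simp
  | succ m ih =>
    rw [pow_succ', Equiv.Perm.mul_apply, ih]
    have hW : W p v ((v ^ m)⁻¹ • x) :=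
      (W_smul (by rw [(Commute.refl v).pow_left m |>.inv_left]) x).2 hx
    rw [braid_four, hW.2.2.2, pow_succ, mul_inv_rev, mul_smul]
    have hv : v⁻¹ ∈ stab ((v ^ m)⁻¹ • x).σ := by
      have h1 := hW.2.1
      have h2 := hW.2.2.1
      have h3 := Subgroup.inv_mem _ (Subgroup.mul_mem _ (Subgroup.mul_mem _
        (Subgroup.mul_mem _ h1 h2) (Subgroup.inv_mem _ h1)) (Subgroup.inv_mem _ h2))
      rwa [hW.2.2.2] at h3
    conv_rhs => rw [Tri.smul_def v⁻¹, cj_eq_of_mem_stab hv]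

lemma tau_eq_iff [Finite G] {p : ℕ} (Q : Subgroup G) (m i : ℕ) (x : Tri G)
    (hx : IsPChain p x.σ) (q : Q) :
    ((al1 ^ m) ^ i) x = q • x ↔
      (q : G) ∈ DD Q x.a x.σ ∧ x.b * (x.a ^ m) ^ i = q * x.b * (q : G)⁻¹ := by
  rw [← pow_mul, al1_pow, Subgroup.smul_def, Tri.smul_def, Tri.mk.injEq, mem_DD, pow_mul,
    eq_comm (a := x.σ), cj_eq_iff hx.1, eq_mul_inv_iff_mul_eq]
  constructor
  · rintro ⟨h1, h2, h3⟩; exact ⟨⟨h3, q.2, h1.symm⟩, h2⟩
  · rintro ⟨⟨h3, _, h1⟩, h2⟩; exact ⟨h1.symm, h2, h3⟩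

lemma smul_eq_iff [Finite G] {p : ℕ} (Q : Subgroup G) (x : Tri G)
    (hx : IsPChain p x.σ) (q : Q) :
    q • x = x ↔ (q : G) ∈ DD Q x.a x.σ ∧ q * x.b = x.b * q := by
  have := tau_eq_iff Q 0 0 x hx q
  simp only [pow_zero, Equiv.Perm.coe_one, id_eq, mul_one] at this
  rw [eq_comm, this, eq_mul_inv_iff_mul_eq, eq_comm]

/-- No nontrivial subgroup of `D` is normalised by `b`. -/
def NT (b : G) (D : Subgroup G) : Prop :=
  ∀ T : Subgroup G, T ≤ D → b ∈ Subgroup.normalizer (T : Set G) → T = ⊥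

lemma mem_normalizer_of_comm {T : Subgroup G} {g : G} (h : ∀ x ∈ T, x * g = g * x) :
    g ∈ Subgroup.normalizer (T : Set G) := by
  refine Subgroup.centralizer_le_normalizer _ ?_
  rw [Subgroup.mem_centralizer_iff]
  exact fun x hx => h x hx

lemma NT_mul {b q s : G} {D : Subgroup G} (hq : ∀ x ∈ D, x * q = q * x)
    (hs : ∀ x ∈ D, x * s = s * x) : NT (q * b * s⁻¹) D ↔ NT b D := by
  unfold NT
  refine forall_congr' (fun T => forall_congr' (fun hT => ?_))
  rw [Subgroup.mul_mem_cancel_right _ (Subgroup.inv_mem _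
    (mem_normalizer_of_comm (fun x hx => hs x (hT hx)))),
    Subgroup.mul_mem_cancel_left _ (mem_normalizer_of_comm (fun x hx => hq x (hT hx)))]

lemma DD_smul {Q : Subgroup G} (hab : IsAb Q) {g : G} (hg : g ∈ Q) (a : G)
    (σ : Finset (Subgroup G)) : DD Q (g * a * g⁻¹) (cj g σ) = DD Q a σ := by
  ext q
  rw [mem_DD, mem_DD]
  constructor
  · rintro ⟨h1, h2, h3⟩
    have e : g * q * g⁻¹ = q := by rw [hab g hg q h2, mul_inv_cancel_right]
    refine ⟨conj_mem_stab_cj_iff.1 (e.symm ▸ h1), h2, ?_⟩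
    have : g * (q * a) * g⁻¹ = g * (a * q) * g⁻¹ := by
      calc g * (q * a) * g⁻¹ = (g * q * g⁻¹) * (g * a * g⁻¹) := by group
        _ = (g * a * g⁻¹) * (g * q * g⁻¹) := by rw [e, h3]
        _ = _ := by group
    simpa using this
  · rintro ⟨h1, h2, h3⟩
    have e : g * q * g⁻¹ = q := by rw [hab g hg q h2, mul_inv_cancel_right]
    refine ⟨e ▸ conj_mem_stab_cj h1, h2, ?_⟩
    calc q * (g * a * g⁻¹) = (g * q * g⁻¹) * (g * a * g⁻¹) := by rw [e]
      _ = g * (q * a) * g⁻¹ := by group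
      _ = (g * a * g⁻¹) * (g * q * g⁻¹) := by rw [h3]; group
      _ = _ := by rw [e]

lemma isAb_sup {R : Subgroup G} (hR : IsAb R) {t : G} (ht : ∀ x ∈ R, x * t = t * x) :
    IsAb (R ⊔ Subgroup.zpowers t) := by
  have h1 : ∀ y ∈ R ⊔ Subgroup.zpowers t, ∀ x ∈ R, x * y = y * x := by
    have : R ⊔ Subgroup.zpowers t ≤ Subgroup.centralizer (R : Set G) := by
      refine sup_le (fun y hy => ?_) ?_
      · rw [Subgroup.mem_centralizer_iff]; exact fun x hx => hR x hx y hy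
      · rw [Subgroup.zpowers_le, Subgroup.mem_centralizer_iff]; exact fun x hx => ht x hx
    intro y hy x hx
    exact Subgroup.mem_centralizer_iff.1 (this hy) x hx
  have h2 : ∀ y ∈ R ⊔ Subgroup.zpowers t, y * t = t * y := by
    have : R ⊔ Subgroup.zpowers t ≤ Subgroup.centralizer {t} := by
      refine sup_le (fun y hy => ?_) ?_
      · rw [Subgroup.mem_centralizer_singleton_iff]; exact ht y hy
      · rw [Subgroup.zpowers_le, Subgroup.mem_centralizer_singleton_iff]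
    intro y hy
    exact Subgroup.mem_centralizer_singleton_iff.1 (this hy)
  have h3 : R ⊔ Subgroup.zpowers t ≤
      Subgroup.centralizer ((R ⊔ Subgroup.zpowers t : Subgroup G) : Set G) := by
    refine sup_le (fun y hy => ?_) ?_
    · rw [Subgroup.mem_centralizer_iff]; exact fun x hx => (h1 x hx y hy).symm
    · rw [Subgroup.zpowers_le, Subgroup.mem_centralizer_iff]; exact fun x hx => h2 x hx
  intro x hx y hy
  exact Subgroup.mem_centralizer_iff.1 (h3 hy) x hx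

/-- Orbits of the two-sided action of `R × S` are large. -/
lemma dvd_card_orbit [Finite G] {p : ℕ} [Fact p.Prime] {R S : Subgroup G} (hS : IsPGroup p S)
    (hab : IsAb S) (hRS : R ≤ S) {t : G} (ht : t ∈ S) {e : ℕ} (he : orderOf t = p ^ e) (b : Bi G)
    (hb : NT b.v R) : Nat.card R * p ^ e ∣ Nat.card (orbit (R.prod S) b) := by
  let A : Subgroup G := R ⊓ MulAut.conj b.v • S
  have hA : ∀ q, q ∈ A ↔ q ∈ R ∧ b.v⁻¹ * q * b.v ∈ S := by
    intro q; simp only [A, Subgroup.mem_inf, mem_conj_smul]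
  have h1 := ab_lemma b.v e S A hS hab (inf_le_left.trans hRS) (fun q hq => ((hA q).1 hq).2)
    (fun T hT hn => hb T (hT.trans inf_le_left) hn) t ht he
  have h2 := card_orbit_mul_card_stabilizer (Γ := R.prod S) b
  have h3 : Nat.card (stabilizer (R.prod S) b) = Nat.card A := by
    refine Nat.card_congr (Equiv.ofBijective (fun z => ⟨z.1.1.1, (hA _).2 ⟨z.1.2.1, ?_⟩⟩) ⟨?_, ?_⟩)
    · have hz : z.1.1.1 * b.v * z.1.1.2⁻¹ = b.v := congrArg Bi.v z.2
      have : b.v⁻¹ * z.1.1.1 * b.v = z.1.1.2 := by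
        rw [mul_inv_eq_iff_eq_mul] at hz
        rw [mul_assoc, hz, inv_mul_cancel_left]
      rw [this]; exact z.1.2.2
    · intro z z' e
      have e1 : z.1.1.1 = z'.1.1.1 := congrArg Subtype.val e
      have hz : z.1.1.1 * b.v * z.1.1.2⁻¹ = b.v := congrArg Bi.v z.2
      have hz' : z'.1.1.1 * b.v * z'.1.1.2⁻¹ = b.v := congrArg Bi.v z'.2
      refine Subtype.ext (Subtype.ext (Prod.ext e1 ?_))
      rw [e1] at hz
      exact inv_injective (mul_left_cancel (hz.trans hz'.symm))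
    · rintro ⟨q, hq⟩
      refine ⟨⟨⟨(q, b.v⁻¹ * q * b.v), (hA q).1 hq⟩, ?_⟩, rfl⟩
      change Bi.mk (q * b.v * (b.v⁻¹ * q * b.v)⁻¹) = b
      ext1; group
  have h4 : Nat.card (R.prod S) = Nat.card R * Nat.card S := by
    rw [← Nat.card_prod]; exact Nat.card_congr (Subgroup.prodEquiv R S).toEquiv
  rw [h3, h4] at h2
  obtain ⟨c, hc⟩ := h1
  refine ⟨c, ?_⟩
  have hApos : 0 < Nat.card A := Nat.card_pos
  apply Nat.eq_of_mul_eq_mul_right hApos
  rw [h2, hc]; ring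

end Pool.Agent.Lib.MP_b6945b_al
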