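import Pool.Agent.Lib.MP_b6945b_al.St.KR2

set_option autoImplicit false

namespace Pool.Agent.Results.MP_b6945b_al.DefectTwoExact

open Pool.Agent.Lib.MP_b6945b_al

/-- The blockwise Knörr–Robinson alternating sum vanishes for every block whose defect group is
nontrivial of order dividing `p ^ 2`.  The sum runs over all chains `σ` of nontrivial
`p`-subgroups, the empty chain included; the factor `|G_σ|` makes it `|G|` times the sum over
`G`-orbits of chains. -/
theorem result :
    ∀ (p : ℕ), p.Prime → ∀ (G : Type) [Group G] [Finite G]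
      (M : Ideal (integralClosure ℤ ℂ)), M.IsMaximal → (p : integralClosure ℤ ℂ) ∈ M →
      ∀ (χ : G → ℂ), IsIrrChar χ →
      ∀ (D : Subgroup G), IsDefectGroup p M χ D → D ≠ ⊥ → Nat.card D ∣ p ^ 2 →
      ∑ᶠ (σ : Finset (Subgroup G))
        (_ : IsChain (· ≤ ·) (σ : Set (Subgroup G)) ∧ ∀ P ∈ σ, IsPGroup p P ∧ P ≠ ⊥),
        (-1 : ℤ) ^ σ.card *
          ((Nat.card (⨅ P ∈ σ, Subgroup.normalizer (P : Set G) : Subgroup G) : ℤ) *
            kInd M χ (⨅ P ∈ σ, Subgroup.normalizer (P : Set G))) = 0 :=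
  fun p hp G _ _ M hM hpM χ hχ D hD hD0 hc => St.kr_sum p hp G M hM hpM χ hχ D hD hD0 hc

end Pool.Agent.Results.MP_b6945b_al.DefectTwoExact
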