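import Pool.Agent.Lib.MP_b6945b_al.FactorDefs

set_option autoImplicit false

/-!
Moved factors of an abelian defect group, second form.
-/

namespace Pool.Agent.Lib.MP_b6945b_al

/-- Let `ψ` be an irreducible character of the centraliser of `D` whose block induces the block of
`χ`, let `A` be a set of inertial elements and `Z` the centraliser of `A` in `D`.  Then `D / Z` has
order greater than `N`, or is generated by two elements, or every inertial element normalising `Z`
acts on `D / Z` trivially or without nontrivial fixed points. -/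
def FineFactors {G : Type} [Group G] (M : Ideal (integralClosure ℤ ℂ)) (χ : G → ℂ)
    (D : Subgroup G) (N : ℕ) : Prop :=
  ∀ ψ : Subgroup.centralizer (D : Set G) → ℂ, IsIrrChar ψ →
    (∀ x : G, InIdeal M (omega ψ {h | IsConj x (h : G)} - omega χ {g | IsConj x g})) →
    ∀ (A : Set G) (Z : Subgroup G), (∀ t ∈ A, Inert M D ψ t) → Z = D ⊓ Subgroup.centralizer A →
      N < Z.relIndex D ∨ (∃ a ∈ D, ∃ b ∈ D, Z ⊔ Subgroup.closure {a, b} = D) ∨
        ∀ t ∈ Subgroup.normalizer (Z : Set G), Inert M D ψ t →
          (∀ d ∈ D, t * d * t⁻¹ * d⁻¹ ∈ Z) ∨ ∀ d ∈ D, t * d * t⁻¹ * d⁻¹ ∈ Z → d ∈ Z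

end Pool.Agent.Lib.MP_b6945b_al
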