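import Pool.Agent.Lib.MP_b6945b_al.Conj
import Pool.Agent.Lib.MP_b6945b_al.Transfer

set_option autoImplicit false

/-!
A theorem of Frobenius type: the sum of a character over all `p`-elements is divisible by the
order of any `p`-subgroup, in the ring of algebraic integers (Brauer's argument).
-/

namespace Pool.Agent.Lib.MP_b6945b_al

open Finset Pointwise MulAction

lemma sum_mem_of_orbit {Γ Y M : Type} [Group Γ] [MulAction Γ Y] [Fintype Y] [AddCommGroup M]
    (φ : Y → M) (hφ : ∀ (g : Γ) y, φ (g • y) = φ y) (J : AddSubgroup M)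
    (h : ∀ y, Nat.card (orbit Γ y) • φ y ∈ J) : ∑ y, φ y ∈ J := by
  classical
  let _ : Fintype (orbitRel.Quotient Γ Y) := Fintype.ofFinite _
  rw [← Finset.sum_fiberwise (s := univ) (g := fun y => (Quotient.mk (orbitRel Γ Y) y :
    orbitRel.Quotient Γ Y))]
  refine J.sum_mem ?_
  intro ω _
  have h1 : ∀ y ∈ univ.filter (fun y => (Quotient.mk (orbitRel Γ Y) y :
      orbitRel.Quotient Γ Y) = ω), φ y = φ ω.out := by
    intro y hy
    have hy' := (Finset.mem_filter.1 hy).2
    have : (orbitRel Γ Y) y ω.out := Quotient.exact (hy'.trans (Quotient.out_eq ω).symm)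
    obtain ⟨g, hg⟩ := (orbitRel_apply.1 this)
    rw [← hg]; exact hφ g _
  rw [Finset.sum_congr rfl h1, Finset.sum_const]
  have h2 : (univ.filter (fun y => (Quotient.mk (orbitRel Γ Y) y :
      orbitRel.Quotient Γ Y) = ω)).card = Nat.card (orbit Γ ω.out) := by
    rw [Nat.card_eq_fintype_card, Fintype.card_subtype]
    congr 1
    ext y
    simp only [Finset.mem_filter, Finset.mem_univ, true_and]
    rw [← orbitRel_apply]
    constructor
    · intro hy; exact Quotient.exact (hy.trans (Quotient.out_eq ω).symm)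
    · intro hy; exact (Quotient.sound hy).trans (Quotient.out_eq ω)
  rw [h2]; exact h _

lemma trace_isIntegral {n : ℕ} (A : Matrix (Fin n) (Fin n) ℂ) {N : ℕ} (hN : 0 < N)
    (h : A ^ (N + 1) = A) : IsIntegral ℤ A.trace := by
  rcases Nat.eq_zero_or_pos n with rfl | hn
  · simp [Matrix.trace, isIntegral_zero]
  have : Nonempty (Fin n) := ⟨⟨0, hn⟩⟩
  rw [Matrix.trace_eq_sum_roots_charpoly]
  refine IsIntegral.multiset_sum ?_
  intro x hx
  have h1 : x ∈ spectrum ℂ A :=
    Matrix.mem_spectrum_iff_isRoot_charpoly.2 (Polynomial.isRoot_of_mem_roots hx)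
  have h2 := spectrum.subset_polynomial_aeval A (Polynomial.X ^ (N + 1) - Polynomial.X) ⟨x, h1, rfl⟩
  simp only [map_sub, map_pow, Polynomial.aeval_X, h, sub_self, spectrum.zero_eq,
    Set.mem_singleton_iff, Polynomial.eval_sub, Polynomial.eval_pow, Polynomial.eval_X] at h2
  by_cases hx0 : x = 0
  · rw [hx0]; exact isIntegral_zero
  · refine IsIntegral.of_pow hN ?_
    have : x ^ N = 1 := by
      apply mul_right_cancel₀ hx0
      rw [← pow_succ, one_mul]; exact sub_eq_zero.1 h2
    rw [this]; exact isIntegral_one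

variable {H : Type} [Group H]

/-- Elements of `p`-power order. -/
def IsPElt (p : ℕ) (u : H) : Prop := ∃ k : ℕ, u ^ (p ^ k) = 1

lemma IsPElt.conj {p : ℕ} {u : H} (h : IsPElt p u) (g : H) : IsPElt p (g * u * g⁻¹) := by
  obtain ⟨k, hk⟩ := h
  exact ⟨k, by rw [conj_pow, hk]; simp⟩

lemma isPElt_conj {p : ℕ} {u : H} (g : H) : IsPElt p (g * u * g⁻¹) ↔ IsPElt p u := by
  refine ⟨fun h => ?_, fun h => h.conj g⟩
  have := h.conj g⁻¹
  simpa [mul_assoc] using this

lemma isPElt_inv {p : ℕ} {u : H} : IsPElt p u⁻¹ ↔ IsPElt p u := by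
  simp [IsPElt]

lemma IsPElt.isPGroup {p : ℕ} {u : H} (h : IsPElt p u) : IsPGroup p (Subgroup.zpowers u) := by
  obtain ⟨k, hk⟩ := h
  rintro ⟨_, j, rfl⟩
  refine ⟨k, Subtype.ext ?_⟩
  change (u ^ j) ^ (p ^ k) = 1
  rw [← zpow_natCast, ← zpow_mul, mul_comm, zpow_mul, zpow_natCast, hk, one_zpow]

lemma isPElt_of_mem {p : ℕ} {S : Subgroup H} (hS : IsPGroup p S) {u : H} (hu : u ∈ S) :
    IsPElt p u := by
  obtain ⟨k, hk⟩ := hS ⟨u, hu⟩
  exact ⟨k, congrArg Subtype.val hk⟩

/-- The largest subgroup of `P` normalised by `u`. -/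
def FF (P : Subgroup H) (u : H) : Subgroup H := ⨅ k : ℤ, MulAut.conj (u ^ k) • P

lemma mem_FF {P : Subgroup H} {u x : H} :
    x ∈ FF P u ↔ ∀ k : ℤ, (u ^ k)⁻¹ * x * u ^ k ∈ P := by
  simp only [FF, Subgroup.mem_iInf, mem_conj_smul]

lemma FF_le (P : Subgroup H) (u : H) : FF P u ≤ P := by
  intro x hx
  simpa using mem_FF.1 hx 0

lemma mem_normalizer_FF (P : Subgroup H) (u : H) :
    u ∈ Subgroup.normalizer ((FF P u : Subgroup H) : Set H) := by
  rw [Subgroup.mem_normalizer_iff'']
  intro x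
  simp only [mem_FF]
  constructor
  · intro h k
    have := h (1 + k)
    rw [zpow_add, zpow_one] at this
    simpa [mul_assoc] using this
  · intro h k
    have := h (-1 + k)
    rw [zpow_add, zpow_neg_one] at this
    simpa [mul_assoc] using this

lemma le_FF {P T : Subgroup H} {u : H} (hT : T ≤ P)
    (hu : u ∈ Subgroup.normalizer (T : Set H)) : T ≤ FF P u := by
  intro x hx
  rw [mem_FF]
  intro k
  exact hT ((Subgroup.mem_normalizer_iff''.1 (Subgroup.zpow_mem _ hu k) x).1 hx)

lemma FF_mul {P : Subgroup H} {u f : H} (hf : f ∈ FF P u) : FF P (u * f) = FF P u := by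
  have h1 : FF P u ≤ FF P (u * f) :=
    le_FF (FF_le _ _) (Subgroup.mul_mem _ (mem_normalizer_FF _ _) (Subgroup.le_normalizer hf))
  refine le_antisymm (le_FF (FF_le _ _) ?_) h1
  have := Subgroup.mul_mem _ (mem_normalizer_FF P (u * f))
    (Subgroup.inv_mem _ (Subgroup.le_normalizer (h1 hf)))
  rwa [mul_inv_cancel_right] at this

lemma mem_FF_conj {P : Subgroup H} {u h x : H} (hh : h ∈ P) :
    h * x * h⁻¹ ∈ FF P (h * u * h⁻¹) ↔ x ∈ FF P u := by
  simp only [mem_FF, conj_zpow]
  refine forall_congr' (fun k => ?_)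
  have : (h * u ^ k * h⁻¹)⁻¹ * (h * x * h⁻¹) * (h * u ^ k * h⁻¹) =
      h * ((u ^ k)⁻¹ * x * u ^ k) * h⁻¹ := by group
  rw [this, Subgroup.mul_mem_cancel_right _ (P.inv_mem hh), Subgroup.mul_mem_cancel_left _ hh]

/-- The coset of `u` modulo `FF P u`. -/
def KK (P : Subgroup H) (u : H) : Set H := {w | u⁻¹ * w ∈ FF P u}

lemma KK_eq_iff {P : Subgroup H} {u w : H} : KK P w = KK P u ↔ u⁻¹ * w ∈ FF P u := by
  constructor
  · intro e
    have : w ∈ KK P w := by simp [KK]
    rwa [e] at this
  · intro hw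
    have h1 := FF_mul hw
    rw [mul_inv_cancel_left] at h1
    ext x
    simp only [KK, Set.mem_ofPred_eq, h1]
    have : u⁻¹ * x = (u⁻¹ * w) * (w⁻¹ * x) := by group
    rw [this, Subgroup.mul_mem_cancel_left _ hw]

lemma KK_conj {P : Subgroup H} {h : H} (hh : h ∈ P) (u : H) :
    KK P (h * u * h⁻¹) = MulAut.conj h • KK P u := by
  ext x
  rw [Set.mem_smul_set_iff_inv_smul_mem, ← map_inv, MulAut.smul_def, MulAut.conj_apply]
  simp only [KK, Set.mem_ofPred_eq]
  rw [← mem_FF_conj (u := u) hh]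
  congr! 1
  group

/-- Subsets, acted on by conjugation. -/
@[ext] structure Cs (H : Type) where
  /-- the subset -/
  s : Set H

instance : MulAction H (Cs H) where
  smul g K := ⟨MulAut.conj g • K.s⟩
  one_smul K := by
    change Cs.mk _ = _
    ext1; simp
  mul_smul g h K := by
    change Cs.mk _ = Cs.mk (MulAut.conj g • (MulAut.conj h • K.s))
    ext1; simp [mul_smul]

instance [Finite H] : Finite (Cs H) :=
  Finite.of_injective Cs.s (fun _ _ e => Cs.ext e)

lemma Cs.smul_mk (g : H) (K : Set H) : g • Cs.mk K = ⟨MulAut.conj g • K⟩ := rfl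

open Classical in
theorem frobenius_sum [Fintype H] {p n : ℕ} (ρ : H →* Matrix (Fin n) (Fin n) ℂ) (P : Subgroup H)
    (hP : IsPGroup p P) : ∃ α : ℂ, IsIntegral ℤ α ∧
      ∑ u, (if IsPElt p u then (ρ u).trace else 0) = Nat.card P * α := by
  let J : AddSubgroup ℂ :=
    { carrier := {x | ∃ α : ℂ, IsIntegral ℤ α ∧ x = Nat.card P * α}
      zero_mem' := ⟨0, isIntegral_zero, by simp⟩
      add_mem' := by
        rintro _ _ ⟨α, h1, rfl⟩ ⟨β, h2, rfl⟩
        exact ⟨α + β, h1.add h2, by ring⟩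
      neg_mem' := by
        rintro _ ⟨α, h1, rfl⟩
        exact ⟨-α, h1.neg, by ring⟩ }
  change _ ∈ J
  let _ : Fintype (Cs H) := Fintype.ofFinite _
  rw [← Finset.sum_fiberwise (s := univ) (g := fun u => Cs.mk (KK P u))]
  refine sum_mem_of_orbit (Γ := P) _ ?_ J ?_
  · rintro h ⟨K⟩
    simp only [Finset.sum_filter, Subgroup.smul_def, Cs.smul_mk, Cs.mk.injEq]
    rw [← Equiv.sum_comp (MulAut.conj (h : H)).toEquiv]
    refine Finset.sum_congr rfl (fun u _ => ?_)
    change (if KK P (h * u * (h : H)⁻¹) = _ then (if IsPElt p (h * u * (h : H)⁻¹) then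
      (ρ (h * u * (h : H)⁻¹)).trace else 0) else 0) = _
    have e : (ρ (h * u * (h : H)⁻¹)).trace = (ρ u).trace := by
      rw [map_mul, Matrix.trace_mul_comm, ← map_mul, inv_mul_cancel_left]
    simp only [KK_conj h.2, smul_left_cancel_iff, isPElt_conj, e]
  · rintro ⟨K⟩
    simp only [Cs.mk.injEq]
    by_cases hK : ∃ u, IsPElt p u ∧ KK P u = K
    swap
    · rw [Finset.sum_eq_zero, smul_zero]
      · exact J.zero_mem
      · intro u hu
        exact if_neg (fun h => hK ⟨u, h, (Finset.mem_filter.1 hu).2⟩)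
    obtain ⟨u, hu, rfl⟩ := hK
    set F := FF P u with hF
    have hFu : IsPGroup p (F ⊔ Subgroup.zpowers u : Subgroup H) :=
      IsPGroup.to_sup_of_normal_left' (hP.to_le (FF_le _ _)) hu.isPGroup
        (Subgroup.zpowers_le.2 (mem_normalizer_FF _ _))
    have hsum : ∑ w ∈ univ.filter (fun w => KK P w = KK P u),
        (if IsPElt p w then (ρ w).trace else 0) = ∑ f : F, (ρ (u * f)).trace := by
      symm
      refine Finset.sum_bij (fun f _ => u * f) ?_ ?_ ?_ ?_
      · intro f _
        simp only [Finset.mem_filter, Finset.mem_univ, true_and, KK_eq_iff, inv_mul_cancel_left]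
        exact f.2
      · intro f _ g _ e
        exact Subtype.ext (mul_left_cancel e)
      · intro w hw
        exact ⟨⟨u⁻¹ * w, KK_eq_iff.1 (Finset.mem_filter.1 hw).2⟩, Finset.mem_univ _, by simp⟩
      · intro f _
        rw [if_pos]
        exact isPElt_of_mem hFu (Subgroup.mul_mem _
          ((le_sup_right : Subgroup.zpowers u ≤ _) (Subgroup.mem_zpowers u))
          ((le_sup_left : F ≤ _) f.2))
    rw [hsum]
    have hFne : (Nat.card F : ℂ) ≠ 0 := by exact_mod_cast (Nat.card_pos (α := F)).ne'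
    let E : Matrix (Fin n) (Fin n) ℂ := (Nat.card F : ℂ)⁻¹ • ∑ f : F, ρ f
    have hE1 : ∀ g : F, ρ g * E = E := by
      intro g
      simp only [E, mul_smul_comm, Finset.mul_sum, ← map_mul]
      congr 1
      exact Equiv.sum_comp (Equiv.mulLeft g) (fun f : F => ρ f)
    have hEE : E * E = E := by
      conv_lhs => rw [show E * E = (Nat.card F : ℂ)⁻¹ • ∑ f : F, ρ f * E from by
        rw [← Finset.sum_mul, ← smul_mul_assoc]]
      simp only [hE1, Finset.sum_const, Finset.card_univ]
      rw [← Nat.card_eq_fintype_card, ← Nat.cast_smul_eq_nsmul ℂ, smul_smul,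
        inv_mul_cancel₀ hFne, one_smul]
    have hEu : Commute (ρ u) E := by
      change ρ u * E = E * ρ u
      simp only [E, mul_smul_comm, smul_mul_assoc, Finset.mul_sum, Finset.sum_mul, ← map_mul]
      congr 1
      refine Finset.sum_bij (fun f _ => ⟨u * f * u⁻¹,
        (Subgroup.mem_normalizer_iff.1 (mem_normalizer_FF P u) f).1 f.2⟩) ?_ ?_ ?_ ?_
      · intro f _; exact Finset.mem_univ _
      · intro f _ g _ e
        have e' := congrArg Subtype.val e
        exact Subtype.ext (by simpa using e')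
      · intro g _
        exact ⟨⟨u⁻¹ * g * u, (Subgroup.mem_normalizer_iff''.1 (mem_normalizer_FF P u) g).1 g.2⟩,
          Finset.mem_univ _, Subtype.ext (by simp [mul_assoc])⟩
      · intro f _; simp
    have hord : 0 < orderOf u := orderOf_pos u
    have hint : IsIntegral ℤ (ρ u * E).trace := by
      refine trace_isIntegral _ hord ?_
      rw [hEu.mul_pow, (show IsIdempotentElem E from hEE).pow_succ_eq, ← map_pow, pow_succ,
        pow_orderOf_eq_one, one_mul]
    have htr : ∑ f : F, (ρ (u * f)).trace = Nat.card F * (ρ u * E).trace := by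
      simp only [E, mul_smul_comm, Finset.mul_sum, ← map_mul, Matrix.trace_smul, Matrix.trace_sum,
        smul_eq_mul, mul_inv_cancel_left₀ hFne]
    have hstab : Nat.card (stabilizer P (Cs.mk (KK P u))) ∣ Nat.card F := by
      let N : Subgroup H := P ⊓ Subgroup.normalizer (KK P u)
      have huK : u ∈ Subgroup.normalizer (KK P u) := by
        rw [Subgroup.mem_set_normalizer_iff]
        intro x
        simp only [KK, Set.mem_ofPred_eq]
        rw [Subgroup.mem_normalizer_iff.1 (mem_normalizer_FF P u) (u⁻¹ * x)]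
        congr! 1
        group
      have hN : N ≤ F := by
        refine le_FF inf_le_left ?_
        rw [← Subgroup.inv_mem_iff]
        refine Subgroup.mem_normalizer_fintype ?_
        intro h hh
        refine ⟨?_, Subgroup.mul_mem _ (Subgroup.mul_mem _ (Subgroup.inv_mem _ huK) hh.2)
          (Subgroup.inv_mem _ (Subgroup.inv_mem _ huK))⟩
        have h1 : h * u * h⁻¹ ∈ KK P u :=
          (Subgroup.mem_set_normalizer_iff.1 hh.2 u).1 (by simp [KK])
        have h2 := P.mul_mem (FF_le P u h1) hh.1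
        simpa [mul_assoc] using h2
      refine dvd_trans (dvd_of_eq ?_) (Subgroup.card_dvd_of_le hN)
      refine Nat.card_congr (Equiv.ofBijective (fun z => ⟨z.1.1, z.1.2, ?_⟩) ⟨?_, ?_⟩)
      · exact Subgroup.mem_normalizer_iff_conj_image_eq.2 (congrArg Cs.s z.2)
      · intro z z' e
        have e' := congrArg Subtype.val e
        exact Subtype.ext (Subtype.ext e')
      · rintro ⟨h, h1, h2⟩
        exact ⟨⟨⟨h, h1⟩, Cs.ext (Subgroup.mem_normalizer_iff_conj_image_eq.1 h2)⟩, rfl⟩
    obtain ⟨c, hc⟩ := hstab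
    refine ⟨c * (ρ u * E).trace, (isIntegral_natCast c).mul hint, ?_⟩
    rw [htr, ← card_orbit_mul_card_stabilizer (Γ := P) (Cs.mk (KK P u)), hc, nsmul_eq_mul]
    push_cast
    ring

end Pool.Agent.Lib.MP_b6945b_al
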