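import Mathlib

set_option autoImplicit false

/-!
Ordinary character theory of a finite group from the Wedderburn decomposition of its complex
group algebra.
-/

namespace Pool.Agent.Lib.MP_b6945b_al

open Finset

/-- A complete family of irreducible matrix representations. -/
structure IrrData (H : Type) [Group H] [Fintype H] where
  /-- number of representations -/
  n : ℕ
  /-- degrees -/
  d : Fin n → ℕ
  pos : ∀ i, 0 < d i
  /-- the representations -/
  ρ : ∀ i, H →* Matrix (Fin (d i)) (Fin (d i)) ℂ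
  surj : ∀ M : (∀ i, Matrix (Fin (d i)) (Fin (d i)) ℂ), ∃ c : H → ℂ, ∀ i, ∑ g, c g • ρ i g = M i
  reg_one : ∑ i, (d i : ℂ) * (d i : ℂ) = Fintype.card H
  reg : ∀ g, g ≠ 1 → ∑ i, (d i : ℂ) * (ρ i g).trace = 0

lemma trace_mulLeft_pi {n : ℕ} (d : Fin n → ℕ) (x : ∀ i, Matrix (Fin (d i)) (Fin (d i)) ℂ) :
    LinearMap.trace ℂ _ (LinearMap.mulLeft ℂ x) = ∑ i, (d i : ℂ) * (x i).trace := by
  classical
  let b := Pi.basis (R := ℂ) (fun i : Fin n => Matrix.stdBasis ℂ (Fin (d i)) (Fin (d i)))
  rw [LinearMap.trace_eq_matrix_trace ℂ b, Matrix.trace, Fintype.sum_sigma]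
  refine Finset.sum_congr rfl (fun i _ => ?_)
  have : ∀ jk : Fin (d i) × Fin (d i),
      Matrix.diag (LinearMap.toMatrix b b (LinearMap.mulLeft ℂ x)) ⟨i, jk⟩ = x i jk.1 jk.1 := by
    rintro ⟨j, k⟩
    simp only [Matrix.diag, LinearMap.toMatrix_apply, b, Pi.basis_apply, Pi.basis_repr,
      LinearMap.mulLeft_apply, Pi.mul_apply, Pi.single_eq_same, Matrix.stdBasis_eq_single]
    have h2 : ∀ M : Matrix (Fin (d i)) (Fin (d i)) ℂ,
        (Matrix.stdBasis ℂ (Fin (d i)) (Fin (d i))).repr M (j, k) = M j k := by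
      intro M
      simp [Matrix.stdBasis]
    rw [h2]
    simp
  rw [Finset.sum_congr rfl (fun jk _ => this jk), Fintype.sum_prod_type]
  simp [Matrix.trace, Finset.mul_sum]

lemma trace_mulLeft_single {H : Type} [Group H] [Fintype H] [DecidableEq H] (g : H) :
    LinearMap.trace ℂ _ (LinearMap.mulLeft ℂ (MonoidAlgebra.single g (1 : ℂ))) =
      if g = 1 then (Fintype.card H : ℂ) else 0 := by
  let b := MonoidAlgebra.basis H ℂ
  rw [LinearMap.trace_eq_matrix_trace ℂ b, Matrix.trace]
  have : ∀ h : H, Matrix.diag (LinearMap.toMatrix b b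
      (LinearMap.mulLeft ℂ (MonoidAlgebra.single g (1 : ℂ)))) h = if g = 1 then 1 else 0 := by
    intro h
    simp only [Matrix.diag, LinearMap.toMatrix_apply, LinearMap.mulLeft_apply, b,
      MonoidAlgebra.basis_apply, MonoidAlgebra.single_mul_single, mul_one]
    rw [← MonoidAlgebra.basis_apply, Module.Basis.repr_self, Finsupp.single_apply]
    simp
  rw [Finset.sum_congr rfl (fun h _ => this h)]
  split_ifs <;> simp

theorem exists_irrData (H : Type) [Group H] [Fintype H] : Nonempty (IrrData H) := by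
  classical
  have : NeZero (Nat.card H : ℂ) := ⟨by exact_mod_cast (Nat.card_pos (α := H)).ne'⟩
  obtain ⟨n, d, hd, ⟨e⟩⟩ :=
    IsSemisimpleRing.exists_algEquiv_pi_matrix_of_isAlgClosed ℂ (MonoidAlgebra ℂ H)
  let ρ : ∀ i, H →* Matrix (Fin (d i)) (Fin (d i)) ℂ := fun i =>
    { toFun := fun g => e (MonoidAlgebra.single g 1) i
      map_one' := by rw [← MonoidAlgebra.one_def, map_one]; rfl
      map_mul' := fun g h => by
        rw [← Pi.mul_apply, ← map_mul, MonoidAlgebra.single_mul_single, mul_one] }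
  have hreg : ∀ g : H, ∑ i, (d i : ℂ) * (ρ i g).trace =
      if g = 1 then (Fintype.card H : ℂ) else 0 := by
    intro g
    rw [← trace_mulLeft_single g, ← LinearMap.trace_conj' _ e.toLinearEquiv]
    change ∑ i, (d i : ℂ) * (e (MonoidAlgebra.single g 1) i).trace = _
    rw [← trace_mulLeft_pi]
    congr 1
    refine LinearMap.ext (fun x => ?_)
    simp [LinearEquiv.conj_apply]
  refine ⟨⟨n, d, fun i => Nat.pos_of_ne_zero (hd i).ne, ρ, ?_, ?_, ?_⟩⟩
  · intro M
    refine ⟨fun g => (e.symm M).coeff g, fun i => ?_⟩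
    have h1 : e.symm M = ∑ g, (e.symm M).coeff g • MonoidAlgebra.single g (1 : ℂ) := by
      ext g
      simp [MonoidAlgebra.coeff_sum]
    have h2 : M = ∑ g, (e.symm M).coeff g • e (MonoidAlgebra.single g 1) := by
      conv_lhs => rw [← e.apply_symm_apply M, h1]
      simp only [map_sum, map_smul]
    conv_rhs => rw [h2]
    rw [Finset.sum_apply]
    rfl
  · have := hreg 1
    simpa using this
  · intro g hg
    rw [hreg g, if_neg hg]

end Pool.Agent.Lib.MP_b6945b_al
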