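import Pool.Agent.Lib.MP_b6945b_al.BlockDefs

set_option autoImplicit false

/-!
The number of Brauer characters, and blocks whose inertial quotient moves a large part of the
defect group.
-/

namespace Pool.Agent.Lib.MP_b6945b_al

/-- The number of irreducible Brauer characters of `H` lying in blocks `b` whose induced block
`b^G` is defined and is the block of `χ`: the dimension of the span of the restrictions to the
`p`-regular elements (extended by zero) of the characters counted by `kInd`. -/
noncomputable def lInd {G : Type} [Group G] (p : ℕ) (M : Ideal (integralClosure ℤ ℂ)) (χ : G → ℂ)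
    (H : Subgroup G) : ℕ :=
  Module.finrank ℂ (Submodule.span ℂ {f : H → ℂ | ∃ ψ : H → ℂ, IsIrrChar ψ ∧
    (∀ x : G, InIdeal M (omega ψ {h : H | IsConj x (h : G)} - omega χ {g | IsConj x g})) ∧
    f = fun h => if p ∣ orderOf h then 0 else ψ h})

/-- Whenever `ψ` is an irreducible character of the centraliser of `D` whose block induces the
block of `χ`, and `n` normalises `D` and stabilises the block of `ψ`, then `n` centralises `D` or
the centraliser of `n` in `D` has index greater than `N`. -/
def LargeMoved {G : Type} [Group G] (M : Ideal (integralClosure ℤ ℂ)) (χ : G → ℂ)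
    (D : Subgroup G) (N : ℕ) : Prop :=
  ∀ ψ : Subgroup.centralizer (D : Set G) → ℂ, IsIrrChar ψ →
    (∀ x : G, InIdeal M (omega ψ {h | IsConj x (h : G)} - omega χ {g | IsConj x g})) →
    ∀ n ∈ Subgroup.normalizer (D : Set G),
      (∀ x : Subgroup.centralizer (D : Set G), InIdeal M (omega ψ {y | IsConj x y} -
        omega ψ {y | ∃ z, IsConj x z ∧ (y : G) = n * z * n⁻¹})) →
      n ∈ Subgroup.centralizer (D : Set G) ∨ N < (Subgroup.centralizer {n}).relIndex D

end Pool.Agent.Lib.MP_b6945b_al
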