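import Pool.Agent.Lib.MP_b6945b_al.BlockDefs

set_option autoImplicit false

/-!
Alperin weights of a block.
-/

namespace Pool.Agent.Lib.MP_b6945b_al

/-- The number of weights with first component `P` of the block of `χ`: irreducible characters
`ψ` of `N(P)/P` of `p`-defect zero such that the block of `N(P)` containing the inflation of `ψ`
induces the block of `χ`. -/
noncomputable def wInd {G : Type} [Group G] (p : ℕ) (M : Ideal (integralClosure ℤ ℂ)) (χ : G → ℂ)
    (P : Subgroup G) : ℕ :=
  Nat.card {ψ : (Subgroup.normalizer (P : Set G) ⧸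
      P.subgroupOf (Subgroup.normalizer (P : Set G))) → ℂ // IsIrrChar ψ ∧
    (∃ d : ℕ, ψ 1 = d ∧ p ^ (Nat.card (Subgroup.normalizer (P : Set G) ⧸
      P.subgroupOf (Subgroup.normalizer (P : Set G)))).factorization p ∣ d) ∧
    ∀ x : G, InIdeal M (omega (fun h : Subgroup.normalizer (P : Set G) => ψ h)
      {h | IsConj x (h : G)} - omega χ {g | IsConj x g})}

end Pool.Agent.Lib.MP_b6945b_al
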