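import Pool.Agent.Lib.MP_b6945b_al.BlockDefs

set_option autoImplicit false

/-!
Blocks whose inertial quotient acts freely on a nontrivial invariant subgroup of the defect group.
-/

namespace Pool.Agent.Lib.MP_b6945b_al

/-- The inertial quotient of the block of `χ` acts freely on the nontrivial elements of some
nontrivial invariant subgroup of `D`: whenever `ψ` is an irreducible character of the centraliser
`C` of `D` whose block induces the block of `χ`, there is a subgroup `T ≠ 1` of `D` such that every
`n` that normalises `D` and stabilises the block of `ψ` maps `T` into `T`, and centralises `D` or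
commutes with no nontrivial element of `T`. -/
def RelInertia {G : Type} [Group G] (M : Ideal (integralClosure ℤ ℂ)) (χ : G → ℂ)
    (D : Subgroup G) : Prop :=
  ∀ ψ : Subgroup.centralizer (D : Set G) → ℂ, IsIrrChar ψ →
    (∀ x : G, InIdeal M (omega ψ {h | IsConj x (h : G)} - omega χ {g | IsConj x g})) →
    ∃ T : Subgroup G, T ≤ D ∧ T ≠ ⊥ ∧ ∀ n ∈ Subgroup.normalizer (D : Set G),
      (∀ x : Subgroup.centralizer (D : Set G), InIdeal M (omega ψ {y | IsConj x y} -
        omega ψ {y | ∃ z, IsConj x z ∧ (y : G) = n * z * n⁻¹})) →
      ∀ u ∈ T, n * u * n⁻¹ ∈ T ∧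
        (n * u = u * n → u = 1 ∨ n ∈ Subgroup.centralizer (D : Set G))

end Pool.Agent.Lib.MP_b6945b_al
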