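import Mathlib

set_option autoImplicit false

/-!
Idempotents of a group ring over a valuation ring of residue characteristic `p`: the sum of the
coefficients over the conjugates of a nontrivial `p`-element vanishes.
-/

namespace Pool.Agent.Lib.MP_b6945b_al

open Finset IsLocalRing

lemma mem_of_isIntegral_val (V : ValuationSubring ℂ) {x : ℂ} (h : IsIntegral V x) : x ∈ V := by
  obtain ⟨y, rfl⟩ := IsIntegrallyClosed.isIntegral_iff.1 h
  exact y.2

lemma mem_of_isIntegral (V : ValuationSubring ℂ) {x : ℂ} (h : IsIntegral ℤ x) : x ∈ V :=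
  mem_of_isIntegral_val V h.tower_top

lemma isIntegral_of_pow_eq_one {x : ℂ} {n : ℕ} (hn : 0 < n) (h : x ^ n = 1) : IsIntegral ℤ x :=
  IsIntegral.of_pow hn (by rw [h]; exact isIntegral_one)

lemma charP_residue (V : ValuationSubring ℂ) {p : ℕ} [Fact p.Prime] (hp : (p : ℂ) ∈ V.nonunits) :
    CharP (ResidueField V) p := by
  rw [CharP.charP_iff_prime_eq_zero Fact.out]
  have : ((p : V) : ℂ) ∈ V.nonunits := by simpa using hp
  rw [ValuationSubring.coe_mem_nonunits_iff, ← residue_eq_zero_iff] at this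
  simpa using this

lemma residue_eq_one (V : ValuationSubring ℂ) {p : ℕ} [Fact p.Prime] (hp : (p : ℂ) ∈ V.nonunits)
    {z : V} {k : ℕ} (h : z ^ (p ^ k) = 1) : residue V z = 1 := by
  have := charP_residue V hp
  have h1 : (residue V z - 1) ^ (p ^ k) = 0 := by
    rw [sub_pow_char_pow, ← map_pow, h, map_one, one_pow, sub_self]
  exact sub_eq_zero.1 (pow_eq_zero_iff (pow_pos (Fact.out : p.Prime).pos k).ne' |>.1 h1)

lemma trace_eq_of_idem {R ι : Type} [CommRing R] [IsLocalRing R] [Fintype ι] [DecidableEq ι]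
    (E F : Matrix ι ι R) (hE : E * E = E) (hF : F * F = F)
    (h : (residue R).mapMatrix E = (residue R).mapMatrix F) : E.trace = F.trace := by
  let U := E * F + (1 - E) * (1 - F)
  have h1 : E * U = U * F := by
    simp only [U, mul_add, add_mul, mul_sub, sub_mul, mul_one, one_mul, ← mul_assoc, hE]
    simp only [mul_assoc, hF]
    abel
  have h2 : (residue R).mapMatrix U = 1 := by
    have hF' : (residue R).mapMatrix F * (residue R).mapMatrix F = (residue R).mapMatrix F := by
      rw [← map_mul, hF]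
    simp only [U, map_add, map_mul, map_sub, map_one, h, mul_sub, sub_mul, mul_one, one_mul, hF']
    abel
  have h3 : IsUnit U.det := by
    rw [← residue_ne_zero_iff_isUnit, RingHom.map_det, h2, Matrix.det_one]
    exact one_ne_zero
  have h4 : E = U * F * U⁻¹ := by
    rw [← h1, mul_assoc, Matrix.mul_nonsing_inv _ h3, mul_one]
  rw [h4, Matrix.trace_mul_comm, ← mul_assoc, Matrix.nonsing_inv_mul _ h3, one_mul]

/-- Coset decomposition. -/
noncomputable def cosetEquiv {H : Type} [Group H] (C : Subgroup H) : (H ⧸ C) × C ≃ H :=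
  Equiv.ofBijective (fun z => z.1.out * z.2) (by
    constructor
    · rintro ⟨i, c⟩ ⟨j, d⟩ e
      have e' : i.out * c = j.out * d := e
      have h1 : i = j := by
        rw [← QuotientGroup.out_eq' i, ← QuotientGroup.out_eq' j,
          ← QuotientGroup.mk_mul_of_mem i.out c.2, ← QuotientGroup.mk_mul_of_mem j.out d.2, e']
      subst h1
      exact Prod.ext rfl (Subtype.ext (mul_left_cancel e'))
    · intro x
      obtain ⟨c, hc⟩ := QuotientGroup.mk_out_eq_mul C x
      exact ⟨⟨x, c⁻¹⟩, by simp [hc]⟩)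

lemma cosetEquiv_apply {H : Type} [Group H] (C : Subgroup H) (z : (H ⧸ C) × C) :
    cosetEquiv C z = z.1.out * z.2 := rfl

open scoped IsMulCommutative in
theorem proj_vanish {H : Type} [Group H] [Fintype H] (V : ValuationSubring ℂ) {p : ℕ}
    [Fact p.Prime] (hp : (p : ℂ) ∈ V.nonunits) (f : H → V)
    (hf : ∀ x, ∑ y, f y * f (y⁻¹ * x) = f x) (u : H) (k : ℕ) (hu : u ^ (p ^ k) = 1)
    (hu1 : u ≠ 1) : ∑ x, f (x * u * x⁻¹) = 0 := by
  classical
  let C := Subgroup.zpowers u
  let _ : Fintype (H ⧸ C) := Fintype.ofFinite _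
  have hq : 0 < p ^ k := pow_pos (Fact.out : p.Prime).pos k
  have hC : ∀ c : C, c ^ (p ^ k) = 1 := by
    rintro ⟨_, j, rfl⟩
    apply Subtype.ext
    change (u ^ j) ^ (p ^ k) = 1
    rw [← zpow_natCast, ← zpow_mul, mul_comm, zpow_mul, zpow_natCast, hu, one_zpow]
  let E : (C →* V) → Matrix (H ⧸ C) (H ⧸ C) V := fun l => Matrix.of fun i j =>
    ∑ c : C, l c * f (i.out * c * j.out⁻¹)
  have hE : ∀ l, E l * E l = E l := by
    intro l
    ext1 i j
    simp only [Matrix.mul_apply, E, Matrix.of_apply]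
    have h1 : ∀ c : C, f (i.out * c * j.out⁻¹) =
        ∑ m : H ⧸ C, ∑ d : C, f (i.out * d * m.out⁻¹) * f (m.out * (d⁻¹ * c : C) * j.out⁻¹) := by
      intro c
      rw [← hf, ← Fintype.sum_prod_type', ← Equiv.sum_comp
        ((((Equiv.refl (H ⧸ C)).prodCongr (Equiv.inv C)).trans (cosetEquiv C)).trans
          ((Equiv.inv H).trans (Equiv.mulLeft i.out)))]
      refine Finset.sum_congr rfl (fun z _ => ?_)
      simp only [Equiv.trans_apply, cosetEquiv_apply, Equiv.prodCongr_apply, Prod.map,
        Equiv.inv_apply, Equiv.coe_refl, id, Equiv.coe_mulLeft, Subgroup.coe_mul, Subgroup.coe_inv]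
      congr 2 <;> group
    simp only [h1, Finset.mul_sum, Finset.sum_mul]
    rw [Finset.sum_comm (s := (univ : Finset C))]
    refine Finset.sum_congr rfl (fun m _ => ?_)
    rw [Finset.sum_comm]
    conv_rhs => rw [Finset.sum_comm]
    refine Finset.sum_congr rfl (fun d _ => ?_)
    rw [← Equiv.sum_comp (Equiv.mulLeft d⁻¹)]
    refine Finset.sum_congr rfl (fun c _ => ?_)
    have : l c = l d * l (d⁻¹ * c) := by rw [← map_mul, mul_inv_cancel_left]
    simp only [Equiv.coe_mulLeft]
    rw [this]; ring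
  let τ : C → V := fun c => ∑ i : H ⧸ C, f (i.out * c * i.out⁻¹)
  have htr : ∀ l, (E l).trace = ∑ c : C, l c * τ c := by
    intro l
    simp only [Matrix.trace, Matrix.diag, E, τ, Finset.mul_sum, Matrix.of_apply]
    exact Finset.sum_comm
  have hconst : ∀ l : C →* V, ∑ c : C, l c * τ c = ∑ c : C, τ c := by
    intro l
    have := trace_eq_of_idem (E l) (E 1) (hE l) (hE 1) (by
      ext i j
      simp only [RingHom.mapMatrix_apply, Matrix.map_apply, E, map_sum, map_mul, Matrix.of_apply]
      refine Finset.sum_congr rfl (fun c _ => ?_)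
      rw [residue_eq_one V hp (z := l c) (k := k) (by rw [← map_pow, hC, map_one])]
      simp)
    rw [htr, htr] at this
    simpa using this
  have hψ : ∀ ψ : AddChar (Additive C) ℂ,
      ∑ c : C, ψ (Additive.ofMul c) * (τ c : ℂ) = ∑ c : C, (τ c : ℂ) := by
    intro ψ
    have hmem : ∀ c : C, ψ (Additive.ofMul c) ∈ V := by
      intro c
      refine mem_of_isIntegral V (isIntegral_of_pow_eq_one hq ?_)
      rw [← AddChar.map_nsmul_eq_pow, ← ofMul_pow, hC, ofMul_one, AddChar.map_zero_eq_one]
    let l : C →* V :=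
      { toFun := fun c => ⟨ψ (Additive.ofMul c), hmem c⟩
        map_one' := Subtype.ext (by simp)
        map_mul' := fun c d => Subtype.ext (by simp [AddChar.map_add_eq_mul]) }
    have := congrArg (fun z : V => (z : ℂ)) (hconst l)
    simpa [l] using this
  let u' : C := ⟨u, Subgroup.mem_zpowers u⟩
  have hu' : u' ≠ 1 := fun e => hu1 (congrArg Subtype.val e)
  have hτ : τ u' = 0 := by
    have h1 : ∑ ψ : AddChar (Additive C) ℂ, ψ (Additive.ofMul u'⁻¹) *
        ∑ c : C, ψ (Additive.ofMul c) * (τ c : ℂ) = 0 := by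
      simp only [hψ]
      rw [← Finset.sum_mul, AddChar.sum_apply_eq_ite, if_neg, zero_mul]
      simpa using hu'
    simp only [Finset.mul_sum] at h1
    rw [Finset.sum_comm] at h1
    have h2 : ∀ c : C, ∑ ψ : AddChar (Additive C) ℂ, ψ (Additive.ofMul u'⁻¹) *
        (ψ (Additive.ofMul c) * (τ c : ℂ)) =
        if c = u' then (Fintype.card (Additive C) : ℂ) * τ u' else 0 := by
      intro c
      simp only [← mul_assoc, ← AddChar.map_add_eq_mul]
      rw [← Finset.sum_mul, AddChar.sum_apply_eq_ite, ← ofMul_mul]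
      by_cases e : c = u'
      · simp [e]
      · have : ¬ (u'⁻¹ * c = 1) := fun h => e (inv_mul_eq_one.1 h).symm
        rw [if_neg e, if_neg (fun h => this (ofMul_eq_zero.1 h)), zero_mul]
    simp only [h2, Finset.sum_ite_eq', Finset.mem_univ, if_true] at h1
    rcases mul_eq_zero.1 h1 with h3 | h3
    · exact absurd h3 (by exact_mod_cast Fintype.card_ne_zero)
    · exact Subtype.ext h3
  rw [← Equiv.sum_comp (cosetEquiv C), Fintype.sum_prod_type, Finset.sum_comm]
  refine Finset.sum_eq_zero (fun c _ => ?_)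
  rw [← hτ]
  refine Finset.sum_congr rfl (fun i _ => ?_)
  have : (c : H) * u = u * c := congrArg Subtype.val (mul_comm c u')
  rw [cosetEquiv_apply]
  congr 1
  change i.out * c * u * (i.out * c)⁻¹ = i.out * u * i.out⁻¹
  rw [mul_assoc i.out, this]; group

end Pool.Agent.Lib.MP_b6945b_al
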