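import Pool.Agent.Lib.MP_b6945b_al.Char
import Pool.Agent.Lib.MP_b6945b_al.Proj
import Pool.Agent.Lib.MP_b6945b_al.Frob

set_option autoImplicit false

/-!
Characters modulo a place above `p`.
-/

namespace Pool.Agent.Lib.MP_b6945b_al

open Finset IsLocalRing

lemma exists_val (p : ℕ) [Fact p.Prime] : ∃ V : ValuationSubring ℂ, (p : ℂ) ∈ V.nonunits := by
  let A : Subring ℂ := (Int.castRingHom ℂ).range
  obtain ⟨V, _, h⟩ := Ideal.image_subset_nonunits_valuationSubring (A := A)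
    (Ideal.span {(p : A)}) (by
      rw [Ne, Ideal.span_singleton_eq_top]
      intro hu
      obtain ⟨⟨_, k, rfl⟩, hk⟩ := hu.exists_right_inv
      have h1 : (p : ℂ) * (k : ℂ) = 1 := by simpa using congrArg Subtype.val hk
      have h2 : (p : ℤ) * k = 1 := by exact_mod_cast h1
      have h3 : (p : ℤ) ∣ 1 := ⟨k, h2.symm⟩
      have h4 : p ∣ 1 := by exact_mod_cast h3
      exact (Fact.out : p.Prime).one_lt.ne' (Nat.dvd_one.1 h4))
  exact ⟨V, h ⟨p, Ideal.subset_span rfl, by simp⟩⟩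

section Val

variable {V : ValuationSubring ℂ} {p : ℕ}

lemma mul_mem_nonunits {x y : ℂ} (hx : x ∈ V.nonunits) (hy : y ∈ V) : x * y ∈ V.nonunits := by
  rw [ValuationSubring.mem_nonunits_iff] at hx ⊢
  rw [map_mul]
  exact lt_of_le_of_lt (mul_le_of_le_one_right' ((V.valuation_le_one_iff y).2 hy)) hx

lemma int_dvd_of_mem [Fact p.Prime] (hp : (p : ℂ) ∈ V.nonunits) {n : ℤ}
    (h : (n : ℂ) ∈ V.nonunits) : (p : ℤ) ∣ n := by
  have := charP_residue V hp
  have h1 : ((n : V) : ℂ) ∈ V.nonunits := by simpa using h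
  rw [ValuationSubring.coe_mem_nonunits_iff, ← residue_eq_zero_iff, map_intCast] at h1
  exact (CharP.intCast_eq_zero_iff _ p n).1 h1

lemma inv_nat_mem [Fact p.Prime] (hp : (p : ℂ) ∈ V.nonunits) {m : ℕ} (hm : ¬ p ∣ m) :
    (m : ℂ)⁻¹ ∈ V := by
  by_contra h
  have : ((m : ℤ) : ℂ) ∈ V.nonunits := by
    rw [ValuationSubring.mem_nonunits_iff_or]; right; simpa using h
  exact hm (by exact_mod_cast int_dvd_of_mem hp this)

end Val

namespace IrrData

variable {H : Type} [Group H] [Fintype H] (I : IrrData H)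

lemma χ_isIntegral (i : Fin I.n) (g : H) : IsIntegral ℤ (I.χ i g) :=
  trace_isIntegral _ (orderOf_pos g) (by rw [← map_pow, pow_succ, pow_orderOf_eq_one, one_mul])

lemma fourier_conv (i : Fin I.n) (f g : H → ℂ) :
    ∑ x, (∑ y, f y * g (y⁻¹ * x)) • I.ρ i x = (∑ y, f y • I.ρ i y) * ∑ x, g x • I.ρ i x := by
  simp only [Finset.sum_smul, Finset.sum_mul, Finset.mul_sum]
  rw [Finset.sum_comm]
  conv_rhs => rw [Finset.sum_comm]
  refine Finset.sum_congr rfl (fun y _ => ?_)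
  rw [← Equiv.sum_comp (Equiv.mulLeft y)]
  refine Finset.sum_congr rfl (fun x _ => ?_)
  simp [smul_smul, mul_comm]

lemma fourier_inj {f g : H → ℂ} (h : ∀ i, ∑ x, f x • I.ρ i x = ∑ x, g x • I.ρ i x) : f = g := by
  ext x
  apply mul_left_cancel₀ (card_ne (H := H))
  rw [← I.inversion, ← I.inversion]
  simp only [h]

lemma comm_sum (z : H → ℂ) : ∑ a : H, ∑ b : H, z (a * b * a⁻¹ * b⁻¹) =
    Fintype.card H * ∑ i, (∑ h, z h * I.χ i h⁻¹) / I.d i := by
  classical
  have h1 : ∑ a : H, ∑ b : H, z (a * b * a⁻¹ * b⁻¹) =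
      ∑ h, z h * ∑ a : H, ∑ b : H, (if a * b * a⁻¹ * b⁻¹ = h then (1 : ℂ) else 0) := by
    simp only [Finset.mul_sum]
    rw [Finset.sum_comm (s := (univ : Finset H)) (t := (univ : Finset H))
      (f := fun h a => ∑ b : H, z h * (if a * b * a⁻¹ * b⁻¹ = h then (1 : ℂ) else 0))]
    refine Finset.sum_congr rfl (fun a _ => ?_)
    rw [Finset.sum_comm]
    refine Finset.sum_congr rfl (fun b _ => ?_)
    simp
  rw [h1]
  simp only [I.comm_count, Finset.mul_sum, Finset.sum_div]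
  rw [Finset.sum_comm]
  refine Finset.sum_congr rfl (fun i _ => Finset.sum_congr rfl (fun h _ => ?_))
  ring

variable {p : ℕ} [Fact p.Prime]

/-- Characters of defect zero vanish on nontrivial `p`-elements. -/
lemma dz_vanish (i : Fin I.n) (hi : p ^ (Nat.card H).factorization p ∣ I.d i) {u : H}
    (hu : IsPElt p u) (hu1 : u ≠ 1) : I.χ i u = 0 := by
  obtain ⟨V, hp⟩ := exists_val p
  have hH : Nat.card H ≠ 0 := Nat.card_pos.ne'
  have hmem : ∀ x : H, (I.d i : ℂ) * I.χ i x⁻¹ / Fintype.card H ∈ V := by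
    intro x
    obtain ⟨d', hd'⟩ := hi
    have h1 := Nat.ordProj_mul_ordCompl_eq_self (Nat.card H) p
    have h2 := inv_nat_mem hp (Nat.not_dvd_ordCompl (Fact.out : p.Prime) hH)
    have h3 : (I.d i : ℂ) * I.χ i x⁻¹ / Fintype.card H =
        d' * I.χ i x⁻¹ * ((Nat.card H / p ^ (Nat.card H).factorization p : ℕ) : ℂ)⁻¹ := by
      rw [← Nat.card_eq_fintype_card]
      conv_lhs => rw [hd', ← h1]
      have : (p : ℂ) ≠ 0 := by exact_mod_cast (Fact.out : p.Prime).ne_zero
      rw [Nat.cast_mul, Nat.cast_mul, h1, mul_assoc, mul_div_mul_left _ _ (by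
        exact_mod_cast (pow_pos (Fact.out : p.Prime).pos _).ne'), div_eq_mul_inv]
    rw [h3]
    exact V.mul_mem _ _ (V.mul_mem _ _ (natCast_mem V d') (mem_of_isIntegral V (I.χ_isIntegral _ _)))
      h2
  obtain ⟨k, hk⟩ := isPElt_inv.2 hu
  have := proj_vanish V hp (fun x => ⟨_, hmem x⟩) (by
    intro x
    apply Subtype.ext
    have h1 := I.fourier_inj (f := fun x => ∑ y, ((I.d i : ℂ) * I.χ i y⁻¹ / Fintype.card H) *
      ((I.d i : ℂ) * I.χ i (y⁻¹ * x)⁻¹ / Fintype.card H))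
      (g := fun x => (I.d i : ℂ) * I.χ i x⁻¹ / Fintype.card H) (by
        intro j
        rw [I.fourier_conv j (fun y => (I.d i : ℂ) * I.χ i y⁻¹ / Fintype.card H)
          (fun y => (I.d i : ℂ) * I.χ i y⁻¹ / Fintype.card H), I.idem]
        split_ifs <;> simp)
    simpa using congrFun h1 x) u⁻¹ k hk (by simpa using hu1)
  have h2 := congrArg (fun z : V => (z : ℂ)) this
  have h3 : ∀ x : H, I.χ i (x * u⁻¹ * x⁻¹)⁻¹ = I.χ i u := by
    intro x
    rw [← I.χ_conj i x u]; congr 1; group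
  simp only [AddSubmonoidClass.coe_finsetSum, h3, Finset.sum_const, Finset.card_univ,
    nsmul_eq_mul, ZeroMemClass.coe_zero] at h2
  rw [mul_div_cancel₀ _ card_ne] at h2
  exact (mul_eq_zero.1 h2).resolve_left (I.d_ne i)

open Classical in
lemma omega_pelt_dz (i : Fin I.n) (hi : p ^ (Nat.card H).factorization p ∣ I.d i) :
    (∑ h, (if IsPElt p h then (1 : ℂ) else 0) * I.χ i h⁻¹) / I.d i = 1 := by
  rw [Finset.sum_eq_single 1]
  · rw [if_pos ⟨0, by simp⟩, inv_one, χ_one, one_mul, div_self (I.d_ne i)]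
  · intro h _ h1
    split_ifs with h2
    · rw [I.dz_vanish i hi (isPElt_inv.2 h2) (by simpa using h1), mul_zero]
    · exact zero_mul _
  · simp

open Classical in
lemma omega_pelt_ndz {V : ValuationSubring ℂ} (hp : (p : ℂ) ∈ V.nonunits) (i : Fin I.n)
    (hi : ¬ p ^ (Nat.card H).factorization p ∣ I.d i) :
    (∑ h, (if IsPElt p h then (1 : ℂ) else 0) * I.χ i h⁻¹) / I.d i ∈ V.nonunits := by
  obtain ⟨P⟩ : Nonempty (Sylow p H) := inferInstance
  obtain ⟨α, hα, hs⟩ := frobenius_sum (I.ρ i) (P : Subgroup H) P.isPGroup'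
  have h1 : ∑ h, (if IsPElt p h then (1 : ℂ) else 0) * I.χ i h⁻¹ =
      ∑ u, (if IsPElt p u then (I.ρ i u).trace else 0) := by
    rw [← Equiv.sum_comp (Equiv.inv H)]
    refine Finset.sum_congr rfl (fun h _ => ?_)
    simp [isPElt_inv, χ]
  rw [h1, hs, P.card_eq_multiplicity]
  have hd0 : I.d i ≠ 0 := (I.pos i).ne'
  have hlt : (I.d i).factorization p < (Nat.card H).factorization p := by
    by_contra hle
    push Not at hle
    exact hi ((pow_dvd_pow p hle).trans (Nat.ordProj_dvd _ _))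
  obtain ⟨c, hc⟩ := Nat.exists_eq_add_of_lt hlt
  have h2 := inv_nat_mem hp (Nat.not_dvd_ordCompl (Fact.out : p.Prime) hd0)
  have h3 := Nat.ordProj_mul_ordCompl_eq_self (I.d i) p
  have h4 : ((p ^ (Nat.card H).factorization p : ℕ) : ℂ) * α / I.d i =
      p * (p ^ c * α * ((I.d i / p ^ (I.d i).factorization p : ℕ) : ℂ)⁻¹) := by
    conv_lhs => rw [← h3, hc]
    have hp0 : (p : ℂ) ≠ 0 := by exact_mod_cast (Fact.out : p.Prime).ne_zero
    rw [Nat.cast_mul]
    generalize ((I.d i / p ^ (I.d i).factorization p : ℕ) : ℂ) = m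
    push_cast
    rw [div_eq_mul_inv, mul_inv, pow_succ, pow_add]
    field_simp
  rw [h4]
  exact mul_mem_nonunits hp (V.mul_mem _ _ (V.mul_mem _ _ (pow_mem (natCast_mem V p) c)
    (mem_of_isIntegral V hα)) h2)

/-- No character of defect zero in the presence of a nontrivial normal `p`-subgroup. -/
lemma not_dz (R : Subgroup H) [hR : R.Normal] (hRp : IsPGroup p R) (hR0 : R ≠ ⊥) (i : Fin I.n) :
    ¬ p ^ (Nat.card H).factorization p ∣ I.d i := by
  classical
  intro hi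
  obtain ⟨⟨v, hv⟩, hv1⟩ := Subgroup.ne_bot_iff_exists_ne_one.1 hR0
  have hv1' : v ≠ 1 := fun e => hv1 (Subtype.ext e)
  have h1 := I.class_sum (fun g => if g ∈ R then 1 else 0) (by
    intro h g
    have : h * g * h⁻¹ ∈ R ↔ g ∈ R := by
      refine ⟨fun e => ?_, fun e => hR.conj_mem g e h⟩
      simpa [mul_assoc] using hR.conj_mem _ e h⁻¹
    simp only [this]) i
  have h2 : ∑ g, (if g ∈ R then (1 : ℂ) else 0) * I.χ i g = I.d i := by
    rw [Finset.sum_eq_single 1]
    · rw [if_pos R.one_mem, χ_one, one_mul]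
    · intro h _ h1
      split_ifs with h2
      · rw [I.dz_vanish i hi (isPElt_of_mem hRp h2) h1, mul_zero]
      · exact zero_mul _
    · simp
  rw [h2, div_self (I.d_ne i), one_smul] at h1
  have h3 : I.ρ i v * ∑ g, (if g ∈ R then (1 : ℂ) else 0) • I.ρ i g =
      ∑ g, (if g ∈ R then (1 : ℂ) else 0) • I.ρ i g := by
    rw [Finset.mul_sum]
    conv_rhs => rw [← Equiv.sum_comp (Equiv.mulLeft v)]
    refine Finset.sum_congr rfl (fun g _ => ?_)
    simp only [Equiv.coe_mulLeft, R.mul_mem_cancel_left hv, mul_smul_comm, map_mul]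
  rw [h1, mul_one] at h3
  have h4 := I.dz_vanish i hi (isPElt_of_mem hRp hv) hv1'
  rw [χ, h3] at h4
  exact I.d_ne i (by simpa using h4)

end IrrData

end Pool.Agent.Lib.MP_b6945b_al
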