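import Pool.Agent.Lib.MP_b6945b_al.Local

set_option autoImplicit false

/-!
Central characters: integrality, multiplicativity, and vanishing modulo `p` outside the
centraliser of a normal `p`-subgroup.
-/

namespace Pool.Agent.Lib.MP_b6945b_al

open Finset IsLocalRing MulAction

/-- Class functions. -/
def IsCF {H M : Type} [Group H] (z : H → M) : Prop := ∀ h g, z (h * g * h⁻¹) = z g

lemma IsCF.of_isConj {H M : Type} [Group H] {z : H → M} (hz : IsCF z) {x y : H}
    (h : IsConj x y) : z x = z y := by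
  obtain ⟨c, rfl⟩ := isConj_iff.1 h
  exact (hz c x).symm

lemma IsCF.comm {H M : Type} [Group H] {z : H → M} (hz : IsCF z) (x y : H) :
    z (x * y) = z (y * x) := by
  rw [← hz y (x * y)]; congr 1; group

/-- Convolution. -/
noncomputable def conv {H : Type} [Group H] [Fintype H] (f g : H → ℂ) (x : H) : ℂ :=
  ∑ y, f y * g (y⁻¹ * x)

lemma IsCF.conv {H : Type} [Group H] [Fintype H] {f g : H → ℂ} (hf : IsCF f) (hg : IsCF g) :
    IsCF (conv f g) := by
  intro h x
  unfold Pool.Agent.Lib.MP_b6945b_al.conv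
  rw [← Equiv.sum_comp (MulAut.conj h).toEquiv]
  refine Finset.sum_congr rfl (fun y _ => ?_)
  change f (h * y * h⁻¹) * g ((h * y * h⁻¹)⁻¹ * (h * x * h⁻¹)) = _
  rw [hf, ← hg h (y⁻¹ * x)]
  congr 2; group

open Classical in
/-- Indicator function. -/
noncomputable def ind {H : Type} (S : H → Prop) (h : H) : ℂ := if S h then 1 else 0

lemma ind_pos {H : Type} {S : H → Prop} {h : H} (e : S h) : ind S h = 1 := if_pos e

lemma ind_neg {H : Type} {S : H → Prop} {h : H} (e : ¬ S h) : ind S h = 0 := if_neg e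

lemma ind_mem {H : Type} (V : ValuationSubring ℂ) (S : H → Prop) (h : H) : ind S h ∈ V := by
  by_cases e : S h
  · rw [ind_pos e]; exact V.one_mem
  · rw [ind_neg e]; exact V.zero_mem

lemma isCF_ind {H : Type} [Group H] {S : H → Prop} (hS : ∀ h g, S (h * g * h⁻¹) ↔ S g) :
    IsCF (ind S) := by
  intro h g
  by_cases e : S g
  · rw [ind_pos e, ind_pos ((hS h g).2 e)]
  · rw [ind_neg e, ind_neg (fun a => e ((hS h g).1 a))]

lemma isConj_conj_iff {H : Type} [Group H] (x h g : H) :
    IsConj x (h * g * h⁻¹) ↔ IsConj x g := by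
  have e : IsConj g (h * g * h⁻¹) := isConj_iff.2 ⟨h, rfl⟩
  exact ⟨fun a => a.trans e.symm, fun a => a.trans e⟩

lemma sum_class_decomp {H : Type} [Group H] [Fintype (ConjClasses H)] {z : H → ℂ}
    (hz : IsCF z) (x : H) : z x = ∑ K : ConjClasses H, z K.out * ind (IsConj K.out) x := by
  rw [Finset.sum_eq_single (ConjClasses.mk x)]
  · have : IsConj (ConjClasses.mk x).out x :=
      ConjClasses.mk_eq_mk_iff_isConj.1 (Quotient.out_eq (ConjClasses.mk x))
    rw [ind_pos this, mul_one, hz.of_isConj this]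
  · intro K _ hK
    rw [ind_neg, mul_zero]
    intro h
    exact hK ((Quotient.out_eq K).symm.trans (ConjClasses.mk_eq_mk_iff_isConj.2 h))
  · simp

/-- Sum over a set acted on by a `p`-group without fixed points on the support. -/
lemma sum_mem_of_pgroup {Γ Y M : Type} [Group Γ] [MulAction Γ Y] [Fintype Y] [AddCommGroup M]
    {p : ℕ} [Fact p.Prime] (hΓ : IsPGroup p Γ) (φ : Y → M) (hφ : ∀ (g : Γ) y, φ (g • y) = φ y)
    (J : AddSubgroup M) (hp : ∀ y, p • φ y ∈ J) (h : ∀ y, (∀ g : Γ, g • y = y) → φ y ∈ J) :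
    ∑ y, φ y ∈ J := by
  refine sum_mem_of_orbit φ hφ J (fun y => ?_)
  obtain ⟨n, hn⟩ := hΓ.card_orbit y
  rcases n with _ | n
  · rw [hn, pow_zero, one_smul]
    refine h y ?_
    let _ := Fintype.ofFinite (orbit Γ y)
    rw [pow_zero, Nat.card_eq_fintype_card] at hn
    exact mem_fixedPoints.1 (mem_fixedPoints_iff_card_orbit_eq_one.2 hn)
  · rw [hn, pow_succ, mul_smul]
    exact J.nsmul_mem (hp y) _

/-- The group acting on itself by conjugation. -/
@[ext] structure Cj (G : Type) where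
  /-- the element -/
  v : G

instance {G : Type} [Group G] : MulAction G (Cj G) where
  smul g x := ⟨g * x.v * g⁻¹⟩
  one_smul x := by
    change Cj.mk _ = _
    ext1; simp
  mul_smul g h x := by
    change Cj.mk _ = Cj.mk (g * (h * x.v * h⁻¹) * g⁻¹)
    ext1; simp [mul_assoc]

/-- The underlying element. -/
def Cj.equiv {G : Type} : Cj G ≃ G where
  toFun x := x.v
  invFun y := ⟨y⟩
  left_inv _ := rfl
  right_inv _ := rfl

/-- Conjugation version of `sum_mem_of_pgroup`. -/
lemma sum_mem_of_conj {G M : Type} [Group G] [Fintype G] [AddCommGroup M]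
    {p : ℕ} [Fact p.Prime] (S : Subgroup G) (hS : IsPGroup p S) (φ : G → M)
    (hφ : ∀ g ∈ S, ∀ y, φ (g * y * g⁻¹) = φ y)
    (J : AddSubgroup M) (hp : ∀ y, p • φ y ∈ J) (h : ∀ y, (∀ g ∈ S, g * y = y * g) → φ y ∈ J) :
    ∑ y, φ y ∈ J := by
  let _ : Fintype (Cj G) := Fintype.ofEquiv _ Cj.equiv.symm
  rw [← Equiv.sum_comp Cj.equiv]
  refine sum_mem_of_pgroup (Γ := S) hS _ (fun g y => hφ g g.2 y.v) J (fun y => hp y.v) ?_
  intro y hy
  refine h y.v (fun g hg => ?_)
  have : g * y.v * g⁻¹ = y.v := congrArg Cj.v (hy ⟨g, hg⟩)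
  exact mul_inv_eq_iff_eq_mul.1 this

/-- A `p`-group acting by right translations on a nonzero space of functions in characteristic
`p` has a nonzero fixed vector. -/
lemma exists_fixed {H k : Type} [Group H] [Finite H] [Field k] {p : ℕ} [Fact p.Prime] [CharP k p]
    (P : Subgroup H) (hP : IsPGroup p P) (U : AddSubgroup (H → k))
    (hU : ∀ f ∈ U, ∀ g ∈ P, (fun x => f (x * g)) ∈ U) (f : H → k) (hf : f ∈ U) (hf0 : f ≠ 0) :
    ∃ f' ∈ U, f' ≠ 0 ∧ ∀ g ∈ P, ∀ x, f' (x * g) = f' x := by
  let _ : Algebra (ZMod p) k := ZMod.algebra k p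
  let T : Submodule (ZMod p) (H → k) :=
    Submodule.span (ZMod p) (Set.range (fun g : P => fun x => f (x * g)))
  have hTU : ∀ t ∈ T, t ∈ U := by
    intro t ht
    induction ht using Submodule.span_induction with
    | mem x hx => obtain ⟨g, rfl⟩ := hx; exact hU f hf g g.2
    | zero => exact U.zero_mem
    | add x y _ _ h1 h2 => exact U.add_mem h1 h2
    | smul a x _ h1 =>
      obtain ⟨n, rfl⟩ := ZMod.natCast_zmod_surjective a
      rw [Nat.cast_smul_eq_nsmul]; exact U.nsmul_mem h1 n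
  have hTg : ∀ g : P, ∀ t ∈ T, (fun x => t (x * g)) ∈ T := by
    intro g t ht
    induction ht using Submodule.span_induction with
    | mem x hx =>
      obtain ⟨h, rfl⟩ := hx
      exact Submodule.subset_span ⟨g * h, by ext x; simp [mul_assoc]⟩
    | zero => exact T.zero_mem
    | add x y _ _ h1 h2 => exact T.add_mem h1 h2
    | smul a x _ h1 => exact T.smul_mem a h1
  let _ : MulAction P T :=
    { smul := fun g t => ⟨fun x => t.1 (x * g), hTg g t.1 t.2⟩
      one_smul := fun t => Subtype.ext (by ext x; change t.1 (x * 1) = _; rw [mul_one])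
      mul_smul := fun g h t => Subtype.ext (by
        ext x; change t.1 (x * (g * h)) = t.1 (x * g * h); rw [mul_assoc]) }
  have hfin : Module.Finite (ZMod p) T := Module.Finite.span_of_finite _ (Set.finite_range _)
  have : Finite T := Module.finite_of_finite (ZMod p)
  have hfT : f ∈ T := Submodule.subset_span ⟨1, by ext x; simp⟩
  have hnt : Nontrivial T := ⟨⟨⟨f, hfT⟩, 0, fun e => hf0 (congrArg Subtype.val e)⟩⟩
  have hdvd : p ∣ Nat.card T := by
    rw [Module.natCard_eq_pow_finrank (K := ZMod p), Nat.card_zmod]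
    exact dvd_pow_self p Module.finrank_pos.ne'
  obtain ⟨t, ht, ht0⟩ := hP.exists_fixed_point_of_prime_dvd_card_of_fixed_point T hdvd
    (a := 0) (fun g => Subtype.ext rfl)
  refine ⟨t.1, hTU _ t.2, fun e => ht0 (Subtype.ext e.symm), fun g hg x => ?_⟩
  exact congrFun (congrArg Subtype.val (ht ⟨g, hg⟩)) x

namespace IrrData

variable {H : Type} [Group H] [Fintype H] (I : IrrData H)

/-- The central character. -/
noncomputable def om (i : Fin I.n) (z : H → ℂ) : ℂ := (∑ h, z h * I.χ i h) / I.d i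

lemma fourier_cf {z : H → ℂ} (hz : IsCF z) (i : Fin I.n) :
    ∑ g, z g • I.ρ i g = I.om i z • 1 := I.class_sum z hz i

lemma om_add (i : Fin I.n) (z w : H → ℂ) : I.om i (z + w) = I.om i z + I.om i w := by
  simp [om, add_mul, Finset.sum_add_distrib, add_div]

lemma om_sub (i : Fin I.n) (z w : H → ℂ) : I.om i (z - w) = I.om i z - I.om i w := by
  simp [om, sub_mul, Finset.sum_sub_distrib, sub_div]

lemma om_smul (i : Fin I.n) (c : ℂ) (z : H → ℂ) : I.om i (c • z) = c * I.om i z := by
  simp [om, mul_assoc, ← Finset.mul_sum, mul_div_assoc]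

lemma fourier_conv' (i : Fin I.n) (f g : H → ℂ) :
    ∑ x, conv f g x • I.ρ i x = (∑ y, f y • I.ρ i y) * ∑ x, g x • I.ρ i x :=
  I.fourier_conv i f g

lemma om_conv (i : Fin I.n) {z w : H → ℂ} (hz : IsCF z) (hw : IsCF w) :
    I.om i (conv z w) = I.om i z * I.om i w := by
  have h1 := I.fourier_conv' i z w
  rw [I.fourier_cf (hz.conv hw), I.fourier_cf hz, I.fourier_cf hw, smul_mul_smul_comm, one_mul]
    at h1
  have h2 := congrFun (congrFun h1 ⟨0, I.pos i⟩) ⟨0, I.pos i⟩
  simpa using h2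

lemma comm_sum' (z : H → ℂ) : ∑ a : H, ∑ b : H, z (a * b * a⁻¹ * b⁻¹) =
    Fintype.card H * ∑ i, I.om i z := by
  have := I.comm_sum (fun h => z h⁻¹)
  rw [Finset.sum_comm] at this
  simp only [mul_inv_rev, inv_inv, ← mul_assoc] at this
  rw [this]
  congr 1
  refine Finset.sum_congr rfl (fun i _ => ?_)
  rw [om, ← Equiv.sum_comp (Equiv.inv H)]
  simp

lemma om_int (i : Fin I.n) (z : H → ℤ) (hz : IsCF z) : IsIntegral ℤ (I.om i (fun h => z h)) := by
  have : Nonempty (Fin (I.d i)) := ⟨⟨0, I.pos i⟩⟩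
  have h1 : IsIntegral ℤ (∑ h, MonoidAlgebra.single h (z h) : MonoidAlgebra ℤ H) :=
    IsIntegral.of_finite ℤ _
  have h2 := h1.map (MonoidAlgebra.lift ℤ _ H (I.ρ i))
  rw [map_sum] at h2
  simp only [MonoidAlgebra.lift_single] at h2
  have h3 := I.fourier_cf (z := fun h => (z h : ℂ)) (fun h g => by simp only [hz h g]) i
  simp only [Int.cast_smul_eq_zsmul] at h3
  rw [h3, ← Algebra.algebraMap_eq_smul_one] at h2
  exact (isIntegral_algebraMap_iff (algebraMap ℂ _).injective).1 h2

lemma om_ind_int (i : Fin I.n) (S : H → Prop) (hS : ∀ h g, S (h * g * h⁻¹) ↔ S g) :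
    IsIntegral ℤ (I.om i (ind S)) := by
  classical
  have := I.om_int i (fun h => if S h then 1 else 0) (fun h g => by simp only [hS])
  have e : (fun h => (((if S h then 1 else 0 : ℤ)) : ℂ)) = ind S := by
    ext h
    by_cases e : S h
    · simp [e, ind_pos]
    · simp [e, ind_neg]
  rwa [e] at this

lemma om_decomp [Fintype (ConjClasses H)] (i : Fin I.n) {z : H → ℂ} (hz : IsCF z) :
    I.om i z = ∑ K : ConjClasses H, z K.out * I.om i (ind (IsConj K.out)) := by
  unfold om
  rw [Finset.sum_congr rfl (fun x _ => by rw [sum_class_decomp hz x])]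
  simp only [Finset.sum_mul, Finset.sum_div]
  rw [Finset.sum_comm]
  refine Finset.sum_congr rfl (fun K _ => ?_)
  rw [Finset.mul_sum]
  refine Finset.sum_congr rfl (fun h _ => ?_)
  ring

lemma om_mem {V : ValuationSubring ℂ} (i : Fin I.n) {z : H → ℂ} (hz : IsCF z)
    (hV : ∀ h, z h ∈ V) : I.om i z ∈ V := by
  let _ : Fintype (ConjClasses H) := Fintype.ofFinite _
  rw [I.om_decomp i hz]
  exact sum_mem (fun K _ => V.mul_mem _ _ (hV _)
    (mem_of_isIntegral V (I.om_ind_int i _ (isConj_conj_iff _))))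

lemma om_mem_nonunits {V : ValuationSubring ℂ} (i : Fin I.n) {z : H → ℂ} (hz : IsCF z)
    (hV : ∀ h, z h ∈ V.nonunits) : I.om i z ∈ V.nonunits := by
  let _ : Fintype (ConjClasses H) := Fintype.ofFinite _
  rw [I.om_decomp i hz]
  exact sum_mem (fun K _ => mul_mem_nonunits (hV _)
    (mem_of_isIntegral V (I.om_ind_int i _ (isConj_conj_iff _))))

lemma conv_χ (i : Fin I.n) {z : H → ℂ} (hz : IsCF z) (x : H) :
    conv z (fun h => I.χ i h⁻¹) x = I.om i z * I.χ i x⁻¹ := by
  have hd := I.d_ne i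
  have hc := card_ne (H := H)
  have h0 : ∀ j, ∑ g, I.χ i g⁻¹ • I.ρ j g =
      ((Fintype.card H : ℂ) / I.d i) • (if j = i then 1 else 0) := by
    intro j
    rw [← I.idem i j, Finset.smul_sum]
    refine Finset.sum_congr rfl (fun g _ => ?_)
    rw [smul_smul]; congr 1; field_simp
  have := I.fourier_inj (f := conv z (fun h => I.χ i h⁻¹)) (g := fun x => I.om i z * I.χ i x⁻¹) (by
    intro j
    rw [I.fourier_conv', I.fourier_cf hz]
    simp only [mul_smul]
    rw [← Finset.smul_sum, h0, smul_mul_assoc, one_mul]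
    split_ifs with e
    · rw [e]
    · simp)
  exact congrFun this x

/-- Central characters vanish modulo `p` on class functions supported outside the centraliser of
a normal `p`-subgroup. -/
lemma om_nil {V : ValuationSubring ℂ} {p : ℕ} [Fact p.Prime] (hp : (p : ℂ) ∈ V.nonunits)
    (i : Fin I.n) (P : Subgroup H) [hPn : P.Normal] (hP : IsPGroup p P) {z : H → ℂ} (hz : IsCF z)
    (hV : ∀ h, z h ∈ V) (h0 : ∀ h, (∀ g ∈ P, g * h = h * g) → z h = 0) :
    I.om i z ∈ V.nonunits := by
  have := charP_residue V hp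
  obtain ⟨h₀, -, hmax⟩ := Finset.exists_max_image (univ : Finset H)
    (fun h => V.valuation (I.χ i h⁻¹)) Finset.univ_nonempty
  have ht : I.χ i h₀⁻¹ ≠ 0 := by
    intro e
    have h1 := hmax 1 (Finset.mem_univ _)
    rw [e, map_zero, inv_one, χ_one, le_zero_iff, map_eq_zero] at h1
    exact I.d_ne i h1
  have hy : ∀ h : H, I.χ i h⁻¹ / I.χ i h₀⁻¹ ∈ V := by
    intro h
    rw [← V.valuation_le_one_iff, map_div₀]
    exact div_le_one_of_le₀ (hmax h (Finset.mem_univ _)) zero_le
  let zb : H → ResidueField V := fun h => residue V ⟨z h, hV h⟩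
  let wb : ResidueField V := residue V ⟨I.om i z, I.om_mem i hz hV⟩
  let U : AddSubgroup (H → ResidueField V) :=
    { carrier := {f | ∀ x, ∑ y, zb y * f (y⁻¹ * x) = wb * f x}
      zero_mem' := by intro x; simp
      add_mem' := by
        intro f g hf hg x
        simp only [Pi.add_apply, mul_add, Finset.sum_add_distrib, hf x, hg x]
      neg_mem' := by
        intro f hf x
        simp only [Pi.neg_apply, mul_neg, Finset.sum_neg_distrib, hf x] }
  obtain ⟨f, hfU, hf0, hfP⟩ := exists_fixed P hP U (by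
      intro f hf g _ x
      simp only [mul_assoc]
      exact hf (x * g)) (fun h => residue V ⟨_, hy h⟩) (by
      intro x
      simp only [zb, wb, ← map_mul]
      rw [← map_sum]
      congr 1
      apply Subtype.ext
      have h1 := I.conv_χ i hz x
      simp only [conv] at h1
      simp only [AddSubmonoidClass.coe_finsetSum, MulMemClass.coe_mul, ← mul_div_assoc]
      rw [← Finset.sum_div, h1]) (by
      intro e
      have h1 := congrFun e h₀
      have h2 : (⟨_, hy h₀⟩ : V) = 1 := Subtype.ext (div_self ht)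
      simp only [h2, map_one, Pi.zero_apply] at h1
      exact one_ne_zero h1)
  obtain ⟨x, hx⟩ := Function.ne_iff.1 hf0
  have h1 : ∑ y, zb y * f (y⁻¹ * x) ∈ (⊥ : AddSubgroup (ResidueField V)) := by
    refine sum_mem_of_conj P hP _ ?_ ⊥ ?_ ?_
    · intro g hg y
      have e1 : zb (g * y * g⁻¹) = zb y := by simp only [zb, hz g y]
      have e2 : (g * y * g⁻¹)⁻¹ * x = y⁻¹ * x * ((y⁻¹ * x)⁻¹ * g * (y⁻¹ * x) * (x⁻¹ * g⁻¹ * x)) := by
        group
      rw [e1, e2, hfP]
      refine P.mul_mem ?_ ?_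
      · simpa using hPn.conj_mem g hg (y⁻¹ * x)⁻¹
      · simpa using hPn.conj_mem _ (P.inv_mem hg) x⁻¹
    · intro y
      rw [nsmul_eq_mul, CharP.cast_eq_zero, zero_mul]; exact zero_mem _
    · intro y hy
      have : zb y = 0 := by
        have e : (⟨z y, hV y⟩ : V) = 0 := Subtype.ext (h0 y hy)
        simp only [zb, e, map_zero]
      rw [this, zero_mul]; exact zero_mem _
  rw [AddSubgroup.mem_bot, hfU x] at h1
  have h2 : wb = 0 := (mul_eq_zero.1 h1).resolve_right hx
  exact ValuationSubring.coe_mem_nonunits_iff.2 ((residue_eq_zero_iff _).1 h2)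

end IrrData

end Pool.Agent.Lib.MP_b6945b_al
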