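import Pool.Agent.Lib.MP_b6945b_al.Kx.RAll
import Pool.Agent.Lib.MP_b6945b_al.Kx.WCnt

set_option autoImplicit false

namespace Pool.Agent.Results.MP_b6945b_al.WeightLargeMoved

open Pool.Agent.Lib.MP_b6945b_al

/-- For every prime `p` and every `n` there is `N` such that Alperin's weight conjecture holds for
every `p`-block with an abelian defect group `D` generated by at most `n` elements in which every
nontrivial element of the inertial quotient has a centraliser in `D` of index greater than `N`.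
The sum runs over all `p`-subgroups `P`, the trivial one included; the factor `|N(P)|` makes it
`|G|` times the number of conjugacy classes of weights of the block. -/
theorem result :
    ∀ (p : ℕ), p.Prime → ∀ n : ℕ, ∃ N : ℕ, ∀ (G : Type) [Group G] [Finite G]
      (M : Ideal (integralClosure ℤ ℂ)), M.IsMaximal → (p : integralClosure ℤ ℂ) ∈ M →
      ∀ (χ : G → ℂ), IsIrrChar χ →
      ∀ (D : Subgroup G), IsDefectGroup p M χ D → (∀ x ∈ D, ∀ y ∈ D, x * y = y * x) →
      Group.rank D ≤ n → LargeMoved M χ D N →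
      ∑ᶠ (P : Subgroup G) (_ : IsPGroup p P),
        Nat.card (Subgroup.normalizer (P : Set G)) * wInd p M χ P =
          Nat.card G * lInd p M χ ⊤ := by
  intro p hp n
  obtain ⟨N, h⟩ := Kx.kl_eq p hp n
  refine ⟨N, fun G _ _ M hM hpM χ hχ D hD hc hn hl => ?_⟩
  rw [(h G M hM hpM χ hχ D hD hc hn (Or.inl hl)).2]
  exact Kx.sum_wInd p hp G M hM hpM χ hχ D hD hc

/-- The same conclusion when every cyclic factor of `D` has order greater than `p ^ N`, whatever
the inertial quotient. -/
theorem of_large_factors :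
    ∀ (p : ℕ), p.Prime → ∀ n : ℕ, ∃ N : ℕ, ∀ (G : Type) [Group G] [Finite G]
      (M : Ideal (integralClosure ℤ ℂ)), M.IsMaximal → (p : integralClosure ℤ ℂ) ∈ M →
      ∀ (χ : G → ℂ), IsIrrChar χ →
      ∀ (D : Subgroup G), IsDefectGroup p M χ D → (∀ x ∈ D, ∀ y ∈ D, x * y = y * x) →
      Group.rank D ≤ n → (∀ x ∈ D, x ^ p = 1 → ∃ y ∈ D, y ^ p ^ N = x) →
      ∑ᶠ (P : Subgroup G) (_ : IsPGroup p P),
        Nat.card (Subgroup.normalizer (P : Set G)) * wInd p M χ P =
          Nat.card G * lInd p M χ ⊤ := by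
  intro p hp n
  obtain ⟨N, h⟩ := Kx.kl_eq p hp n
  refine ⟨N, fun G _ _ M hM hpM χ hχ D hD hc hn hl => ?_⟩
  rw [(h G M hM hpM χ hχ D hD hc hn (Or.inr hl)).2]
  exact Kx.sum_wInd p hp G M hM hpM χ hχ D hD hc

end Pool.Agent.Results.MP_b6945b_al.WeightLargeMoved
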